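import Mathlib
import Pool.Agent.N441.SH.TUA
import Pool.Agent.N176.SH.All

set_option autoImplicit false

/-!
# The sieve bound for two exponents, with an explicit dependence on the base
-/

namespace Run7.h854.LB

open Finset
open Pool.Agent.H305R2 (roughPart roughPart_prime)
open Pool.Agent.N176.OW (cell)
open Pool.Agent.N176.OW.TU2 (card_image_ge sum_primes large SVc)
open Pool.Agent.N176.SH
open Pool.Agent.N441.SH (cc cc_lt cc_iff coinc Gd)
open Pool.Agent.N34.SH (Lp c_le)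

open Classical in
/-- the bound for a short interval -/
lemma sub {b : ℕ} (hb : 2 ≤ b) {C D : ℝ} (hC : 1 ≤ C) (hD : 1 ≤ D) (hSV : SVc C D) {x : ℕ} (hxb : b + 16 ≤ x)
    (hxl : 2 * C * Real.log x ^ 2 ≤ x * Real.log b / 16) (hxE : 8 * Real.log b ≤ Real.log x)
    {F : Finset ℕ} (hF : ∀ p ∈ F, x < p ∧ p ≤ 2 * x) (hF2 : F.card = 2) (hx4 : 4 ≤ Real.log x)
    {p1 : ℕ} (hp1 : p1 ∈ F)
    (hmin : ∀ p ∈ F, p1 ≤ p) {z : ℕ} (hz : 64 * z ≤ x) {o : ℕ → ℤ}
    (ho : ∀ p ∈ F, |o p| < (b : ℤ) ^ (p + 1) ∧ -(b : ℤ) ^ (p - z) ≤ 2 * o p)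
    (hnd : ∀ p ∈ F, ∀ q ∈ F, p < q → o q ≠ (b : ℤ) ^ (q - p) * o p)
    {s : ℕ} (hs : b ^ (p1 - z) ≤ s) :
    (((Ico s (s + b ^ ((p1 - z) / 8))).filter (Gd F b p1 x o)).card : ℝ) ≤
      (128 * D / Real.log b * (Real.log x / x)) ^ 2 *
        (b : ℝ) ^ ((p1 - z) / 8) := by
  have hk : (F.card : ℝ) ^ 2 ≤ Real.log x := by
    rw [hF2]
    push_cast
    linarith
  obtain ⟨e, he⟩ : ∃ e, e = (p1 - z) / 8 := ⟨_, rfl⟩
  rw [← he]
  obtain ⟨k, hkd⟩ : ∃ k, k = F.card := ⟨_, rfl⟩
  have hk2 : k = 2 := hkd.trans hF2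
  rw [← hkd] at hk
  have hx1 := (hF p1 hp1).1
  have hx2 := (hF p1 hp1).2
  have hk1 : 1 ≤ k := by
    rw [hkd]
    exact Finset.card_pos.2 ⟨p1, hp1⟩
  have hk1R : (1 : ℝ) ≤ k := by exact_mod_cast hk1
  have hxR : (18 : ℝ) ≤ x := by exact_mod_cast (by omega : 18 ≤ x)
  have hbR : (2 : ℝ) ≤ b := by exact_mod_cast hb
  have hlb : 0 < Real.log b := Real.log_pos (by linarith)
  have he16 : x ≤ 16 * e := by omega
  have he8 : 8 * e ≤ p1 - z := by omega
  have heR : (x : ℝ) ≤ 16 * e := by exact_mod_cast he16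
  have hlx : 0 < Real.log x := Real.log_pos (by linarith)
  have hlx1 : 1 ≤ Real.log x := by
    refine le_trans ?_ hk
    nlinarith
  have hkl : (k : ℝ) ≤ Real.log x := by nlinarith
  have hlN : Real.log ((b ^ e : ℕ) : ℝ) = e * Real.log b := by
    push_cast
    rw [Real.log_pow]
  have hlN16 : x * Real.log b / 16 ≤ e * Real.log b := by nlinarith
  have hl2x : Real.log ((2 * x : ℕ) : ℝ) ≤ 2 * Real.log x := by
    push_cast
    rw [two_mul (Real.log (x : ℝ)), ← Real.log_mul (by linarith) (by linarith)]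
    exact Real.log_le_log (by linarith) (by nlinarith)
  have hl2x' : Real.log x ≤ Real.log ((2 * x : ℕ) : ℝ) := by
    push_cast
    exact Real.log_le_log (by linarith) (by linarith)
  have hl2x0 : 0 < Real.log ((2 * x : ℕ) : ℝ) := by linarith
  -- the classes
  obtain ⟨f, hf⟩ : ∃ f : ℕ → ℕ → ℕ, f = fun l p => cc (b ^ (p - p1)) s (o p) l :=
    ⟨_, rfl⟩
  obtain ⟨A, hA⟩ : ∃ A : Finset ℕ, A = ((Ico s (s + b ^ e)).filter (Gd F b p1 x o)).image
    (fun m => m - s + 1) := ⟨_, rfl⟩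
  have hs1 : 1 ≤ s := le_trans (Nat.one_le_pow _ _ (by omega)) hs
  have hAcard : ((Ico s (s + b ^ e)).filter (Gd F b p1 x o)).card = A.card := by
    rw [hA, Finset.card_image_of_injOn]
    intro m hm m' hm' h
    rw [mem_coe, mem_filter, mem_Ico] at hm hm'
    simp only at h
    omega
  have hcop : ∀ l : ℕ, l.Prime → 2 * x < l → Nat.Coprime b l := by
    intro l hl hlx
    rw [Nat.coprime_comm, Nat.Prime.coprime_iff_not_dvd hl]
    intro h
    have := Nat.le_of_dvd (by omega) h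
    omega
  have hmain := hSV k (b ^ e) (2 * x) 1 (fun l => F.image (f l)) A hk1 (by omega)
    (by
      have h1 : (k : ℝ) ^ 2 ≤ 2 * x := by
        have := Real.log_le_sub_one_of_pos (by linarith : (0 : ℝ) < x)
        linarith
      exact_mod_cast h1)
    (by
      rw [hlN]
      calc C * k * Real.log ((2 * x : ℕ) : ℝ) ≤ C * Real.log x * (2 * Real.log x) := by
            gcongr
        _ = 2 * C * Real.log x ^ 2 := by ring
        _ ≤ x * Real.log b / 16 := hxl
        _ ≤ e * Real.log b := hlN16)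
    (by
      intro n hn
      rw [hA, mem_image] at hn
      obtain ⟨m, hm, rfl⟩ := hn
      rw [mem_filter, mem_Ico] at hm
      rw [mem_Icc]
      omega)
    (by
      intro l hl hlx
      refine ⟨fun c hc => ?_, ?_⟩
      · rw [mem_image] at hc
        obtain ⟨p, _, rfl⟩ := hc
        rw [mem_range, hf]
        exact cc_lt hl.pos
      · rw [hkd]
        exact Finset.card_image_le)
    (by
      intro n hn l hl hlx hsmall hmem
      rw [mem_image] at hmem
      obtain ⟨p, hp, hcl⟩ := hmem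
      rw [hA, mem_image] at hn
      obtain ⟨m, hm, rfl⟩ := hn
      rw [mem_filter, mem_Ico] at hm
      have hpF := hF p hp
      have hp1p := hmin p hp
      rw [hf] at hcl
      have hd := (cc_iff hl.pos (Nat.Coprime.pow_left (p - p1) (hcop l hl hlx))
        (by omega : 1 ≤ m - s + 1)).2 hcl.symm
      have e1 : m - s + 1 + s - 1 = m := by omega
      rw [e1] at hd
      obtain ⟨g1, g2⟩ := hm.2 p hp
      have hlow : (b : ℤ) ^ (p1 - z) ≤ 2 * ((b : ℤ) ^ (p - p1) * (m : ℤ) + o p) := by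
        have hb1 : (1 : ℤ) ≤ b := by exact_mod_cast (by omega : 1 ≤ b)
        have q1 : (b : ℤ) ^ (p - z) = (b : ℤ) ^ (p - p1) * (b : ℤ) ^ (p1 - z) := by
          rw [← pow_add]
          congr 1
          omega
        have q2 : (b : ℤ) ^ (p1 - z) ≤ m := by exact_mod_cast hs.trans hm.1.1
        have q3 : (b : ℤ) ^ (p - z) ≤ (b : ℤ) ^ (p - p1) * (m : ℤ) := by
          rw [q1]
          exact mul_le_mul_of_nonneg_left q2 (by positivity)
        have q4 : (b : ℤ) ^ (p1 - z) ≤ (b : ℤ) ^ (p - z) := pow_le_pow_right₀ hb1 (by omega)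
        have q5 := (ho p hp).2
        linarith
      have hpos : 0 < (b : ℤ) ^ (p - p1) * (m : ℤ) + o p := by
        have : (0 : ℤ) < (b : ℤ) ^ (p1 - z) := by positivity
        linarith
      obtain ⟨M, hM⟩ : ∃ M : ℕ, M = ((b : ℤ) ^ (p - p1) * (m : ℤ) + o p).toNat := ⟨_, rfl⟩
      have hMz : (M : ℤ) = (b : ℤ) ^ (p - p1) * (m : ℤ) + o p := by
        rw [hM]
        exact Int.toNat_of_nonneg hpos.le
      rw [← hM] at g1 g2
      have hd' : l ∣ M := by
        rw [Nat.cast_pow, ← hMz] at hd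
        exact_mod_cast hd
      have h3 := large g1 g2 hl (by omega) hd'
      have h4 : (b : ℝ) ^ (p1 - z) ≤ 2 * (M : ℝ) := by
        rw [← hMz] at hlow
        exact_mod_cast hlow
      have h5 : (b : ℝ) ^ (p1 - z) < 2 * (Real.exp (x * Real.log b / 8) * l) := by linarith
      have hlR : (0 : ℝ) < l := by exact_mod_cast hl.pos
      have h6 : ((p1 - z : ℕ) : ℝ) * Real.log b <
          Real.log b + (x * Real.log b / 8 + Real.log l) := by
        have h7 := Real.log_lt_log (by positivity) h5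
        rw [Real.log_pow, Real.log_mul (by norm_num) (by positivity),
          Real.log_mul (Real.exp_pos _).ne' hlR.ne', Real.log_exp] at h7
        have h7' : Real.log 2 ≤ Real.log b := Real.log_le_log (by norm_num) hbR
        linarith
      rw [hlN] at hsmall
      have hll : 0 ≤ Real.log l := Real.log_nonneg (by exact_mod_cast hl.one_lt.le)
      have h8 : Real.log l ≤ e * Real.log b := by
        refine le_trans ?_ hsmall
        have : 1 ≤ C * k := by nlinarith
        nlinarith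
      have h9 : 8 * (e : ℝ) ≤ ((p1 - z : ℕ) : ℝ) := by exact_mod_cast he8
      have h10 : (63 : ℝ) * x ≤ 64 * ((p1 - z : ℕ) : ℝ) := by
        have : 63 * x ≤ 64 * (p1 - z) := by omega
        exact_mod_cast this
      have h11 : (e : ℝ) * Real.log b ≤ ((p1 - z : ℕ) : ℝ) * Real.log b / 8 := by nlinarith
      have h12 : 63 / 64 * (x : ℝ) * Real.log b ≤ ((p1 - z : ℕ) : ℝ) * Real.log b := by nlinarith
      have h13 : 18 * Real.log b ≤ (x : ℝ) * Real.log b :=
        mul_le_mul_of_nonneg_right hxR hlb.le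
      linarith)
    (by
      -- the density
      have step : ∀ l ∈ (Ioc (2 * x) (b ^ e)).filter Nat.Prime,
          ((k : ℝ) - ((F.image (f l)).card : ℝ)) / l ≤
          ∑ q ∈ F, ∑ p ∈ F.filter (fun p => p < q),
            if l ∣ (o q - (b : ℤ) ^ (q - p) * o p).natAbs then 1 / (l : ℝ) else 0 := by
        intro l hl
        rw [mem_filter, mem_Ioc] at hl
        have lR : (0 : ℝ) < l := by exact_mod_cast hl.2.pos
        have h1 := card_image_ge F (f l)
        rw [← hkd] at h1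
        have h2 : ((k : ℝ) - ((F.image (f l)).card : ℝ)) ≤
            ((F.filter (fun q => ∃ p ∈ F, p < q ∧ f l p = f l q)).card : ℝ) := by
          rw [sub_le_iff_le_add']
          exact_mod_cast h1
        rw [div_le_iff₀ lR]
        refine h2.trans ?_
        rw [Finset.card_eq_sum_ones, Nat.cast_sum, Finset.sum_filter, Finset.sum_mul]
        refine Finset.sum_le_sum fun q hq => ?_
        rw [Finset.sum_mul]
        have hnn : ∀ p ∈ F.filter (fun p => p < q), 0 ≤
            (if l ∣ (o q - (b : ℤ) ^ (q - p) * o p).natAbs then 1 / (l : ℝ) else 0) * l := by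
          intro p _
          split_ifs
          · positivity
          · rw [zero_mul]
        split_ifs with h3
        · obtain ⟨p, hp, hpq, hfe⟩ := h3
          rw [hf] at hfe
          have hd : l ∣ (o q - (b : ℤ) ^ (q - p) * o p).natAbs :=
            Int.natCast_dvd.1 (coinc (hmin p hp) hpq.le hl.2.pos (hcop l hl.2 hl.1.1) hfe)
          refine le_trans ?_ (Finset.single_le_sum hnn (mem_filter.2 ⟨hp, hpq⟩))
          rw [if_pos hd]
          rw [Nat.cast_one, one_div, inv_mul_cancel₀ lR.ne']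
        · exact Finset.sum_nonneg hnn
      refine (Finset.sum_le_sum step).trans ?_
      rw [Finset.sum_comm]
      have inner : ∀ q ∈ F, ∑ l ∈ (Ioc (2 * x) (b ^ e)).filter Nat.Prime,
          ∑ p ∈ F.filter (fun p => p < q),
            (if l ∣ (o q - (b : ℤ) ^ (q - p) * o p).natAbs then 1 / (l : ℝ) else 0) ≤
          k * (4 * x * Real.log b / (Real.log ((2 * x : ℕ) : ℝ) * ((2 * x : ℕ) : ℝ))) := by
        intro q hq
        rw [Finset.sum_comm]
        have h1 : ∀ p ∈ F.filter (fun p => p < q), ∑ l ∈ (Ioc (2 * x) (b ^ e)).filter Nat.Prime,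
            (if l ∣ (o q - (b : ℤ) ^ (q - p) * o p).natAbs then 1 / (l : ℝ) else 0) ≤
            4 * x * Real.log b / (Real.log ((2 * x : ℕ) : ℝ) * ((2 * x : ℕ) : ℝ)) := by
          intro p hp
          rw [mem_filter] at hp
          have hpF := hF p hp.1
          have hqF := hF q hq
          rw [← Finset.sum_filter]
          have hD0 : (o q - (b : ℤ) ^ (q - p) * o p).natAbs ≠ 0 := by
            rw [Int.natAbs_ne_zero]
            exact sub_ne_zero.2 (hnd p hp.1 q hq hp.2)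
          have hDle : (o q - (b : ℤ) ^ (q - p) * o p).natAbs ≤ b ^ (4 * x) := by
            have w1 := (ho p hp.1).1
            have w2 := (ho q hq).1
            have w3 : |o q - (b : ℤ) ^ (q - p) * o p| ≤ |o q| + (b : ℤ) ^ (q - p) * |o p| := by
              refine (abs_sub _ _).trans (le_of_eq ?_)
              rw [abs_mul, abs_of_nonneg (by positivity : (0 : ℤ) ≤ (b : ℤ) ^ (q - p))]
            have w4 : (b : ℤ) ^ (q - p) * |o p| ≤ (b : ℤ) ^ (q - p) * (b : ℤ) ^ (p + 1) :=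
              mul_le_mul_of_nonneg_left w1.le (by positivity)
            have w5 : (b : ℤ) ^ (q - p) * (b : ℤ) ^ (p + 1) = (b : ℤ) ^ (q + 1) := by
              rw [← pow_add]
              congr 1
              omega
            have w6 : (b : ℤ) ^ (q + 2) = (b : ℤ) ^ (q + 1) * b := pow_succ _ _
            have w7 : (b : ℤ) ^ (q + 1) * 2 ≤ (b : ℤ) ^ (q + 1) * b :=
              mul_le_mul_of_nonneg_left (by exact_mod_cast hb) (by positivity)
            have w8 : (b : ℤ) ^ (q + 2) ≤ (b : ℤ) ^ (4 * x) :=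
              pow_le_pow_right₀ (by exact_mod_cast (by omega : 1 ≤ b)) (by omega)
            have w9 : |o q - (b : ℤ) ^ (q - p) * o p| ≤ (b : ℤ) ^ (4 * x) := by linarith
            rw [Int.abs_eq_natAbs] at w9
            exact_mod_cast w9
          refine sum_primes (by omega) (Nat.pos_of_ne_zero hD0) ?_
          have h2 : (((o q - (b : ℤ) ^ (q - p) * o p).natAbs : ℕ) : ℝ) ≤ (b : ℝ) ^ (4 * x) := by
            exact_mod_cast hDle
          have h3 := Real.log_le_log (by exact_mod_cast Nat.pos_of_ne_zero hD0) h2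
          rw [Real.log_pow] at h3
          push_cast at h3 ⊢
          exact h3
        refine (Finset.sum_le_sum h1).trans ?_
        rw [Finset.sum_const, nsmul_eq_mul]
        have h2 : ((F.filter (fun p => p < q)).card : ℝ) ≤ k := by
          rw [hkd]
          exact_mod_cast Finset.card_le_card (Finset.filter_subset _ _)
        exact mul_le_mul_of_nonneg_right h2 (by positivity)
      refine (Finset.sum_le_sum inner).trans ?_
      rw [Finset.sum_const, nsmul_eq_mul, ← hkd]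
      have h3 : (k : ℝ) * (k * (4 * x * Real.log b /
          (Real.log ((2 * x : ℕ) : ℝ) * ((2 * x : ℕ) : ℝ)))) =
          (k : ℝ) ^ 2 / Real.log ((2 * x : ℕ) : ℝ) * (2 * Real.log b) := by
        have : ((2 * x : ℕ) : ℝ) = 2 * x := by push_cast; rfl
        generalize Real.log ((2 * x : ℕ) : ℝ) = w at hl2x0 ⊢
        rw [this]
        field_simp
        ring
      rw [h3, hk2, div_mul_eq_mul_div, div_le_one hl2x0]
      have h4 : (((2 : ℕ) : ℝ)) ^ 2 = 4 := by norm_num
      rw [h4]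
      linarith)
  rw [hAcard]
  refine hmain.trans ?_
  have hbk : Real.exp 1 ≤ (2 : ℝ) ^ 2 := by
    have := Real.exp_one_lt_d9
    norm_num
    linarith
  have hfrac : (k : ℝ) * Real.log ((2 * x : ℕ) : ℝ) / Real.log ((b ^ e : ℕ) : ℝ) ≤
      32 / Real.log b * k * (Real.log x / x) := by
    rw [hlN, div_le_iff₀ (by nlinarith)]
    have h1 : 32 / Real.log b * k * (Real.log x / x) * (e * Real.log b) =
        k * (2 * Real.log x) * (16 * e / x) := by
      field_simp
      ring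
    rw [h1]
    have h2 : 1 ≤ 16 * (e : ℝ) / x := by
      rw [le_div_iff₀ (by linarith)]
      linarith
    calc (k : ℝ) * Real.log ((2 * x : ℕ) : ℝ) ≤ k * (2 * Real.log x) * 1 := by
          rw [mul_one]
          gcongr
      _ ≤ k * (2 * Real.log x) * (16 * e / x) := by gcongr
  have hfr0 : 0 ≤ (k : ℝ) * Real.log ((2 * x : ℕ) : ℝ) / Real.log ((b ^ e : ℕ) : ℝ) := by
    rw [hlN]
    positivity
  rw [hk2] at hfrac hfr0 ⊢
  calc D ^ 2 * Real.exp 1 *
        (((2 : ℕ) : ℝ) * Real.log ((2 * x : ℕ) : ℝ) / Real.log ((b ^ e : ℕ) : ℝ)) ^ 2 * ((b ^ e : ℕ) : ℝ)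
      ≤ D ^ 2 * (2 : ℝ) ^ 2 * (32 / Real.log b * ((2 : ℕ) : ℝ) * (Real.log x / x)) ^ 2 *
          ((b ^ e : ℕ) : ℝ) := by
        gcongr
    _ = (128 * D / Real.log b * (Real.log x / x)) ^ 2 * (b : ℝ) ^ e := by
        push_cast
        ring

/-- the sieve bound, for one base -/
def TUAb (C : ℝ) (b : ℕ) : Prop := ∃ P : ℕ, ∀ x ≥ P, ∀ F : Finset ℕ,
  (∀ p ∈ F, x < p ∧ p ≤ 2 * x) → F.card = 2 → ∀ p1 ∈ F, (∀ p ∈ F, p1 ≤ p) →
  ∀ z : ℕ, 64 * z ≤ x → ∀ e : ℕ → ℤ,
  (∀ p ∈ F, |e p| < (b : ℤ) ^ (p + 1) ∧ -(b : ℤ) ^ (p - z) ≤ 2 * e p) →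
  (∀ p ∈ F, ∀ q ∈ F, p < q → e q ≠ (b : ℤ) ^ (q - p) * e p) → ∀ j : ℕ, 1 ≤ j →
  (((cell b z p1 j).filter (fun m : ℕ => ∀ p ∈ F,
    (roughPart p ((b : ℤ) ^ (p - p1) * (m : ℤ) + e p).toNat).Prime ∧
    ((((b : ℤ) ^ (p - p1) * (m : ℤ) + e p).toNat / roughPart p ((b : ℤ) ^ (p - p1) * (m : ℤ) + e p).toNat : ℕ) : ℝ) <
      Real.exp (x * Real.log b / 8))).card : ℝ) ≤
    (C / Real.log b * (Real.log x / x)) ^ 2 * (b : ℝ) ^ (p1 - z)

theorem tuaU (h : Pool.Agent.N136.OW.S_SV2) : ∃ C : ℝ, 0 < C ∧ ∀ b : ℕ, 2 ≤ b → TUAb C b := by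
  classical
  obtain ⟨C, hC, hSV'⟩ := h
  obtain ⟨D, hD, hSV⟩ := hSV' C le_rfl
  refine ⟨128 * D, by positivity, fun b hb => ?_⟩
  have hbR : (2 : ℝ) ≤ b := by exact_mod_cast hb
  have hlb : 0 < Real.log b := Real.log_pos (by linarith)
  have hlbb : Real.log b ≤ b := (Real.log_le_sub_one_of_pos (by linarith)).trans (by linarith)
  -- the logarithm is small
  have h1 : (fun x : ℝ => Real.log x ^ 2) =o[Filter.atTop] fun x : ℝ => x :=
    Real.isLittleO_pow_log_id_atTop
  have h2 := h1.bound (c := Real.log b / (32 * C)) (by positivity)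
  obtain ⟨x1, hx1⟩ := Filter.eventually_atTop.1 ((tendsto_natCast_atTop_atTop (R := ℝ)).eventually h2)
  obtain ⟨x2, hx2⟩ := Filter.eventually_atTop.1
    (Pool.Agent.H305R2.log_nat_tendsto.eventually_ge_atTop (8 * Real.log b + 4))
  refine ⟨max (x1 + b + 16) x2, fun x hx F hF hk p1 hp1 hmin z hz o ho hnd j hj => ?_⟩
  have hx' : x1 + b + 16 ≤ x := (le_max_left _ _).trans hx
  have hx2' := hx2 x ((le_max_right _ _).trans hx)
  have hxl : 2 * C * Real.log x ^ 2 ≤ x * Real.log b / 16 := by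
    have h3 := hx1 x (by omega)
    rw [Real.norm_eq_abs, Real.norm_eq_abs, abs_of_nonneg (by positivity : 0 ≤ Real.log (x : ℝ) ^ 2),
      abs_of_nonneg (Nat.cast_nonneg (α := ℝ) x)] at h3
    calc 2 * C * Real.log x ^ 2 ≤ 2 * C * (Real.log b / (32 * C) * x) := by gcongr
      _ = x * Real.log b / 16 := by
        field_simp
        ring
  obtain ⟨W, hW⟩ : ∃ W, W = p1 - z := ⟨_, rfl⟩
  obtain ⟨e, he⟩ : ∃ e, e = W / 8 := ⟨_, rfl⟩
  have heW : e ≤ W := by omega
  have hbe : 0 < b ^ e := by positivity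
  obtain ⟨bd, hbd⟩ : ∃ bd, bd = (128 * D / Real.log b * (Real.log x / x)) ^ 2 :=
    ⟨_, rfl⟩
  have hsub : ∀ i : ℕ, (((Ico (j * b ^ W + i * b ^ e) (j * b ^ W + i * b ^ e + b ^ e)).filter
      (Gd F b p1 x o)).card : ℝ) ≤ bd * (b : ℝ) ^ e := by
    intro i
    have h3 := sub hb hC hD hSV (by omega : b + 16 ≤ x) hxl (by linarith) hF hk (by linarith) hp1 hmin hz ho hnd
      (s := j * b ^ W + i * b ^ e) (by
        rw [← hW]
        calc b ^ W = 1 * b ^ W := (one_mul _).symm
          _ ≤ j * b ^ W := Nat.mul_le_mul_right _ hj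
          _ ≤ _ := Nat.le_add_right _ _)
    rw [← hW, ← he, ← hbd] at h3
    exact h3
  have hcov : (cell b z p1 j).filter (Gd F b p1 x o) ⊆ (range (b ^ (W - e))).biUnion (fun i =>
      (Ico (j * b ^ W + i * b ^ e) (j * b ^ W + i * b ^ e + b ^ e)).filter (Gd F b p1 x o)) := by
    intro m hm
    unfold cell at hm
    rw [mem_filter, mem_Ico, ← hW] at hm
    rw [mem_biUnion]
    have h3 : b ^ W = b ^ (W - e) * b ^ e := by
      rw [← pow_add]
      congr 1
      omega
    have h4 : m - j * b ^ W < b ^ (W - e) * b ^ e := by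
      have : (j + 1) * b ^ W = j * b ^ W + b ^ W := by ring
      rw [← h3]
      omega
    refine ⟨(m - j * b ^ W) / b ^ e, ?_, ?_⟩
    · rw [mem_range]
      exact (Nat.div_lt_iff_lt_mul hbe).2 h4
    · rw [mem_filter, mem_Ico]
      refine ⟨?_, hm.2⟩
      have h5 := Nat.div_add_mod (m - j * b ^ W) (b ^ e)
      have h6 := Nat.mod_lt (m - j * b ^ W) hbe
      have h7 : (m - j * b ^ W) / b ^ e * b ^ e = b ^ e * ((m - j * b ^ W) / b ^ e) := mul_comm _ _
      rw [h7]
      have h8 := hm.1.1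
      generalize b ^ e * ((m - j * b ^ W) / b ^ e) = v at h5 ⊢
      generalize (m - j * b ^ W) % b ^ e = v' at h5 h6
      generalize j * b ^ W = u at h5 h8 ⊢
      generalize b ^ e = B at h6 ⊢
      omega
  have hfin : (((cell b z p1 j).filter (Gd F b p1 x o)).card : ℝ) ≤ bd * (b : ℝ) ^ W := by
    calc (((cell b z p1 j).filter (Gd F b p1 x o)).card : ℝ)
        ≤ ((∑ i ∈ range (b ^ (W - e)),
          ((Ico (j * b ^ W + i * b ^ e) (j * b ^ W + i * b ^ e + b ^ e)).filter
            (Gd F b p1 x o)).card : ℕ) : ℝ) := by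
          exact_mod_cast (Finset.card_le_card hcov).trans Finset.card_biUnion_le
      _ ≤ ∑ _i ∈ range (b ^ (W - e)), bd * (b : ℝ) ^ e := by
          rw [Nat.cast_sum]
          exact Finset.sum_le_sum fun i _ => hsub i
      _ = bd * (b : ℝ) ^ W := by
          rw [Finset.sum_const, Finset.card_range, nsmul_eq_mul]
          push_cast
          have : (b : ℝ) ^ W = (b : ℝ) ^ (W - e) * (b : ℝ) ^ e := by
            rw [← pow_add]
            congr 1
            omega
          rw [this]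
          ring
  rw [hbd, hW] at hfin
  refine le_trans (le_of_eq ?_) hfin
  congr 2
  ext m
  rw [mem_filter, mem_filter]
  rfl


/-- the sieve bound for two exponents and fixed last digits -/
theorem tuU : ∃ C : ℝ, 0 < C ∧ ∀ (b A : ℕ) (c : ℕ → ℤ), Ok b A c → ∃ P : ℕ, ∀ x ≥ P,
  ∀ F : Finset ℕ,
  (∀ p ∈ F, x < p ∧ p ≤ 2 * x) → F.card = 2 → ∀ p1 ∈ F, (∀ p ∈ F, p1 ≤ p) →
  ∀ z : ℕ, A * z ≤ x → ∀ t : ℕ, 2 * x ≤ t → ∀ r < b ^ (t - p1),
  (∀ p ∈ F, ∀ q ∈ F, p < q → ¬ Deg c b t p q r) → ∀ j : ℕ, 1 ≤ j →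
  (((cell b z p1 j).filter (fun m => ∀ p ∈ F,
    (roughPart p (sh c p ((b ^ (t - p1) * m + r) / b ^ (t - p)))).Prime ∧
    ((sh c p ((b ^ (t - p1) * m + r) / b ^ (t - p)) /
      roughPart p (sh c p ((b ^ (t - p1) * m + r) / b ^ (t - p))) : ℕ) : ℝ) <
      Real.exp (x * Real.log b / 8))).card : ℝ) ≤
    (C / Real.log b * (Real.log x / x)) ^ 2 * (b : ℝ) ^ (p1 - z) := by
  obtain ⟨C, hC, h⟩ := tuaU (Pool.Agent.N136.OW.sv2 Pool.Agent.N75.OW.sg)
  refine ⟨C, hC, fun b A c hok => ?_⟩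
  have hb := hok.hb
  have hA64 := hok.hA
  obtain ⟨P, hP⟩ := h b hb
  refine ⟨max P A, fun x hx F hF hk p1 hp1 hmin z hz t ht r hr hnd j hj => ?_⟩
  have hxP : P ≤ x := (le_max_left _ _).trans hx
  have hxA : A ≤ x := (le_max_right _ _).trans hx
  have hbZ : (2 : ℤ) ≤ b := by exact_mod_cast hb
  have h64 : 64 * z ≤ x := (Nat.mul_le_mul_right z hA64).trans hz
  have key := hP x hxP F hF hk p1 hp1 hmin z h64
    (fun p => ((r / b ^ (t - p) : ℕ) : ℤ) + c p) ?_ ?_ j hj
  · refine le_trans (le_of_eq ?_) key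
    congr 2
    apply Finset.filter_congr
    intro m _
    have e : ∀ p ∈ F, sh c p ((b ^ (t - p1) * m + r) / b ^ (t - p)) =
        ((b : ℤ) ^ (p - p1) * (m : ℤ) + (((r / b ^ (t - p) : ℕ) : ℤ) + c p)).toNat := by
      intro p hp
      have h1 := hmin p hp
      have h2 := hF p hp
      rw [Lp h1 (by omega) (by omega)]
      unfold sh
      congr 1
      push_cast
      ring
    constructor
    · intro h1 p hp
      have h2 := h1 p hp
      rw [e p hp] at h2
      exact h2
    · intro h1 p hp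
      rw [e p hp]
      exact h1 p hp
  · intro p hp
    have h2 := hF p hp
    have h3 := hmin p hp
    obtain ⟨h4, h5⟩ := c_le hok (z := z) (p := p) (by omega) (by omega)
    have h6 : r / b ^ (t - p) < b ^ (p - p1) := by
      rw [Nat.div_lt_iff_lt_mul (by positivity), ← pow_add]
      have : p - p1 + (t - p) = t - p1 := by omega
      rw [this]
      exact hr
    have h7 : ((r / b ^ (t - p) : ℕ) : ℤ) < (b : ℤ) ^ p := by
      have h8 : r / b ^ (t - p) < b ^ p :=
        h6.trans_le (Nat.pow_le_pow_right (by omega) (by omega))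
      exact_mod_cast h8
    have h8 : (0 : ℤ) ≤ ((r / b ^ (t - p) : ℕ) : ℤ) := Nat.cast_nonneg _
    have h9 : (b : ℤ) ^ (p - (2 * z + 1)) ≤ (b : ℤ) ^ p :=
      pow_le_pow_right₀ (by omega) (by omega)
    have h10 : 2 * (b : ℤ) ^ (p - (2 * z + 1)) ≤ (b : ℤ) ^ (p - z) := by
      calc 2 * (b : ℤ) ^ (p - (2 * z + 1)) ≤ b * (b : ℤ) ^ (p - (2 * z + 1)) :=
            mul_le_mul_of_nonneg_right hbZ (by positivity)
        _ = (b : ℤ) ^ (p - (2 * z + 1) + 1) := by rw [pow_succ, mul_comm]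
        _ ≤ (b : ℤ) ^ (p - z) := pow_le_pow_right₀ (by omega) (by omega)
    have h11 : 2 * (b : ℤ) ^ p ≤ (b : ℤ) ^ (p + 1) := by
      rw [pow_succ, mul_comm]
      exact mul_le_mul_of_nonneg_left hbZ (by positivity)
    have h12 := abs_le.1 h5
    generalize ((r / b ^ (t - p) : ℕ) : ℤ) = R at *
    generalize (b : ℤ) ^ (p - (2 * z + 1)) = u at *
    generalize (b : ℤ) ^ (p - z) = v at *
    generalize (b : ℤ) ^ (p + 1) = w at *
    generalize (b : ℤ) ^ p = y at *
    constructor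
    · rw [abs_lt]
      constructor <;> omega
    · omega
  · intro p hp q hq hpq heq
    exact hnd p hp q hq hpq heq

end Run7.h854.LB
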