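import Mathlib
import Pool.Agent.Run7.h854.PO.Up

set_option autoImplicit false

/-!
# Integers with prime rough part in short intervals: an upper bound with an explicit dependence on
the length
-/

namespace Run7.h854.LB

open Finset Filter Topology
open Pool.Agent.H305R2 (roughPart roughPart_prime roughPart_mul SM SM_pos SMz mem_SMz VV ZZ VV_nonneg
  ZZ_nonneg ZZ_le_exp sum_le_VV sum_rough_eq log_nat_tendsto count_inner tail_le)
open Pool.Agent.W66 (VV_le_log)
open Run7.h854.PO

/-- the upper bound in all intervals of length at least `exp (c0 q)` -/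
theorem short_upU : ∃ C : ℝ, 0 < C ∧ ∀ c0 : ℝ, 0 < c0 → ∃ P : ℕ, ∀ q ≥ P, ∀ H : ℕ,
    Real.exp (c0 * q) ≤ H → ∀ u : ℕ,
    (((Ico u (u + H)).filter (fun n => (roughPart q n).Prime)).card : ℝ) ≤
      C / c0 * (Real.log q / q) * H := by
  classical
  obtain ⟨C0, hC01, hBT⟩ := Pool.Agent.Helper601.brun_titchmarsh
  obtain ⟨C1, hC1, hV⟩ := VV_le_log
  refine ⟨4 * C0 * C1 + 1, by positivity, fun c0 hc0 => ?_⟩
  have hlim : Tendsto (fun q : ℕ => Real.log q / q) atTop (𝓝 0) := by
    have h1 := (Real.isLittleO_pow_log_id_atTop (n := 1)).tendsto_div_nhds_zero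
    have h2 := h1.comp tendsto_natCast_atTop_atTop
    refine h2.congr fun q => ?_
    simp
  obtain ⟨P, hP⟩ := (((ZZ_le_exp (c := c0 / 8) (by positivity))).and (hV.and
    ((Pool.Agent.N176.GP.grow (c0 / 4) 4 (by positivity)).and
    ((log_nat_tendsto.eventually_ge_atTop 1).and ((Pool.Agent.W66.exp_small (c := c0 / 8) (by positivity)).and
      ((eventually_ge_atTop 2).and (hlim.eventually_le_const (show 0 < 1 / (2 * c0) by positivity)))))))).exists_forall_of_atTop
  refine ⟨P, fun q hq H hH => ?_⟩
  obtain ⟨hZ, hVq, hg, hlog1, hsm, hq2, hqs⟩ := hP q hq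
  have hq2r : (2 : ℝ) ≤ q := by exact_mod_cast hq2
  have hq0 : (0 : ℝ) < q := by linarith
  have hH0 : (0 : ℝ) < H := (Real.exp_pos _).trans_le hH
  have hlq : 0 < Real.log q := by linarith
  -- the case u ≥ 1
  have key : ∀ u : ℕ, 1 ≤ u → (((Ico u (u + H)).filter (fun n => (roughPart q n).Prime)).card : ℝ) ≤
      (4 * C0 * C1 + 1) / c0 * (Real.log q / q) * H := by
    intro u hu
    set S := Real.exp (Real.log H / 2) with hS
    have hS0 : 0 < S := Real.exp_pos _
    have hSS : S * S = H := by
      rw [hS, ← Real.exp_add, add_halves, Real.exp_log hH0]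
    have hlogH : c0 * q ≤ Real.log H := by
      rw [← Real.log_exp (c0 * q)]
      exact Real.log_le_log (Real.exp_pos _) hH
    have hSge : Real.exp (c0 / 2 * q) ≤ S := by
      rw [hS, Real.exp_le_exp]; linarith
    have hS1 : 1 ≤ S := le_trans (Real.one_le_exp (by positivity)) hSge
    have hqS : ((q + 1 : ℕ) : ℝ) ≤ S := by
      push_cast
      have h1 : Real.exp (c0 / 4 * q) ≤ Real.exp (c0 / 2 * q) := by
        rw [Real.exp_le_exp]; nlinarith
      nlinarith
    set A := u with hA
    set B := A + H - 1 with hB
    have hHpos : 0 < H := by exact_mod_cast hH0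
    have e : Ico u (u + H) = Ioc (A - 1) B := by
      ext x
      rw [mem_Ico, mem_Ioc]
      omega
    have hdiv : ∀ s r : ℕ, s ∈ SM q → r.Prime → q < r → s * r / roughPart q (s * r) = s := by
      intro s r hs hr hqr
      rw [roughPart_mul hs hr hqr, Nat.mul_div_cancel _ hr.pos]
    -- the part with a small smooth factor
    have h1 : (((Ioc (A - 1) B).filter (fun n => (roughPart q n).Prime ∧
        ((n / roughPart q n : ℕ) : ℝ) < S)).card : ℝ) ≤ 4 * C0 * H / (c0 * q) * VV q := by
      have h2 : (((Ioc (A - 1) B).filter (fun n => (roughPart q n).Prime ∧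
        ((n / roughPart q n : ℕ) : ℝ) < S)).card : ℝ) =
          ∑ m ∈ (Ioc (A - 1) B).filter (fun m => (roughPart q m).Prime),
            (if ((m / roughPart q m : ℕ) : ℝ) < S then (1 : ℝ) else 0) := by
        rw [← Finset.sum_filter, Finset.filter_filter, Finset.sum_const, nsmul_eq_mul, mul_one]
      rw [h2, sum_rough_eq]
      calc _ ≤ ∑ s ∈ (SMz q (B : ℝ)).filter (fun s : ℕ => (s : ℝ) < S), 4 * C0 * H / (c0 * q) * (s : ℝ)⁻¹ := by
            rw [Finset.sum_filter]
            refine Finset.sum_le_sum fun s hs => ?_
            have hs' := (mem_SMz (Nat.cast_nonneg _)).1 hs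
            have hsn := SM_pos hs'.1
            have hs0 : (0 : ℝ) < s := by exact_mod_cast hsn
            have h3 : ∀ r ∈ (Ioc ((A - 1) / s) (B / s)).filter (fun r => r.Prime ∧ q < r),
                (if ((s * r / roughPart q (s * r) : ℕ) : ℝ) < S then (1 : ℝ) else 0) =
                if (s : ℝ) < S then (1 : ℝ) else 0 := by
              intro r hr
              rw [mem_filter] at hr
              rw [hdiv s r hs'.1 hr.2.1 hr.2.2]
            rw [Finset.sum_congr rfl h3]
            split_ifs with hsS
            · rw [Finset.sum_const, nsmul_eq_mul, mul_one]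
              have hD : B - (A - 1) = H := by omega
              obtain ⟨_, hc2⟩ := count_inner hBT q (A - 1) B s hsn (by omega)
              rw [hD] at hc2
              have hHs : S ≤ (H : ℝ) / s := by
                rw [le_div_iff₀ hs0, ← hSS]
                exact mul_le_mul_of_nonneg_left hsS.le hS0.le
              have hHs1 : 1 ≤ H / s := by
                rw [Nat.one_le_div_iff hsn]
                have : (1 : ℝ) ≤ (H : ℝ) / s := hS1.trans hHs
                rw [le_div_iff₀ hs0, one_mul] at this
                exact_mod_cast this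
              refine (hc2 (by omega)).trans ?_
              have hup : ((H / s + 1 : ℕ) : ℝ) ≤ 2 * (H / s) := by
                push_cast
                have := @Nat.cast_div_le ℝ _ _ _ H s
                have : (1 : ℝ) ≤ (H : ℝ) / s := hS1.trans hHs
                linarith
              have hlow : S ≤ ((H / s + 1 : ℕ) : ℝ) := by
                have h5 : (H : ℝ) / s < ((H / s : ℕ) : ℝ) + 1 := by
                  rw [div_lt_iff₀ hs0]
                  have := Nat.lt_mul_div_succ H hsn
                  have h6 : (H : ℝ) < ((s * (H / s + 1) : ℕ) : ℝ) := by exact_mod_cast this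
                  push_cast at h6
                  linarith
                push_cast
                linarith
              have hlog : c0 * q / 2 ≤ Real.log ((H / s + 1 : ℕ) : ℝ) := by
                calc c0 * q / 2 = Real.log (Real.exp (c0 / 2 * q)) := by rw [Real.log_exp]; ring
                  _ ≤ Real.log S := Real.log_le_log (Real.exp_pos _) hSge
                  _ ≤ _ := Real.log_le_log hS0 hlow
              have hpL : 0 < c0 * q / 2 := by positivity
              calc C0 * ((H / s + 1 : ℕ) : ℝ) / Real.log ((H / s + 1 : ℕ) : ℝ) ≤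
                  C0 * (2 * (H / s)) / (c0 * q / 2) := by
                    gcongr
                _ = _ := by field_simp; ring
            · simp
        _ = 4 * C0 * H / (c0 * q) * ∑ s ∈ (SMz q (B : ℝ)).filter (fun s : ℕ => (s : ℝ) < S), (s : ℝ)⁻¹ := by
            rw [Finset.mul_sum]
        _ ≤ _ := by
            refine mul_le_mul_of_nonneg_left ?_ (by positivity)
            refine sum_le_VV q _ fun s hs => ?_
            rw [mem_filter, mem_SMz (Nat.cast_nonneg _)] at hs
            exact hs.1.1
    have h2 : (((Ioc (A - 1) B).filter (fun n => (roughPart q n).Prime ∧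
        S ≤ ((n / roughPart q n : ℕ) : ℝ))).card : ℝ) ≤ 2 * H * (Real.log q / q) ^ 2 := by
      rw [← e]
      refine (large_smooth_short q u H hu hS1 ?_).trans ?_
      · calc S * ((q + 1 : ℕ) : ℝ) ≤ S * S := mul_le_mul_of_nonneg_left hqS hS0.le
          _ = H := hSS
      · refine mul_le_mul_of_nonneg_left ?_ (by positivity)
        have h3 : S ^ (-(1 / 2) : ℝ) ≤ Real.exp (-(c0 / 4 * q)) := by
          calc S ^ (-(1 / 2) : ℝ) ≤ (Real.exp (c0 / 2 * q)) ^ (-(1 / 2) : ℝ) :=
                Real.rpow_le_rpow_of_nonpos (Real.exp_pos _) hSge (by norm_num)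
            _ = Real.exp (-(c0 / 4 * q)) := by
                rw [← Real.exp_mul]
                congr 1
                ring
        calc S ^ (-(1 / 2) : ℝ) * ZZ q ≤ Real.exp (-(c0 / 4 * q)) * Real.exp (c0 / 8 * q) :=
              mul_le_mul h3 hZ (ZZ_nonneg q) (Real.exp_pos _).le
          _ = Real.exp (-(c0 / 8 * q)) := by rw [← Real.exp_add]; congr 1; ring
          _ ≤ _ := hsm
    have h3 : (((Ioc (A - 1) B).filter (fun n => (roughPart q n).Prime)).card : ℝ) ≤
        4 * C0 * H / (c0 * q) * VV q + 2 * H * (Real.log q / q) ^ 2 := by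
      have hsub : (Ioc (A - 1) B).filter (fun n => (roughPart q n).Prime) ⊆
          (Ioc (A - 1) B).filter (fun n => (roughPart q n).Prime ∧ ((n / roughPart q n : ℕ) : ℝ) < S) ∪
          (Ioc (A - 1) B).filter (fun n => (roughPart q n).Prime ∧ S ≤ ((n / roughPart q n : ℕ) : ℝ)) := by
        intro n hn
        rw [mem_filter] at hn
        rw [mem_union, mem_filter, mem_filter]
        rcases lt_or_ge ((n / roughPart q n : ℕ) : ℝ) S with h | h
        · left; exact ⟨hn.1, hn.2, h⟩
        · right; exact ⟨hn.1, hn.2, h⟩
      have h4 := (Finset.card_le_card hsub).trans (Finset.card_union_le _ _)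
      have h5 : (((Ioc (A - 1) B).filter (fun n => (roughPart q n).Prime)).card : ℝ) ≤
          (((Ioc (A - 1) B).filter (fun n => (roughPart q n).Prime ∧
            ((n / roughPart q n : ℕ) : ℝ) < S)).card : ℝ) +
          (((Ioc (A - 1) B).filter (fun n => (roughPart q n).Prime ∧
            S ≤ ((n / roughPart q n : ℕ) : ℝ))).card : ℝ) := by exact_mod_cast h4
      linarith
    have hqq0 : 0 ≤ Real.log q / q := by positivity
    rw [e]
    calc _ ≤ 4 * C0 * H / (c0 * q) * VV q + 2 * H * (Real.log q / q) ^ 2 := h3
      _ ≤ 4 * C0 * H / (c0 * q) * (C1 * Real.log q) + 2 * H * (1 / (2 * c0) * (Real.log q / q)) := by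
          have h6 : (Real.log q / q) ^ 2 ≤ 1 / (2 * c0) * (Real.log q / q) := by
            rw [sq]
            exact mul_le_mul_of_nonneg_right hqs hqq0
          gcongr
      _ = _ := by field_simp
  intro u
  rcases Nat.eq_zero_or_pos u with hu | hu
  · refine le_trans ?_ (key 1 le_rfl)
    have hsub : (Ico u (u + H)).filter (fun n => (roughPart q n).Prime) ⊆
        (Ico 1 (1 + H)).filter (fun n => (roughPart q n).Prime) := by
      intro n hn
      rw [mem_filter, mem_Ico] at hn ⊢
      have hn0 : n ≠ 0 := by
        rintro rfl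
        have := hn.2
        unfold roughPart at this
        simp [Nat.not_prime_one] at this
      exact ⟨by omega, hn.2⟩
    exact_mod_cast Finset.card_le_card hsub
  · exact key u hu

end Run7.h854.LB
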