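import Mathlib
import Pool.Agent.Run7.h854.PO.Mean
import Pool.Agent.Run7.h854.PO.All
import Pool.Agent.Run7.h854.LB.Up
import Pool.Agent.Run7.h854.LB.Sieve

set_option autoImplicit false

/-!
# Upper bounds for one exponent and for two exponents, given the first digits, with an explicit
dependence on the base
-/

namespace Run7.h854.LB

open Finset Filter Topology
open Pool.Agent.H305R2 (roughPart log_nat_tendsto)
open Pool.Agent.N176.OW (cell kap)
open Pool.Agent.N176.GP (sum_cells sum_div)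
open Pool.Agent.N176.SH
open Run7.h854.PO

/-- exponentials are small -/
lemma exp_smallU {d η : ℝ} (hd : 0 < d) (hη : 0 < η) :
    ∀ᶠ x : ℕ in atTop, Real.exp (-(d * x)) ≤ η ^ 2 * (Real.log x / x) ^ 2 := by
  have h1 : Tendsto (fun x : ℕ => Real.exp (-(d / 2 * x))) atTop (𝓝 0) := by
    refine Real.tendsto_exp_atBot.comp (tendsto_neg_atTop_atBot.comp ?_)
    exact tendsto_natCast_atTop_atTop.const_mul_atTop (by positivity)
  filter_upwards [Pool.Agent.W66.exp_small (c := d / 2) (by positivity),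
    h1.eventually_le_const (show 0 < η ^ 2 by positivity)] with x h2 h3
  have e : Real.exp (-(d * x)) = Real.exp (-(d / 2 * x)) * Real.exp (-(d / 2 * x)) := by
    rw [← Real.exp_add]
    congr 1
    ring
  rw [e]
  exact mul_le_mul h3 h2 (Real.exp_pos _).le (by positivity)

/-- one exponent, in all cells of level up to `2 q / 3` -/
theorem cnt_upU : ∃ C : ℝ, 0 < C ∧ ∀ b : ℕ, 2 ≤ b → ∀ c : ℕ → ℤ, ∃ P : ℕ, ∀ q ≥ P, ∀ z : ℕ,
    3 * z ≤ 2 * q → ∀ j : ℕ,
    (cnt c b z j q : ℝ) ≤ C / Real.log b * (Real.log q / q) * (b : ℝ) ^ (q - z) := by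
  classical
  obtain ⟨C, hC, hU⟩ := short_upU
  refine ⟨3 * C, by positivity, fun b hb c => ?_⟩
  have hL0 : 0 < Real.log b := Real.log_pos (by exact_mod_cast hb)
  obtain ⟨P, hP⟩ := hU (Real.log b / 3) (by positivity)
  refine ⟨P, fun q hq z hz j => ?_⟩
  have hH : Real.exp (Real.log b / 3 * q) ≤ ((b ^ (q - z) : ℕ) : ℝ) := by
    push_cast
    rw [Pool.Agent.N176.GP.bexp hb, Real.exp_le_exp]
    have h1 : ((q - z : ℕ) : ℝ) = (q : ℝ) - z := by
      rw [Nat.cast_sub (by omega)]
    rw [h1]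
    have h2 : (3 : ℝ) * z ≤ 2 * q := by exact_mod_cast hz
    nlinarith
  have h3 := hP q hq (b ^ (q - z)) hH ((((j * b ^ (q - z) : ℕ) : ℤ) + c q).toNat)
  push_cast at h3
  have e0 : C / (Real.log b / 3) = 3 * C / Real.log b := by field_simp
  rw [e0] at h3
  refine le_trans ?_ h3
  unfold cnt
  have e1 : (j + 1) * b ^ (q - z) = j * b ^ (q - z) + b ^ (q - z) := by ring
  rw [e1]
  set a := j * b ^ (q - z)
  set H := b ^ (q - z)
  have hcard : ((Ico a (a + H)).filter (fun m => (roughPart q (sh c q m)).Prime)).card ≤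
      ((Ico (((a : ℤ) + c q).toNat) (((a : ℤ) + c q).toNat + H)).filter
        (fun n => (roughPart q n).Prime)).card := by
    refine Finset.card_le_card_of_injOn (fun m => sh c q m) ?_ ?_
    · intro m hm
      rw [mem_coe, mem_filter, mem_Ico] at hm
      rw [mem_coe, mem_filter, mem_Ico]
      refine ⟨?_, hm.2⟩
      change _ ≤ sh c q m ∧ sh c q m < _
      have h0 : sh c q m ≠ 0 := by
        intro h0
        have := hm.2
        rw [h0] at this
        unfold roughPart at this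
        simp [Nat.not_prime_one] at this
      unfold sh at h0 ⊢
      omega
    · intro m hm m' hm' he
      rw [mem_coe, mem_filter, mem_Ico] at hm hm'
      have h0 : sh c q m ≠ 0 := by
        intro h0
        have := hm.2
        rw [h0] at this
        unfold roughPart at this
        simp [Nat.not_prime_one] at this
      simp only [sh] at he h0
      omega
  exact_mod_cast hcard

/-- the pairs of distant exponents -/
theorem pair_farU : ∃ C : ℝ, 0 < C ∧ ∀ b : ℕ, 2 ≤ b → ∀ c : ℕ → ℤ, ∃ P : ℕ, ∀ p ≥ P, ∀ q : ℕ,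
    2 * p ≤ q + 1 → ∀ z : ℕ, 3 * z ≤ 2 * p → ∀ j : ℕ, ∀ t : ℕ, q ≤ t →
    ∑ n ∈ cell b z t j, Y c p (n / b ^ (t - p)) * Y c q (n / b ^ (t - q)) ≤
      (C / Real.log b) ^ 2 * (Real.log p / p * (Real.log q / q)) * (b : ℝ) ^ (t - z) := by
  obtain ⟨C', hC', hU⟩ := cnt_upU
  refine ⟨C', hC', fun b hb c => ?_⟩
  obtain ⟨P, hP⟩ := hU b hb c
  have hL0 : 0 < Real.log b := Real.log_pos (by exact_mod_cast hb)
  obtain ⟨C, hCd⟩ : ∃ C, C = C' / Real.log b := ⟨_, rfl⟩
  have hC : 0 < C := by rw [hCd]; positivity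
  rw [← hCd] at hP ⊢
  refine ⟨max P 2, fun p hp q hq z hz j t ht => ?_⟩
  have hpP : P ≤ p := (le_max_left _ _).trans hp
  have hp2 : 2 ≤ p := (le_max_right _ _).trans hp
  have hzp : z ≤ p := by omega
  have hpq : p ≤ q := by omega
  have h1 : ∑ n ∈ cell b z t j, Y c p (n / b ^ (t - p)) * Y c q (n / b ^ (t - q)) =
      (b : ℝ) ^ (t - q) * ∑ m ∈ Ico (j * b ^ (p - z)) ((j + 1) * b ^ (p - z)),
        Y c p m * (cnt c b p m q : ℝ) := by
    have e1 : ∀ n ∈ cell b z t j, Y c p (n / b ^ (t - p)) * Y c q (n / b ^ (t - q)) =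
        (fun k => Y c p (k / b ^ (q - p)) * Y c q k) (n / b ^ (t - q)) := by
      intro n _
      simp only
      rw [div_div hpq ht]
    refine ((Finset.sum_congr rfl e1).trans (sum_level hb (hzp.trans hpq) ht
      (fun k => Y c p (k / b ^ (q - p)) * Y c q k))).trans ?_
    congr 1
    have e2 : b ^ (q - z) = b ^ (p - z) * b ^ (q - p) := by rw [← pow_add]; congr 1; omega
    rw [e2, ← mul_assoc, ← mul_assoc, sum_cells _ _ _ (Nat.mul_le_mul_right _ (Nat.le_succ j))]
    refine Finset.sum_congr rfl fun m _ => ?_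
    rw [cnt_eq_sum, Finset.mul_sum]
    have e3 : (m + 1) * b ^ (q - p) = m * b ^ (q - p) + b ^ (q - p) := by ring
    rw [e3, Finset.sum_Ico_eq_sum_range]
    have e4 : m * b ^ (q - p) + b ^ (q - p) - m * b ^ (q - p) = b ^ (q - p) := by omega
    rw [e4]
    refine Finset.sum_congr rfl fun r hr => ?_
    rw [mem_range] at hr
    have e5 : (m * b ^ (q - p) + r) / b ^ (q - p) = m := by
      rw [mul_comm, Nat.mul_add_div (by positivity), Nat.div_eq_of_lt hr, add_zero]
    rw [e5]
  rw [h1]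
  have hlp : 0 ≤ Real.log p / p := div_nonneg (Real.log_natCast_nonneg p) (Nat.cast_nonneg p)
  have hlq : 0 ≤ Real.log q / q := div_nonneg (Real.log_natCast_nonneg q) (Nat.cast_nonneg q)
  calc (b : ℝ) ^ (t - q) * ∑ m ∈ Ico (j * b ^ (p - z)) ((j + 1) * b ^ (p - z)),
        Y c p m * (cnt c b p m q : ℝ)
      ≤ (b : ℝ) ^ (t - q) * ∑ m ∈ Ico (j * b ^ (p - z)) ((j + 1) * b ^ (p - z)),
        Y c p m * (C * (Real.log q / q) * (b : ℝ) ^ (q - p)) := by
        refine mul_le_mul_of_nonneg_left (Finset.sum_le_sum fun m _ => ?_) (by positivity)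
        exact mul_le_mul_of_nonneg_left (hP q (hpP.trans hpq) p (by omega) m) (Y_nonneg _ _ _)
    _ = (b : ℝ) ^ (t - q) * ((cnt c b z j p : ℝ) * (C * (Real.log q / q) * (b : ℝ) ^ (q - p))) := by
        rw [cnt_eq_sum, Finset.sum_mul]
    _ ≤ (b : ℝ) ^ (t - q) * ((C * (Real.log p / p) * (b : ℝ) ^ (p - z)) *
        (C * (Real.log q / q) * (b : ℝ) ^ (q - p))) := by
        refine mul_le_mul_of_nonneg_left (mul_le_mul_of_nonneg_right (hP p hpP z hz j) ?_) (by positivity)
        positivity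
    _ = C ^ 2 * (Real.log p / p * (Real.log q / q)) *
        ((b : ℝ) ^ (t - q) * ((b : ℝ) ^ (p - z) * (b : ℝ) ^ (q - p))) := by ring
    _ = _ := by
        rw [← pow_add, ← pow_add]
        congr 2
        omega

/-- the pairs of close exponents -/
theorem pair_closeU : ∃ C : ℝ, 0 < C ∧ ∀ (b A : ℕ) (c : ℕ → ℤ), Ok b A c →
    ∃ P : ℕ, ∀ x ≥ P, ∀ p q : ℕ, x < p → p < q → q ≤ 2 * x → ∀ z : ℕ, A * z ≤ x →
    ∀ j : ℕ, 1 ≤ j → j ≤ b ^ (2 * z) → ∀ t : ℕ, 2 * x ≤ t →
    ∑ n ∈ cell b z t j, Y c p (n / b ^ (t - p)) * Y c q (n / b ^ (t - q)) ≤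
      ((C / Real.log b) ^ 2 * (Real.log x / x) ^ 2 +
        C / Real.log b * ((Real.log x / x) / (b : ℝ) ^ (q - p))) * (b : ℝ) ^ (t - z) := by
  classical
  obtain ⟨C1', hC1', hU1⟩ := tuU
  obtain ⟨C3', hC3', hU3⟩ := cnt_upU
  refine ⟨C1' + 1 + 2 * C3', by positivity, fun b A c hOk => ?_⟩
  have hb := hOk.hb
  have hL0 : 0 < Real.log b := Real.log_pos (by exact_mod_cast hb)
  have hA64 := hOk.hA
  have hb0 : (0 : ℝ) < b := by positivity
  obtain ⟨P1, hP1⟩ := hU1 b A c hOk
  obtain ⟨d, hd, P2, hP2⟩ := rb' b A c hOk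
  obtain ⟨P3, hP3⟩ := hU3 b hb c
  obtain ⟨C1, hC1d⟩ : ∃ C1, C1 = C1' / Real.log b := ⟨_, rfl⟩
  have hC1 : 0 < C1 := by rw [hC1d]; positivity
  obtain ⟨C3, hC3d⟩ : ∃ C3, C3 = C3' / Real.log b := ⟨_, rfl⟩
  have hC3 : 0 < C3 := by rw [hC3d]; positivity
  rw [← hC1d] at hP1
  rw [← hC3d] at hP3
  obtain ⟨P4, hP4⟩ := ((log_nat_tendsto.eventually_ge_atTop 4).and
    ((exp_smallU hd (show 0 < 1 / Real.log b by positivity)).and (eventually_ge_atTop 2))).exists_forall_of_atTop
  refine ⟨max (max P1 P2) (max P3 P4), ?_⟩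
  intro x hx p q hxp hpq hq2 z hz j hj1 hj2 t ht
  have hxP1 : P1 ≤ x := ((le_max_left _ _).trans (le_max_left _ _)).trans hx
  have hxP2 : P2 ≤ x := ((le_max_right _ _).trans (le_max_left _ _)).trans hx
  have hxP3 : P3 ≤ x := ((le_max_left _ _).trans (le_max_right _ _)).trans hx
  have hxP4 : P4 ≤ x := ((le_max_right _ _).trans (le_max_right _ _)).trans hx
  obtain ⟨hlog4, hsm, hx2⟩ := hP4 x hxP4
  have h64 : 64 * z ≤ x := (Nat.mul_le_mul_right z hA64).trans hz
  have hzp : z ≤ p := by omega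
  have hpt : p ≤ t := by omega
  have hqt : q ≤ t := by omega
  have hx0 : (0 : ℝ) < x := by exact_mod_cast (by omega : 0 < x)
  set F : Finset ℕ := {p, q} with hF
  have hFc : F.card = 2 := Finset.card_pair hpq.ne
  have hFm : ∀ s ∈ F, x < s ∧ s ≤ 2 * x := by
    intro s hs
    rw [hF, mem_insert, mem_singleton] at hs
    rcases hs with rfl | rfl <;> omega
  have hFk : ((F.card : ℕ) : ℝ) ^ 2 ≤ Real.log x := by
    rw [hFc]
    norm_num
    linarith
  have hpF : p ∈ F := by rw [hF]; exact mem_insert_self _ _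
  have hqF : q ∈ F := by rw [hF]; exact mem_insert_of_mem (mem_singleton_self _)
  have hmin : ∀ s ∈ F, p ≤ s := by
    intro s hs
    rw [hF, mem_insert, mem_singleton] at hs
    rcases hs with rfl | rfl <;> omega
  set S := Real.exp (x * Real.log b / 8) with hS
  -- the good event
  set G : ℕ → ℕ → Prop := fun r m => ∀ s ∈ F,
    (roughPart s (sh c s ((b ^ (t - p) * m + r) / b ^ (t - s)))).Prime ∧
    ((sh c s ((b ^ (t - p) * m + r) / b ^ (t - s)) /
      roughPart s (sh c s ((b ^ (t - p) * m + r) / b ^ (t - s))) : ℕ) : ℝ) < S with hG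
  set YY : ℕ → ℝ := fun n => Y c p (n / b ^ (t - p)) * Y c q (n / b ^ (t - q)) with hYY
  have hYY1 : ∀ n, YY n ≤ 1 := fun n =>
    mul_le_one₀ (Y_le_one _ _ _) (Y_nonneg _ _ _) (Y_le_one _ _ _)
  have hYY0 : ∀ n, 0 ≤ YY n := fun n => mul_nonneg (Y_nonneg _ _ _) (Y_nonneg _ _ _)
  -- pointwise bound
  have hpt1 : ∀ n, YY n ≤ (if Big c F b t x n then (1 : ℝ) else 0) +
      (if ¬ Big c F b t x n then YY n else 0) := by
    intro n
    by_cases h : Big c F b t x n
    · rw [if_pos h, if_neg (not_not_intro h), add_zero]; exact hYY1 n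
    · rw [if_neg h, if_pos h, zero_add]
  have hbig : ∑ n ∈ cell b z t j, (if Big c F b t x n then (1 : ℝ) else 0) ≤
      Real.exp (-(d * x)) * (b : ℝ) ^ (t - z) := by
    rw [← Finset.sum_filter, Finset.sum_const, nsmul_eq_mul, mul_one]
    exact hP2 x hxP2 F hFm z hz t ht j hj1 hj2
  -- the sum over the others
  have hsplit : ∑ n ∈ cell b z t j, (if ¬ Big c F b t x n then YY n else 0) =
      ∑ r ∈ range (b ^ (t - p)), ∑ m ∈ Ico (j * b ^ (p - z)) ((j + 1) * b ^ (p - z)),
        (if ¬ Big c F b t x (m * b ^ (t - p) + r) then YY (m * b ^ (t - p) + r) else 0) := by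
    unfold cell
    have e : b ^ (t - z) = b ^ (p - z) * b ^ (t - p) := by rw [← pow_add]; congr 1; omega
    rw [e, ← mul_assoc, ← mul_assoc, sum_cells _ _ _ (Nat.mul_le_mul_right _ (Nat.le_succ j)),
      Finset.sum_comm]
  have hnd : ∀ r ∈ range (b ^ (t - p)), ¬ Deg c b t p q r →
      ∑ m ∈ Ico (j * b ^ (p - z)) ((j + 1) * b ^ (p - z)),
        (if ¬ Big c F b t x (m * b ^ (t - p) + r) then YY (m * b ^ (t - p) + r) else 0) ≤
      (C1 * (Real.log x / x)) ^ 2 * (b : ℝ) ^ (p - z) := by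
    intro r hr hdeg
    rw [mem_range] at hr
    have h1 := hP1 x hxP1 F hFm hFc p hpF hmin z hz t ht r hr (by
      intro s hs s' hs' hss
      rw [hF, mem_insert, mem_singleton] at hs hs'
      rcases hs with rfl | rfl <;> rcases hs' with rfl | rfl
      · omega
      · exact hdeg
      · omega
      · omega) j hj1
    refine le_trans ?_ h1
    rw [Finset.card_filter]
    push_cast
    unfold cell
    refine Finset.sum_le_sum fun m _ => ?_
    by_cases hB : Big c F b t x (m * b ^ (t - p) + r)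
    · rw [if_neg (not_not_intro hB)]
      split_ifs <;> norm_num
    · rw [if_pos hB]
      by_cases hg : ∀ s ∈ F, (roughPart s (sh c s ((b ^ (t - p) * m + r) / b ^ (t - s)))).Prime
      · rw [if_pos]
        · exact hYY1 _
        · intro s hs
          refine ⟨hg s hs, ?_⟩
          by_contra hc
          push Not at hc
          apply hB
          refine ⟨s, hs, ?_, ?_⟩
          · rw [mul_comm m]; exact hg s hs
          · rw [mul_comm m]; exact hc
      · push Not at hg
        obtain ⟨s, hs, hs2⟩ := hg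
        have h0 : YY (m * b ^ (t - p) + r) = 0 := by
          simp only [hYY]
          rw [mul_comm m]
          rw [hF, mem_insert, mem_singleton] at hs
          rcases hs with rfl | rfl
          · unfold Y
            rw [if_neg hs2, zero_mul]
          · unfold Y
            rw [if_neg hs2, mul_zero]
        rw [h0]
        split_ifs <;> norm_num
  have hdg : ∀ r ∈ range (b ^ (t - p)),
      ∑ m ∈ Ico (j * b ^ (p - z)) ((j + 1) * b ^ (p - z)),
        (if ¬ Big c F b t x (m * b ^ (t - p) + r) then YY (m * b ^ (t - p) + r) else 0) ≤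
      C3 * (Real.log p / p) * (b : ℝ) ^ (p - z) := by
    intro r hr
    rw [mem_range] at hr
    refine le_trans ?_ (hP3 p (by omega) z (by omega) j)
    rw [cnt_eq_sum]
    refine Finset.sum_le_sum fun m _ => ?_
    have e5 : (m * b ^ (t - p) + r) / b ^ (t - p) = m := by
      rw [mul_comm, Nat.mul_add_div (by positivity), Nat.div_eq_of_lt hr, add_zero]
    have h6 : YY (m * b ^ (t - p) + r) ≤ Y c p m := by
      simp only [hYY]
      rw [e5]
      exact mul_le_of_le_one_right (Y_nonneg _ _ _) (Y_le_one _ _ _)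
    have h7 : 0 ≤ Y c p m := Y_nonneg _ _ _
    split_ifs <;> assumption
  have hdcard : (((range (b ^ (t - p))).filter (fun r => Deg c b t p q r)).card : ℝ) ≤
      (b : ℝ) ^ (t - q) := by
    set v : ℤ := (b : ℤ) ^ (q - p) * c p - c q with hv
    have hsub : (range (b ^ (t - p))).filter (fun r => Deg c b t p q r) ⊆
        Ico (v.toNat * b ^ (t - q)) (v.toNat * b ^ (t - q) + b ^ (t - q)) := by
      intro r hr
      rw [mem_filter, mem_range] at hr
      obtain ⟨hr1, hr2⟩ := hr
      unfold Deg at hr2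
      rw [Nat.div_eq_of_lt hr1] at hr2
      have h1 : ((r / b ^ (t - q) : ℕ) : ℤ) = v := by
        rw [hv]
        push_cast at hr2 ⊢
        linarith
      have h2 : r / b ^ (t - q) = v.toNat := by rw [← h1, Int.toNat_natCast]
      rw [mem_Ico, ← h2]
      have h3 : 0 < b ^ (t - q) := by positivity
      exact ⟨Nat.div_mul_le_self _ _, Nat.lt_div_mul_add h3⟩
    have h1 := Finset.card_le_card hsub
    rw [Nat.card_Ico, Nat.add_sub_cancel_left] at h1
    exact_mod_cast h1
  have hmain : ∑ n ∈ cell b z t j, (if ¬ Big c F b t x n then YY n else 0) ≤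
      (b : ℝ) ^ (t - p) * ((C1 * (Real.log x / x)) ^ 2 * (b : ℝ) ^ (p - z)) +
      (b : ℝ) ^ (t - q) * (C3 * (Real.log p / p) * (b : ℝ) ^ (p - z)) := by
    rw [hsplit, ← Finset.sum_filter_add_sum_filter_not (range (b ^ (t - p))) (fun r => ¬ Deg c b t p q r)]
    have hlp : 0 ≤ Real.log p / p := div_nonneg (Real.log_natCast_nonneg p) (Nat.cast_nonneg p)
    refine add_le_add ?_ ?_
    · calc _ ≤ ∑ r ∈ (range (b ^ (t - p))).filter (fun r => ¬ Deg c b t p q r),
            (C1 * (Real.log x / x)) ^ 2 * (b : ℝ) ^ (p - z) := by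
            refine Finset.sum_le_sum fun r hr => ?_
            rw [mem_filter] at hr
            exact hnd r hr.1 hr.2
        _ ≤ ∑ r ∈ range (b ^ (t - p)), (C1 * (Real.log x / x)) ^ 2 * (b : ℝ) ^ (p - z) :=
            Finset.sum_le_sum_of_subset_of_nonneg (filter_subset _ _) fun _ _ _ => by positivity
        _ = _ := by rw [Finset.sum_const, card_range, nsmul_eq_mul]; push_cast; rfl
    · calc _ ≤ ∑ r ∈ (range (b ^ (t - p))).filter (fun r => ¬ ¬ Deg c b t p q r),
            C3 * (Real.log p / p) * (b : ℝ) ^ (p - z) := by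
            refine Finset.sum_le_sum fun r hr => ?_
            rw [mem_filter] at hr
            exact hdg r hr.1
        _ = (((range (b ^ (t - p))).filter (fun r => Deg c b t p q r)).card : ℝ) *
            (C3 * (Real.log p / p) * (b : ℝ) ^ (p - z)) := by
            rw [Finset.sum_const, nsmul_eq_mul]
            simp only [not_not]
        _ ≤ _ := mul_le_mul_of_nonneg_right hdcard (by positivity)
  -- comparison of the logarithms
  have hpx : (x : ℝ) ≤ p := by exact_mod_cast hxp.le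
  have hp0 : (0 : ℝ) < p := by linarith
  have hp2x : (p : ℝ) ≤ 2 * x := by exact_mod_cast (by omega : p ≤ 2 * x)
  have hlx0 : 0 < Real.log x := by linarith
  have hlogp : Real.log p / p ≤ 2 * (Real.log x / x) :=
    (Pool.Agent.N176.GP.log_div_le hx2 hxp (by omega)).trans (le_of_eq (by ring))
  have eb1 : (b : ℝ) ^ (t - p) * (b : ℝ) ^ (p - z) = (b : ℝ) ^ (t - z) := by
    rw [← pow_add]; congr 1; omega
  have eb2 : (b : ℝ) ^ (t - q) * (b : ℝ) ^ (p - z) = (b : ℝ) ^ (t - z) / (b : ℝ) ^ (q - p) := by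
    rw [eq_div_iff (by positivity), ← pow_add, ← pow_add]; congr 1; omega
  have hlx : 0 ≤ Real.log x / x := by positivity
  calc ∑ n ∈ cell b z t j, Y c p (n / b ^ (t - p)) * Y c q (n / b ^ (t - q))
      ≤ ∑ n ∈ cell b z t j, ((if Big c F b t x n then (1 : ℝ) else 0) +
        (if ¬ Big c F b t x n then YY n else 0)) := Finset.sum_le_sum fun n _ => hpt1 n
    _ ≤ Real.exp (-(d * x)) * (b : ℝ) ^ (t - z) +
        ((b : ℝ) ^ (t - p) * ((C1 * (Real.log x / x)) ^ 2 * (b : ℝ) ^ (p - z)) +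
        (b : ℝ) ^ (t - q) * (C3 * (Real.log p / p) * (b : ℝ) ^ (p - z))) := by
        rw [Finset.sum_add_distrib]
        exact add_le_add hbig hmain
    _ = (Real.exp (-(d * x)) + C1 ^ 2 * (Real.log x / x) ^ 2 +
        C3 * (Real.log p / p) / (b : ℝ) ^ (q - p)) * (b : ℝ) ^ (t - z) := by
        have e1 : (b : ℝ) ^ (t - p) * ((C1 * (Real.log x / x)) ^ 2 * (b : ℝ) ^ (p - z)) =
            C1 ^ 2 * (Real.log x / x) ^ 2 * ((b : ℝ) ^ (t - p) * (b : ℝ) ^ (p - z)) := by ring
        have e2 : (b : ℝ) ^ (t - q) * (C3 * (Real.log p / p) * (b : ℝ) ^ (p - z)) =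
            C3 * (Real.log p / p) * ((b : ℝ) ^ (t - q) * (b : ℝ) ^ (p - z)) := by ring
        rw [e1, e2, eb1, eb2]
        ring
    _ ≤ _ := by
        refine mul_le_mul_of_nonneg_right ?_ (by positivity)
        have h1 : C3 * (Real.log p / p) / (b : ℝ) ^ (q - p) ≤
            C3 * (2 * (Real.log x / x)) / (b : ℝ) ^ (q - p) := by gcongr
        have h2 : 0 ≤ (Real.log x / x) / (b : ℝ) ^ (q - p) := by positivity
        have h3 : C3 * (2 * (Real.log x / x)) / (b : ℝ) ^ (q - p) =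
            2 * C3 * ((Real.log x / x) / (b : ℝ) ^ (q - p)) := by ring
        rw [h3] at h1
        have h4 : 0 ≤ (Real.log x / x) ^ 2 := by positivity
        have e3 : (C1' + 1 + 2 * C3') / Real.log b = C1 + 1 / Real.log b + 2 * C3 := by
          rw [hC1d, hC3d]; ring
        have hi : 0 < 1 / Real.log b := by positivity
        rw [e3]
        have h5 : C1 ^ 2 + (1 / Real.log b) ^ 2 ≤ (C1 + 1 / Real.log b + 2 * C3) ^ 2 := by
          nlinarith [mul_pos hC1 hi, mul_pos hC1 hC3, mul_pos hi hC3]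
        have h6 : (C1 ^ 2 + (1 / Real.log b) ^ 2) * (Real.log x / x) ^ 2 ≤
            (C1 + 1 / Real.log b + 2 * C3) ^ 2 * (Real.log x / x) ^ 2 :=
          mul_le_mul_of_nonneg_right h5 h4
        have h7 : 2 * C3 * ((Real.log x / x) / (b : ℝ) ^ (q - p)) ≤
            (C1 + 1 / Real.log b + 2 * C3) * ((Real.log x / x) / (b : ℝ) ^ (q - p)) :=
          mul_le_mul_of_nonneg_right (by linarith) h2
        linarith



/-- the bound for two exponents -/
noncomputable def WB (b p q : ℕ) : ℝ :=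
  (1 / Real.log b) ^ 2 * (Real.log p / p * (Real.log q / q)) +
    1 / Real.log b * (Real.log p / p / (b : ℝ) ^ (q - p))

lemma WB_nonneg (b p q : ℕ) : 0 ≤ WB b p q := by
  have h1 := lg_nonneg p
  have h2 := lg_nonneg q
  have h3 := Real.log_natCast_nonneg b
  unfold WB
  positivity

/-- all pairs -/
theorem pair_allU : ∃ C : ℝ, 0 < C ∧ ∀ (b A : ℕ) (c : ℕ → ℤ), Ok b A c →
    ∃ P : ℕ, ∀ p ≥ P, ∀ q > p, ∀ z : ℕ, 2 * A * z ≤ p → ∀ j : ℕ, 1 ≤ j →
    j ≤ b ^ (2 * z) → ∀ t > q,
    ∑ n ∈ cell b z t j, Y c p (n / b ^ (t - p)) * Y c q (n / b ^ (t - q)) ≤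
      C * WB b p q * (b : ℝ) ^ (t - z) := by
  obtain ⟨C1', hC1', hU1⟩ := pair_farU
  obtain ⟨C2', hC2', hU2⟩ := pair_closeU
  refine ⟨C1' ^ 2 + 8 * C2' ^ 2 + 2 * C2', by positivity, fun b A c hOk => ?_⟩
  have hb := hOk.hb
  have hA64 := hOk.hA
  have hb0 : (0 : ℝ) < b := by positivity
  have hL0 : 0 < Real.log b := Real.log_pos (by exact_mod_cast hb)
  obtain ⟨P1, hP1⟩ := hU1 b hb c
  obtain ⟨P2, hP2⟩ := hU2 b A c hOk
  refine ⟨max P1 (2 * P2 + 4), ?_⟩
  intro p hp q hpq z hz j hj1 hj2 t ht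
  have hpP1 : P1 ≤ p := (le_max_left _ _).trans hp
  have hpP2 : 2 * P2 + 4 ≤ p := (le_max_right _ _).trans hp
  have h64 : 64 * z ≤ A * z := Nat.mul_le_mul_right z hA64
  have hAz : 2 * (A * z) ≤ p := by rw [← mul_assoc]; exact hz
  have hlp := lg_nonneg p
  have hlq := lg_nonneg q
  have hp0 : (0 : ℝ) < p := by exact_mod_cast (by omega : 0 < p)
  have hq0 : (0 : ℝ) < q := by exact_mod_cast (by omega : 0 < q)
  have hbt : 0 ≤ (b : ℝ) ^ (t - z) := by positivity
  have hw : 0 ≤ Real.log p / p / (b : ℝ) ^ (q - p) := by positivity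
  rcases le_or_gt (2 * p) (q + 1) with h | h
  · refine (hP1 p hpP1 q h z (by omega) j t ht.le).trans (mul_le_mul_of_nonneg_right ?_ hbt)
    unfold WB
    have e1 : (C1' / Real.log b) ^ 2 * (Real.log p / p * (Real.log q / q)) =
        C1' ^ 2 * ((1 / Real.log b) ^ 2 * (Real.log p / p * (Real.log q / q))) := by
      field_simp
    have g1 : 0 ≤ (1 / Real.log b) ^ 2 * (Real.log p / p * (Real.log q / q)) := by positivity
    have g2 : 0 ≤ 1 / Real.log b * (Real.log p / p / (b : ℝ) ^ (q - p)) := by positivity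
    rw [e1]
    nlinarith [mul_nonneg (sq_nonneg C2') g1, mul_nonneg hC2'.le g1, mul_nonneg (sq_nonneg C1') g2,
      mul_nonneg (sq_nonneg C2') g2, mul_nonneg hC2'.le g2]
  · set x := (q + 1) / 2 with hx
    have hx1 : x < p := by omega
    have hx2 : q ≤ 2 * x := by omega
    have hx3 : 2 * x ≤ t := by omega
    have hx4 : A * z ≤ x := by omega
    refine (hP2 x (by omega) p q hx1 hpq hx2 z hx4 j hj1 hj2 t hx3).trans
      (mul_le_mul_of_nonneg_right ?_ hbt)
    have hx0 : (0 : ℝ) < x := by exact_mod_cast (by omega : 0 < x)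
    have hxp : (x : ℝ) ≤ p := by exact_mod_cast hx1.le
    have hpx : (p : ℝ) ≤ 2 * x := by exact_mod_cast (by omega : p ≤ 2 * x)
    have hlx : 0 ≤ Real.log x := Real.log_natCast_nonneg x
    have hlxp : Real.log x ≤ Real.log p := Real.log_le_log hx0 hxp
    have hlpq : Real.log p ≤ Real.log q := Real.log_le_log hp0 (by exact_mod_cast hpq.le)
    have h1 : Real.log x / x ≤ 2 * (Real.log p / p) := by
      rw [div_le_iff₀ hx0]
      calc Real.log x ≤ Real.log p := hlxp
        _ ≤ Real.log p * (2 * x / p) :=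
          le_mul_of_one_le_right (hlx.trans hlxp) (by rw [le_div_iff₀ hp0]; linarith)
        _ = _ := by field_simp
    have h2 : Real.log p / p ≤ 2 * (Real.log q / q) := by
      have hq2 : (q : ℝ) ≤ 2 * p := by exact_mod_cast (by omega : q ≤ 2 * p)
      rw [div_le_iff₀ hp0]
      calc Real.log p ≤ Real.log q := hlpq
        _ ≤ Real.log q * (2 * p / q) :=
          le_mul_of_one_le_right ((hlx.trans hlxp).trans hlpq) (by rw [le_div_iff₀ hq0]; linarith)
        _ = _ := by field_simp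
    have h3 : (Real.log x / x) ^ 2 ≤ 8 * (Real.log p / p * (Real.log q / q)) := by
      have h4 : 0 ≤ Real.log x / x := by positivity
      calc (Real.log x / x) ^ 2 ≤ (2 * (Real.log p / p)) ^ 2 := by gcongr
        _ = 4 * (Real.log p / p) * (Real.log p / p) := by ring
        _ ≤ 4 * (Real.log p / p) * (2 * (Real.log q / q)) := by gcongr
        _ = _ := by ring
    have h5 : (Real.log x / x) / (b : ℝ) ^ (q - p) ≤ 2 * (Real.log p / p / (b : ℝ) ^ (q - p)) := by
      rw [← mul_div_assoc]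
      gcongr
    unfold WB
    have g1 : 0 ≤ (1 / Real.log b) ^ 2 * (Real.log p / p * (Real.log q / q)) := by positivity
    have g2 : 0 ≤ 1 / Real.log b * (Real.log p / p / (b : ℝ) ^ (q - p)) := by positivity
    have k1 : (C2' / Real.log b) ^ 2 * (Real.log x / x) ^ 2 ≤
        8 * C2' ^ 2 * ((1 / Real.log b) ^ 2 * (Real.log p / p * (Real.log q / q))) := by
      calc (C2' / Real.log b) ^ 2 * (Real.log x / x) ^ 2 ≤
          (C2' / Real.log b) ^ 2 * (8 * (Real.log p / p * (Real.log q / q))) :=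
            mul_le_mul_of_nonneg_left h3 (by positivity)
        _ = _ := by field_simp
    have k2 : C2' / Real.log b * ((Real.log x / x) / (b : ℝ) ^ (q - p)) ≤
        2 * C2' * (1 / Real.log b * (Real.log p / p / (b : ℝ) ^ (q - p))) := by
      calc C2' / Real.log b * ((Real.log x / x) / (b : ℝ) ^ (q - p)) ≤
          C2' / Real.log b * (2 * (Real.log p / p / (b : ℝ) ^ (q - p))) :=
            mul_le_mul_of_nonneg_left h5 (by positivity)
        _ = _ := by ring
    nlinarith [mul_nonneg (sq_nonneg C1') g1, mul_nonneg hC2'.le g1, mul_nonneg (sq_nonneg C1') g2,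
      mul_nonneg (sq_nonneg C2') g2]


end Run7.h854.LB
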