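import Mathlib
import Pool.Agent.N618.OW.FM
import Pool.Agent.Run7.h854.LB.Pair

set_option autoImplicit false

/-!
# The mean over the cells of the first digits, uniformly in the base
-/

open Filter Topology Set MeasureTheory Metric
open scoped Real

namespace Run7.h854.LB

open Pool.Agent.H305R2 (ff NN roughPart measurable_ff ff_nonneg ff_le_one LL gg)
open Pool.Agent.W66 (ii_of_bdd)
open Pool.Agent.N176.OW
open Pool.Agent.N618.OW (ii_exp int_piece cnt_int clip_sum clip_int clip_mono one_cell)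
open Pool.Agent.N176.GP (cnt)

theorem fmU : ∃ κ0 : ℝ, 0 < κ0 ∧ ∀ b : ℕ, 2 ≤ b → ∃ K : ℝ, 0 < K ∧ ∀ m0 : ℕ, ∃ P : ℕ, ∀ q ≥ P,
    ∀ z : ℕ, m0 ≤ z → (z : ℝ) ≤ κ0 * q →
    ∑ j ∈ Finset.Ico (b ^ (z - m0)) (b ^ (z + m0)),
      max 0 (|(cnt b z j q : ℝ) / (b : ℝ) ^ (q - z) -
        Real.exp Real.eulerMascheroniConstant / Real.log b * (Real.log q / q)| - K / q) ≤
    (b : ℝ) ^ z * ((Real.log q) ^ 2 / q ^ 2) := by
  obtain ⟨κ, K2, hκ, hK2, P1, hP10⟩ := Pool.Agent.N176.OW.All.fw (Real.log 2 / 2)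
    (by have := Real.log_pos (show (1 : ℝ) < 2 by norm_num); positivity)
  refine ⟨min (κ / 4) (1 / 2), lt_min (by positivity) (by norm_num), fun b hb => ?_⟩
  have hb1 : (1 : ℝ) < b := by exact_mod_cast hb
  have hb0 : (0 : ℝ) < b := by linarith
  obtain ⟨L, hLd⟩ : ∃ L : ℝ, L = Real.log b := ⟨_, rfl⟩
  have hL : 0 < L := by rw [hLd]; exact Real.log_pos hb1
  have hL2 : Real.log 2 ≤ L := by
    rw [hLd]
    exact Real.log_le_log (by norm_num) (by exact_mod_cast hb)
  have hP1 : ∀ q ≥ P1, ∀ Y : ℝ, L / 2 * q ≤ Y → ∀ (N : ℕ) (A : ℕ → ℝ), Monotone A →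
      (N : ℝ) ≤ Real.exp (κ * Y) → Y ≤ A 0 → A N ≤ Y + 1 →
      ∑ j ∈ Finset.range N, |∫ u in (A j)..(A (j + 1)), Real.exp (u - Y) * Pool.Agent.H305R2.gg q u| ≤
      K2 * (Real.log q / q ^ 2) := fun q hq Y hY N A h1 h2 h3 h4 =>
    hP10 q hq Y (le_trans (mul_le_mul_of_nonneg_right (by linarith) (Nat.cast_nonneg q)) hY) N A h1 h2 h3 h4
  obtain ⟨K1, hK1, hev⟩ := Pool.Agent.TH888.R.LL_rate_y hL
  obtain ⟨G, hGd⟩ : ∃ G : ℝ, G = Real.exp Real.eulerMascheroniConstant := ⟨_, rfl⟩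
  have hG : 0 < G := by rw [hGd]; exact Real.exp_pos _
  rw [← hGd] at hev
  refine ⟨K1 + 1, by positivity, fun m0 => ?_⟩
  obtain ⟨I, hI⟩ : ∃ I : ℕ, I = ⌈2 * (m0 : ℝ) * L⌉₊ := ⟨_, rfl⟩
  have hlogt : Tendsto (fun q : ℕ => Real.log q) atTop atTop :=
    Real.tendsto_log_atTop.comp tendsto_natCast_atTop_atTop
  have c1 : ∀ᶠ q : ℕ in atTop, (I : ℝ) * (b : ℝ) ^ m0 * K2 ≤ Real.log q :=
    hlogt.eventually_ge_atTop _
  have c2 : ∀ᶠ q : ℕ in atTop, 2 * (m0 : ℝ) ≤ (q : ℝ) :=
    tendsto_natCast_atTop_atTop.eventually_ge_atTop _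
  have c3 : ∀ᶠ q : ℕ in atTop, (m0 : ℝ) / (κ / 4) ≤ (q : ℝ) :=
    tendsto_natCast_atTop_atTop.eventually_ge_atTop _
  have c4 : ∀ᶠ q : ℕ in atTop, 2 * G * m0 / L * Real.log q ≤ (q : ℝ) := by
    have h1 := (Real.isLittleO_log_id_atTop).bound
      (show (0 : ℝ) < 1 / (2 * G * m0 / L + 1) by positivity)
    have h2 : ∀ᶠ x : ℝ in atTop, 2 * G * m0 / L * Real.log x ≤ x := by
      filter_upwards [h1, eventually_ge_atTop 1] with x hx hx1
      rw [Real.norm_of_nonneg (Real.log_nonneg hx1), id, Real.norm_of_nonneg (by linarith),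
        one_div_mul_eq_div, le_div_iff₀ (by positivity)] at hx
      have := Real.log_nonneg hx1
      linarith
    exact tendsto_natCast_atTop_atTop.eventually h2
  obtain ⟨P, hP⟩ := (hev.and (c1.and (c2.and (c3.and (c4.and
    ((eventually_ge_atTop P1).and (eventually_ge_atTop 3))))))).exists_forall_of_atTop
  refine ⟨P, fun q hq z hmz hz => ?_⟩
  obtain ⟨d1, d2, d3, d4, d5, d6, d7⟩ := hP q hq
  have hq3 : (3 : ℝ) ≤ q := by exact_mod_cast d7
  have hq0 : (0 : ℝ) < q := by linarith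
  have hlog0 : 0 ≤ Real.log q := Real.log_nonneg (by linarith)
  have hz1 : (z : ℝ) ≤ κ / 4 * q := hz.trans (mul_le_mul_of_nonneg_right (min_le_left _ _) hq0.le)
  have hz2 : (z : ℝ) ≤ 1 / 2 * q := hz.trans (mul_le_mul_of_nonneg_right (min_le_right _ _) hq0.le)
  have hzq : z ≤ q := by
    have : (z : ℝ) ≤ q := by linarith
    exact_mod_cast this
  rw [div_le_iff₀ (by positivity)] at d4
  rw [← hGd, ← hLd]
  -- the points
  obtain ⟨A, hA⟩ : ∃ A : ℕ → ℝ, A = fun j => Real.log ((j * b ^ (q - z) : ℕ) : ℝ) := ⟨_, rfl⟩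
  obtain ⟨B, hB⟩ : ∃ B : ℝ, B = (b : ℝ) ^ (q - z) := ⟨_, rfl⟩
  have hB0 : 0 < B := by rw [hB]; positivity
  obtain ⟨j0, hj0⟩ : ∃ j0 : ℕ, j0 = b ^ (z - m0) := ⟨_, rfl⟩
  obtain ⟨j1, hj1⟩ : ∃ j1 : ℕ, j1 = b ^ (z + m0) := ⟨_, rfl⟩
  have hj01 : 1 ≤ j0 := by rw [hj0]; exact Nat.one_le_pow _ _ (by omega)
  have hjj : j0 ≤ j1 := by rw [hj0, hj1]; exact Nat.pow_le_pow_right (by omega) (by omega)
  have hAmono : ∀ i j : ℕ, 1 ≤ i → i ≤ j → A i ≤ A j := by
    intro i j hi hij
    rw [hA]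
    refine Real.log_le_log (by positivity) ?_
    exact_mod_cast Nat.mul_le_mul_right _ hij
  have hA0 : A j0 = (q - m0) * L := by
    rw [hA, hLd, hj0]
    have : b ^ (z - m0) * b ^ (q - z) = b ^ (q - m0) := by
      rw [← pow_add]; congr 1; omega
    simp only [this]
    push_cast
    rw [Real.log_pow, Nat.cast_sub (by omega)]
  have hA1 : A j1 = (q + m0) * L := by
    rw [hA, hLd, hj1]
    have : b ^ (z + m0) * b ^ (q - z) = b ^ (q + m0) := by
      rw [← pow_add]; congr 1; omega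
    simp only [this]
    push_cast
    rw [Real.log_pow]
    push_cast
    ring
  obtain ⟨Y, hY⟩ : ∃ Y : ℝ, Y = (q - m0) * L := ⟨_, rfl⟩
  obtain ⟨θ, hθ⟩ : ∃ θ : ℝ, θ = G / L * (Real.log q / q) := ⟨_, rfl⟩
  have hq2 : (q : ℝ) / 2 ≤ q - m0 := by linarith
  have hYq : L / 2 * q ≤ Y := by
    rw [hY]
    have := mul_le_mul_of_nonneg_right hq2 hL.le
    linarith
  have hY1 : Y + I ≥ (q + m0) * L := by
    have : 2 * (m0 : ℝ) * L ≤ I := by rw [hI]; exact Nat.le_ceil _
    rw [hY]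
    linarith
  -- the mean value
  have hLL : ∀ u, Y ≤ u → u ≤ (q + m0) * L → |LL q u - θ| ≤ (K1 + 1) / q := by
    intro u hu1 hu2
    have hu0 : 0 < u := by
      have : 0 < L / 2 * q := by positivity
      linarith
    have h1 := d1 u (by linarith)
    have h2 : |G * Real.log q / u - θ| ≤ 1 / q := by
      have e : G * Real.log q / u - θ = G * Real.log q * ((q * L - u) / (u * (q * L))) := by
        rw [hθ]; field_simp
      have h3 : |q * L - u| ≤ m0 * L := by
        rw [abs_le]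
        constructor
        · linarith
        · rw [hY] at hu1; linarith
      rw [e, abs_mul, abs_of_nonneg (by positivity), abs_div,
        abs_of_pos (by positivity : 0 < u * (q * L))]
      have h4 : (L / 2 * q) * (q * L) ≤ u * (q * L) :=
        mul_le_mul_of_nonneg_right (hYq.trans hu1) (by positivity)
      have h5 : |q * L - u| / (u * (q * L)) ≤ (m0 * L) / ((L / 2 * q) * (q * L)) :=
        div_le_div₀ (by positivity) h3 (by positivity) h4
      refine (mul_le_mul_of_nonneg_left h5 (by positivity)).trans ?_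
      have h6 : G * Real.log q * ((m0 * L) / ((L / 2 * q) * (q * L))) =
          (2 * G * m0 / L * Real.log q) / q ^ 2 := by
        field_simp
      rw [h6, div_le_div_iff₀ (by positivity) hq0]
      nlinarith
    have h3 := abs_sub_le (LL q u) (G * Real.log q / u) θ
    have h4 : (K1 + 1) / (q : ℝ) = K1 / q + 1 / q := by ring
    rw [h4]
    linarith
  -- the sum over one window
  have hwin : ∀ i ∈ Finset.range I, ∑ j ∈ Finset.Ico j0 j1,
      |∫ u in (min (max (A j) (Y + i)) (Y + i + 1))..(min (max (A (j + 1)) (Y + i)) (Y + i + 1)),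
        Real.exp u * gg q u| ≤ (b : ℝ) ^ (q + m0) * (K2 * (Real.log q / q ^ 2)) := by
    intro i hi
    have hi1 : (i : ℝ) < 2 * m0 * L := by
      rw [Finset.mem_range, hI] at hi
      exact Nat.lt_ceil.1 hi
    have hmono : Monotone fun k => min (max (A (j0 + k)) (Y + i)) (Y + i + 1) := by
      intro k k' hk
      exact clip_mono (Y + i) (hAmono _ _ (by omega) (by omega))
    have h1 := hP1 q d6 (Y + i) (hYq.trans (by
      have : (0 : ℝ) ≤ i := by positivity
      linarith)) (j1 - j0)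
      (fun k => min (max (A (j0 + k)) (Y + i)) (Y + i + 1)) hmono (by
        have h2 : ((j1 - j0 : ℕ) : ℝ) ≤ (b : ℝ) ^ (z + m0) := by
          have : j1 - j0 ≤ j1 := Nat.sub_le _ _
          have h3 : ((j1 - j0 : ℕ) : ℝ) ≤ (j1 : ℝ) := by exact_mod_cast this
          rw [hj1] at h3
          push_cast at h3
          rw [← hj1] at h3
          exact h3
        refine h2.trans ?_
        have h4 : (b : ℝ) ^ (z + m0) = Real.exp ((z + m0 : ℕ) * L) := by
          rw [hLd, ← Real.log_pow, Real.exp_log (by positivity)]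
        rw [h4]
        apply Real.exp_le_exp.2
        push_cast
        have h5 : κ * (L / 2 * q) ≤ κ * (Y + i) := mul_le_mul_of_nonneg_left (hYq.trans (by
          have : (0 : ℝ) ≤ i := by positivity
          linarith)) hκ.le
        have h6 : ((z : ℝ) + m0) * L ≤ (κ / 4 * q + q * (κ / 4)) * L :=
          mul_le_mul_of_nonneg_right (by linarith) hL.le
        linarith)
      (le_min (le_max_right _ _) (by linarith)) (min_le_right _ _)
    rw [Finset.sum_Ico_eq_sum_range]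
    have h2 : ∀ k ∈ Finset.range (j1 - j0),
        |∫ u in (min (max (A (j0 + k)) (Y + i)) (Y + i + 1))..(min (max (A (j0 + k + 1)) (Y + i))
          (Y + i + 1)), Real.exp u * gg q u| =
        Real.exp (Y + i) * |∫ u in (min (max (A (j0 + k)) (Y + i)) (Y + i + 1))..(min
          (max (A (j0 + (k + 1))) (Y + i)) (Y + i + 1)), Real.exp (u - (Y + i)) * gg q u| := by
      intro k _
      rw [← abs_of_pos (Real.exp_pos (Y + i)), ← abs_mul,
        ← intervalIntegral.integral_const_mul]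
      congr 1
      have : j0 + k + 1 = j0 + (k + 1) := by omega
      rw [this]
      refine intervalIntegral.integral_congr fun u _ => ?_
      rw [← mul_assoc, ← Real.exp_add]
      congr 2
      ring
    rw [Finset.sum_congr rfl h2, ← Finset.mul_sum]
    have h3 : Real.exp (Y + i) ≤ (b : ℝ) ^ (q + m0) := by
      have h4 : (b : ℝ) ^ (q + m0) = Real.exp ((q + m0 : ℕ) * L) := by
        rw [hLd, ← Real.log_pow, Real.exp_log (by positivity)]
      rw [h4]
      apply Real.exp_le_exp.2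
      push_cast
      rw [hY]
      linarith
    exact mul_le_mul h3 h1 (Finset.sum_nonneg fun _ _ => abs_nonneg _) (by positivity)
  -- one cell
  have hcell : ∀ j ∈ Finset.Ico j0 j1,
      max 0 (|(cnt b z j q : ℝ) / (b : ℝ) ^ (q - z) - G / L * (Real.log q / q)| -
        (K1 + 1) / q) ≤ (∑ i ∈ Finset.range I,
      |∫ u in (min (max (A j) (Y + i)) (Y + i + 1))..(min (max (A (j + 1)) (Y + i)) (Y + i + 1)),
        Real.exp u * gg q u|) / B := by
    intro j hj
    rw [Finset.mem_Ico] at hj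
    have hj1' : 1 ≤ j := by omega
    have g1 : Y ≤ A j := by
      rw [hY, ← hA0]; exact hAmono _ _ hj01 hj.1
    have g2 : A (j + 1) ≤ (q + m0) * L := by
      rw [← hA1]; exact hAmono _ _ (by omega) (by omega)
    have g3 : A j ≤ A (j + 1) := hAmono _ _ hj1' (by omega)
    have h1 := one_cell q (A j) (A (j + 1)) θ ((K1 + 1) / q) B (cnt b z j q) g3 hB0 (by
      rw [hA]
      simp only
      rw [Real.exp_log (by positivity), Real.exp_log (by positivity), hB]
      push_cast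
      ring) (by
        rw [hA]
        exact cnt_int b z j q (by omega) hj1') (fun u hu1 hu2 => hLL u (g1.trans hu1)
          (hu2.trans g2))
    rw [← hB, ← hθ]
    refine h1.trans ?_
    apply div_le_div_of_nonneg_right _ hB0.le
    rw [clip_int (fun u => Real.exp u * gg q u)
      (fun a c => ii_exp _ (Pool.Agent.H305R2.measurable_gg q)
        (Pool.Agent.H305R2.abs_gg_le_one q) a c) Y I (A j) (A (j + 1)) g1 g3 (g2.trans hY1)]
    exact Finset.abs_sum_le_sum_abs _ _
  rw [← hj0, ← hj1]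
  refine (Finset.sum_le_sum hcell).trans ?_
  rw [← Finset.sum_div, Finset.sum_comm, div_le_iff₀ hB0]
  refine (Finset.sum_le_sum hwin).trans ?_
  rw [Finset.sum_const, Finset.card_range, nsmul_eq_mul]
  have h1 : (b : ℝ) ^ (q + m0) = (b : ℝ) ^ z * B * (b : ℝ) ^ m0 := by
    rw [hB, ← pow_add, ← pow_add]
    congr 1
    omega
  rw [h1]
  have h2 : (I : ℝ) * ((b : ℝ) ^ z * B * (b : ℝ) ^ m0 * (K2 * (Real.log q / q ^ 2))) =
      ((b : ℝ) ^ z * B) * (((I : ℝ) * (b : ℝ) ^ m0 * K2) * (Real.log q / q ^ 2)) := by ring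
  have h3 : (b : ℝ) ^ z * (Real.log q ^ 2 / q ^ 2) * B =
      ((b : ℝ) ^ z * B) * (Real.log q * (Real.log q / q ^ 2)) := by ring
  rw [h2, h3]
  refine mul_le_mul_of_nonneg_left ?_ (by positivity)
  exact mul_le_mul_of_nonneg_right d2 (by positivity)



end Run7.h854.LB
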