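import Mathlib
import Pool.Agent.Run7.h854.PQ.Cell
import Pool.Agent.Run7.h854.LB.FM

set_option autoImplicit false

/-!
# The Laplace functional of the exponents, given the first digits, uniformly in the base
-/

namespace Run7.h854.LB

open Finset Filter Topology
open Pool.Agent.H305R2 (roughPart log_nat_tendsto)
open Pool.Agent.N176.OW (cell kap S_FM)
open Pool.Agent.N176.GP (sum_cells sum_div)
open Pool.Agent.N176.SH
open Run7.h854.PO Run7.h854.PQ

/-- the mean over the cells of level `z ≤ κ0 q` -/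
theorem fm_shU (A : ℕ) (hA64 : 64 ≤ A) : ∃ κ0 : ℝ, 0 < κ0 ∧ κ0 < 1 / 2 ∧
    ∀ (b : ℕ) (c : ℕ → ℤ), Ok b A c →
    ∃ K : ℝ, 0 < K ∧ ∀ m0 : ℕ, ∃ P : ℕ, ∀ q ≥ P, ∀ z : ℕ, m0 ≤ z →
    (z : ℝ) ≤ κ0 * q → q ≤ b ^ z →
    ∑ j ∈ Ico (b ^ (z - m0)) (b ^ (z + m0)),
      |(cnt c b z j q : ℝ) / (b : ℝ) ^ (q - z) - kap b * (Real.log q / q)| ≤
    (b : ℝ) ^ (z + m0) * (K / q) := by
  obtain ⟨κ1, hκ1, hU⟩ := fmU
  have hA0 : (0 : ℝ) < A := by exact_mod_cast (by omega : 0 < A)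
  refine ⟨min κ1 (1 / (4 * A)), by positivity, ?_, fun b c hOk => ?_⟩
  · refine (min_le_right _ _).trans_lt ?_
    rw [div_lt_div_iff₀ (by positivity) (by norm_num)]
    have : (64 : ℝ) ≤ A := by exact_mod_cast hA64
    linarith
  have hb := hOk.hb
  have hb0 : (0 : ℝ) < b := by positivity
  obtain ⟨K1, hK1, h⟩ := hU b hb
  refine ⟨K1 + 2, by positivity, fun m0 => ?_⟩
  obtain ⟨P1, hP1⟩ := h m0
  have hlim : Tendsto (fun q : ℕ => (Real.log q) ^ 2 / q) atTop (𝓝 0) := by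
    have h1 := (Real.isLittleO_pow_log_id_atTop (n := 2)).tendsto_div_nhds_zero
    have h2 := h1.comp tendsto_natCast_atTop_atTop
    exact h2
  obtain ⟨P2, hP2⟩ := eventually_atTop.1 (hlim.eventually_le_const (show (0 : ℝ) < 1 by norm_num))
  refine ⟨max (max P1 P2) (A + 1), fun q hq z hm0 hz hqz => ?_⟩
  have hqP1 : P1 ≤ q := ((le_max_left _ _).trans (le_max_left _ _)).trans hq
  have hqP2 : P2 ≤ q := ((le_max_right _ _).trans (le_max_left _ _)).trans hq
  have hqA : A + 1 ≤ q := (le_max_right _ _).trans hq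
  have hq0 : (0 : ℝ) < q := by exact_mod_cast (by omega : 0 < q)
  have hz1 : (z : ℝ) ≤ κ1 * q := hz.trans (mul_le_mul_of_nonneg_right (min_le_left _ _) hq0.le)
  have hz2 : A * z ≤ q := by
    have h1 : (z : ℝ) ≤ 1 / (4 * A) * q := hz.trans (mul_le_mul_of_nonneg_right (min_le_right _ _) hq0.le)
    have h2 : (A : ℝ) * z ≤ q := by
      calc (A : ℝ) * z ≤ A * (1 / (4 * A) * q) := mul_le_mul_of_nonneg_left h1 hA0.le
        _ = q / 4 := by field_simp
        _ ≤ q := by linarith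
    exact_mod_cast h2
  have h1 := hP1 q hqP1 z hm0 hz1
  have h2 := hP2 q hqP2
  have hbz : (0 : ℝ) < (b : ℝ) ^ z := by positivity
  have hinv : 1 / (b : ℝ) ^ z ≤ 1 / q := by
    apply one_div_le_one_div_of_le hq0
    exact_mod_cast hqz
  have hterm : ∀ j ∈ Ico (b ^ (z - m0)) (b ^ (z + m0)),
      |(cnt c b z j q : ℝ) / (b : ℝ) ^ (q - z) - kap b * (Real.log q / q)| ≤
      max 0 (|(Pool.Agent.N176.GP.cnt b z j q : ℝ) / (b : ℝ) ^ (q - z) -
        Real.exp Real.eulerMascheroniConstant / Real.log b * (Real.log q / q)| - K1 / q) +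
        (K1 + 1) / q := by
    intro j hj
    rw [mem_Ico] at hj
    have hj1 : 1 ≤ j := by
      have : 1 ≤ b ^ (z - m0) := Nat.one_le_pow _ _ (by omega)
      omega
    have h3 := Pool.Agent.N607.SH.cnt_shift hOk hj1 hz2 (by omega)
    have h4 := le_max_right 0 (|(Pool.Agent.N176.GP.cnt b z j q : ℝ) / (b : ℝ) ^ (q - z) -
        Real.exp Real.eulerMascheroniConstant / Real.log b * (Real.log q / q)| - K1 / q)
    have h5 : |(cnt c b z j q : ℝ) / (b : ℝ) ^ (q - z) - kap b * (Real.log q / q)| ≤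
        |(cnt c b z j q : ℝ) / (b : ℝ) ^ (q - z) -
          (Pool.Agent.N176.GP.cnt b z j q : ℝ) / (b : ℝ) ^ (q - z)| +
        |(Pool.Agent.N176.GP.cnt b z j q : ℝ) / (b : ℝ) ^ (q - z) - kap b * (Real.log q / q)| :=
      abs_sub_le _ _ _
    have h6 : (K1 + 1) / (q : ℝ) = K1 / q + 1 / q := by ring
    unfold kap at h5 ⊢
    rw [h6]
    linarith
  have hcard : (((Ico (b ^ (z - m0)) (b ^ (z + m0))).card : ℕ) : ℝ) ≤ (b : ℝ) ^ (z + m0) := by
    rw [Nat.card_Ico]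
    have : ((b ^ (z + m0) - b ^ (z - m0) : ℕ) : ℝ) ≤ ((b ^ (z + m0) : ℕ) : ℝ) := by
      exact_mod_cast Nat.sub_le _ _
    push_cast at this ⊢
    exact this
  have hpow : (b : ℝ) ^ z ≤ (b : ℝ) ^ (z + m0) :=
    pow_le_pow_right₀ (by exact_mod_cast (by omega : 1 ≤ b)) (by omega)
  calc _ ≤ ∑ j ∈ Ico (b ^ (z - m0)) (b ^ (z + m0)),
        (max 0 (|(Pool.Agent.N176.GP.cnt b z j q : ℝ) / (b : ℝ) ^ (q - z) -
        Real.exp Real.eulerMascheroniConstant / Real.log b * (Real.log q / q)| - K1 / q) +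
        (K1 + 1) / q) := Finset.sum_le_sum hterm
    _ ≤ (b : ℝ) ^ z * ((Real.log q) ^ 2 / q ^ 2) + (b : ℝ) ^ (z + m0) * ((K1 + 1) / q) := by
        rw [Finset.sum_add_distrib, Finset.sum_const, nsmul_eq_mul]
        exact add_le_add h1 (mul_le_mul_of_nonneg_right hcard (by positivity))
    _ ≤ (b : ℝ) ^ (z + m0) * (1 / q) + (b : ℝ) ^ (z + m0) * ((K1 + 1) / q) := by
        have h3 : (Real.log q) ^ 2 / (q : ℝ) ^ 2 ≤ 1 / q := by
          have e : (Real.log q) ^ 2 / (q : ℝ) ^ 2 = (Real.log q) ^ 2 / q * (1 / q) := by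
            field_simp
          rw [e]
          exact mul_le_of_le_one_left (by positivity) h2
        gcongr
    _ = _ := by ring


/-- one more exponent -/
theorem cell_stepU {κ0 : ℝ} (hκ0 : 0 < κ0) (hκ1 : κ0 < 1 / 2) : ∃ C : ℝ, 0 < C ∧
    ∀ (b A : ℕ) (c : ℕ → ℤ), Ok b A c →
    ∃ P : ℕ, ∀ q ≥ P, ∀ z : ℕ, (z : ℝ) ≤ κ0 * q → ∀ i : ℕ, 1 ≤ i → i ≤ b ^ (2 * z) → ∀ t > q,
    ∀ T : Finset ℕ, (∀ p ∈ T, P ≤ p ∧ 2 * A * z ≤ p ∧ p < q) →
    ∀ w : ℕ → ℝ, (∀ p, 0 ≤ w p ∧ w p ≤ 1) →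
    |Av b z i (i + 1) t (fun n => Phi c w (insert q T) b t n) -
      (1 - w q * (kap b * (Real.log q / q))) * Av b z i (i + 1) t (fun n => Phi c w T b t n)| ≤
      EE c b κ0 z i q + 1 / (b : ℝ) ^ z * (C * ∑ p ∈ T.filter (fun p : ℕ => κ0 * q < p), WB b p q) := by
  classical
  obtain ⟨C2, hC2, hU2⟩ := pair_allU
  obtain ⟨C3, hC3, hU3⟩ := cnt_upU
  set G0 := Real.exp Real.eulerMascheroniConstant with hG0
  have hG00 : 0 < G0 := Real.exp_pos _
  refine ⟨C2 + G0 * C3, by positivity, fun b A c hOk => ?_⟩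
  have hb := hOk.hb
  have hb0 : (0 : ℝ) < b := by positivity
  have hL0 : 0 < Real.log b := Real.log_pos (by exact_mod_cast hb)
  have hA64 := hOk.hA
  obtain ⟨P2, hP2⟩ := hU2 b A c hOk
  obtain ⟨P3, hP3⟩ := hU3 b hb c
  have hκb := kap_nonneg b
  refine ⟨max P2 P3, ?_⟩
  intro q hq z hzq i hi1 hi2 t ht T hT w hw
  have hqP2 : P2 ≤ q := (le_max_left _ _).trans hq
  have hqP3 : P3 ≤ q := (le_max_right _ _).trans hq
  set y := ⌊κ0 * q⌋₊ with hy
  have hzq' : z ≤ q := by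
    have : (z : ℝ) ≤ q := hzq.trans (by nlinarith [(Nat.cast_nonneg q : (0 : ℝ) ≤ q)])
    exact_mod_cast this
  set T0 := T.filter (fun p => p ≤ y) with hT0
  have hsub : T0 ⊆ T := filter_subset _ _
  have hdiff : T \ T0 = T.filter (fun p : ℕ => κ0 * q < p) := by
    ext p
    rw [Finset.mem_sdiff, hT0, Finset.mem_filter, Finset.mem_filter, hy]
    constructor
    · rintro ⟨h2, h3⟩
      refine ⟨h2, ?_⟩
      by_contra h4
      push Not at h4
      exact h3 ⟨h2, Nat.le_floor h4⟩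
    · rintro ⟨h2, h3⟩
      refine ⟨h2, fun h4 => ?_⟩
      have h5 := (Nat.le_floor_iff (by positivity)).1 h4.2
      linarith
  have hqT : q ∉ T := fun hqT => by
    have := (hT q hqT).2.2
    omega
  have hbz : (0 : ℝ) < 1 / (b : ℝ) ^ z := by positivity
  have hscale : ∀ X : ℝ, X * (b : ℝ) ^ (t - z) / (b : ℝ) ^ t = 1 / (b : ℝ) ^ z * X := by
    intro X
    have : (b : ℝ) ^ t = (b : ℝ) ^ (t - z) * (b : ℝ) ^ z := by rw [← pow_add]; congr 1; omega
    rw [this]
    field_simp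
  set S := ∑ p ∈ T.filter (fun p : ℕ => κ0 * q < p), WB b p q with hS
  have hS0 : 0 ≤ S := Finset.sum_nonneg fun p _ => WB_nonneg b p q
  set X1 := Av b z i (i + 1) t (fun n => Y c q (n / b ^ (t - q)) * Phi c w T b t n) with hX1
  set X0 := Av b z i (i + 1) t (fun n => Y c q (n / b ^ (t - q)) * Phi c w T0 b t n) with hX0
  set A1 := Av b z i (i + 1) t (fun n => Phi c w T b t n) with hA1
  set A0 := Av b z i (i + 1) t (fun n => Phi c w T0 b t n) with hA0
  set κ' := kap b * (Real.log q / q) with hκ'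
  have hκ'0 : 0 ≤ κ' := mul_nonneg hκb (lg_nonneg q)
  have e1 : Av b z i (i + 1) t (fun n => Phi c w (insert q T) b t n) = A1 - w q * X1 := by
    rw [hA1, hX1, ← Av_mul, ← Av_sub]
    congr 1
    funext n
    unfold Phi
    rw [Finset.prod_insert hqT]
    ring
  have h2 : |X1 - X0| ≤ 1 / (b : ℝ) ^ z * (C2 * S) := by
    rw [hX1, hX0, ← Av_sub]
    refine (Av_abs _).trans ?_
    have h3 : Av b z i (i + 1) t (fun n => |Y c q (n / b ^ (t - q)) * Phi c w T b t n -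
        Y c q (n / b ^ (t - q)) * Phi c w T0 b t n|) ≤
        Av b z i (i + 1) t
          (fun n => ∑ p ∈ T \ T0, Y c p (n / b ^ (t - p)) * Y c q (n / b ^ (t - q))) := by
      refine Av_mono fun n => ?_
      rw [← mul_sub, abs_mul, abs_of_nonneg (Y_nonneg _ _ _), ← Finset.sum_mul, mul_comm]
      exact mul_le_mul_of_nonneg_right (Phi_diff hw hsub b t n) (Y_nonneg _ _ _)
    refine h3.trans ?_
    rw [Av_sum, hS, Finset.mul_sum, Finset.mul_sum, ← hdiff]
    refine Finset.sum_le_sum fun p hp => ?_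
    obtain ⟨h4, h5, h6⟩ := hT p (Finset.mem_sdiff.1 hp).1
    have h7 := hP2 p ((le_max_left _ _).trans h4) q h6 z h5 i hi1 hi2 t ht
    rw [← hscale]
    unfold Av
    exact div_le_div_of_nonneg_right h7 (by positivity)
  have h3 : |X0 - κ' * A0| ≤ EE c b κ0 z i q :=
    cellFM hb c hκ0 hκ1 hzq ht.le (fun p hp => (mem_filter.1 hp).2) hw
  have h4 : κ' * |A1 - A0| ≤ 1 / (b : ℝ) ^ z * (G0 * C3 * S) := by
    have h5 : |A1 - A0| ≤ ∑ p ∈ T \ T0, 1 / (b : ℝ) ^ z * (C3 / Real.log b * (Real.log p / p)) := by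
      rw [hA1, hA0, ← Av_sub]
      refine (Av_abs _).trans ?_
      refine (Av_mono (fun n => Phi_diff hw hsub b t n)).trans ?_
      rw [Av_sum]
      refine Finset.sum_le_sum fun p hp => ?_
      obtain ⟨h4, h5, h6⟩ := hT p (Finset.mem_sdiff.1 hp).1
      have hzp : z ≤ p := by nlinarith
      have h7 : 3 * z ≤ 2 * p := by nlinarith
      rw [← hscale]
      unfold Av
      refine div_le_div_of_nonneg_right ?_ (by positivity)
      have h8 := sum_level hb hzp (show p ≤ t by omega) (Y c p) (j := i)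
      unfold cell at h8
      rw [h8, ← cnt_eq_sum]
      calc (b : ℝ) ^ (t - p) * (cnt c b z i p : ℝ) ≤
          (b : ℝ) ^ (t - p) * (C3 / Real.log b * (Real.log p / p) * (b : ℝ) ^ (p - z)) :=
            mul_le_mul_of_nonneg_left (hP3 p ((le_max_right _ _).trans h4) z h7 i) (by positivity)
        _ = C3 / Real.log b * (Real.log p / p) * ((b : ℝ) ^ (t - p) * (b : ℝ) ^ (p - z)) := by ring
        _ = _ := by
            rw [← pow_add]
            congr 2
            omega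
    calc κ' * |A1 - A0| ≤ κ' * ∑ p ∈ T \ T0, 1 / (b : ℝ) ^ z * (C3 / Real.log b * (Real.log p / p)) :=
          mul_le_mul_of_nonneg_left h5 hκ'0
      _ = ∑ p ∈ T \ T0, 1 / (b : ℝ) ^ z * (G0 * C3 * ((1 / Real.log b) ^ 2 *
            (Real.log p / p * (Real.log q / q)))) := by
          rw [Finset.mul_sum]
          refine Finset.sum_congr rfl fun p _ => ?_
          rw [hκ']
          unfold kap
          rw [← hG0]
          ring
      _ ≤ ∑ p ∈ T \ T0, 1 / (b : ℝ) ^ z * (G0 * C3 * WB b p q) := by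
          refine Finset.sum_le_sum fun p _ => ?_
          refine mul_le_mul_of_nonneg_left (mul_le_mul_of_nonneg_left ?_ (by positivity)) hbz.le
          unfold WB
          have := lg_nonneg p
          have : 0 ≤ 1 / Real.log b * (Real.log p / p / (b : ℝ) ^ (q - p)) := by positivity
          linarith
      _ = 1 / (b : ℝ) ^ z * (G0 * C3 * S) := by rw [hS, ← hdiff, Finset.mul_sum, Finset.mul_sum]
  have h5 : |X1 - κ' * A1| ≤ EE c b κ0 z i q + 1 / (b : ℝ) ^ z * ((C2 + G0 * C3) * S) := by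
    have h6 : |X1 - κ' * A1| ≤ |X1 - X0| + |X0 - κ' * A0| + κ' * |A1 - A0| := by
      have e2 : X1 - κ' * A1 = (X1 - X0) + (X0 - κ' * A0) + κ' * (A0 - A1) := by ring
      rw [e2]
      refine (abs_add_three _ _ _).trans ?_
      rw [abs_mul, abs_of_nonneg hκ'0, abs_sub_comm A0 A1]
    have e3 : 1 / (b : ℝ) ^ z * ((C2 + G0 * C3) * S) =
      1 / (b : ℝ) ^ z * (C2 * S) + 1 / (b : ℝ) ^ z * (G0 * C3 * S) := by ring
    rw [e3]
    linarith
  rw [e1]
  have e3 : A1 - w q * X1 - (1 - w q * κ') * A1 = -(w q * (X1 - κ' * A1)) := by ring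
  rw [e3, abs_neg, abs_mul, abs_of_nonneg (hw q).1]
  exact (mul_le_of_le_one_left (abs_nonneg _) (hw q).2).trans h5

/-- the error term -/
noncomputable def errB (b : ℕ) (κ0 : ℝ) (T : Finset ℕ) : ℝ :=
  ∑ q ∈ T, (1 / (q : ℝ) + ∑ p ∈ (T.filter (fun p => p < q)).filter (fun p : ℕ => κ0 * q < p), WB b p q)

lemma errB_nonneg (b : ℕ) (κ0 : ℝ) (T : Finset ℕ) : 0 ≤ errB b κ0 T := by
  unfold errB
  refine Finset.sum_nonneg fun q _ => add_nonneg (by positivity) ?_
  exact Finset.sum_nonneg fun p _ => WB_nonneg b p q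

lemma errB_insert (b : ℕ) (κ0 : ℝ) {q : ℕ} {T : Finset ℕ} (h : ∀ x ∈ T, x < q) :
    errB b κ0 (insert q T) = 1 / (q : ℝ) +
      ∑ p ∈ T.filter (fun p : ℕ => κ0 * q < p), WB b p q + errB b κ0 T := by
  have hq : q ∉ T := fun hq => by
    have := h q hq
    omega
  unfold errB
  rw [Finset.sum_insert hq]
  congr 1
  · congr 2
    congr 1
    ext x
    rw [mem_filter, mem_insert]
    constructor
    · rintro ⟨rfl | h1, h2⟩
      · omega
      · exact h1
    · intro h1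
      exact ⟨Or.inr h1, h x h1⟩
  · refine Finset.sum_congr rfl fun x hx => ?_
    congr 2
    congr 1
    ext y
    rw [mem_filter, mem_filter, mem_insert]
    constructor
    · rintro ⟨rfl | h1, h2⟩
      · have := h x hx
        omega
      · exact ⟨h1, h2⟩
    · rintro ⟨h1, h2⟩
      exact ⟨Or.inr h1, h2⟩

/-- the Laplace functional of the exponents in `T`, given the first `z` digits -/
theorem cell_laplaceU {κ0 : ℝ} (hκ0 : 0 < κ0) (hκ1 : κ0 < 1 / 2) : ∃ C : ℝ, 0 < C ∧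
    ∀ (b A : ℕ) (c : ℕ → ℤ), Ok b A c →
    ∃ P : ℕ, ∀ z i t : ℕ, 1 ≤ i → i ≤ b ^ (2 * z) → z ≤ t → ∀ T : Finset ℕ,
    (∀ p ∈ T, P ≤ p ∧ 2 * A * z ≤ p ∧ (z : ℝ) ≤ κ0 * p ∧ p < t) →
    ∀ w : ℕ → ℝ, (∀ p, 0 ≤ w p ∧ w p ≤ 1) →
    |Av b z i (i + 1) t (fun n => Phi c w T b t n) -
      1 / (b : ℝ) ^ z * Real.exp (-(∑ q ∈ T, w q * (kap b * (Real.log q / q))))| ≤
      ∑ q ∈ T, EE c b κ0 z i q + 1 / (b : ℝ) ^ z * (C * errB b κ0 T) := by
  classical
  obtain ⟨C1, hC1, hU1⟩ := cell_stepU hκ0 hκ1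
  obtain ⟨C2, hC2⟩ : ∃ C2 : ℝ, C2 = (Real.exp Real.eulerMascheroniConstant / Real.log 2) ^ 2 := ⟨_, rfl⟩
  have hC20 : 0 ≤ C2 := by rw [hC2]; positivity
  refine ⟨C1 + C2, by positivity, fun b A c hOk => ?_⟩
  have hb := hOk.hb
  have hb0 : (0 : ℝ) < b := by positivity
  obtain ⟨P1, hP1⟩ := hU1 b A c hOk
  have hκb := kap_nonneg b
  have hκC : kap b ^ 2 ≤ C2 := by
    rw [hC2]
    have h2 : 0 < Real.log 2 := Real.log_pos (by norm_num)
    have h3 : Real.log 2 ≤ Real.log b := Real.log_le_log (by norm_num) (by exact_mod_cast hb)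
    refine pow_le_pow_left₀ hκb ?_ 2
    unfold kap
    exact div_le_div_of_nonneg_left (Real.exp_pos _).le h2 h3
  have hlim : Tendsto (fun q : ℕ => (Real.log q) ^ 2 / q) atTop (𝓝 0) := by
    have h1 := (Real.isLittleO_pow_log_id_atTop (n := 2)).tendsto_div_nhds_zero
    have h2 := h1.comp tendsto_natCast_atTop_atTop
    exact h2
  have hlim2 : Tendsto (fun q : ℕ => kap b * (Real.log q / q)) atTop (𝓝 0) := by
    have h1 := (Real.isLittleO_pow_log_id_atTop (n := 1)).tendsto_div_nhds_zero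
    have h2 := (h1.comp tendsto_natCast_atTop_atTop).const_mul (kap b)
    rw [mul_zero] at h2
    refine h2.congr fun q => ?_
    simp
  obtain ⟨P2, hP2⟩ := eventually_atTop.1 (hlim.eventually_le_const (show (0 : ℝ) < 1 by norm_num))
  obtain ⟨P3, hP3⟩ := eventually_atTop.1 (hlim2.eventually_le_const (show (0 : ℝ) < 1 by norm_num))
  refine ⟨max P1 (max P2 (max P3 1)), fun z i t hi1 hi2 hzt T hT w hw => ?_⟩
  set M := 1 / (b : ℝ) ^ z with hM
  have hM0 : 0 ≤ M := by positivity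
  induction T using Finset.induction_on_max with
  | empty =>
    have e1 : Av b z i (i + 1) t (fun n => Phi c w ∅ b t n) = M := by
      unfold Phi
      simp only [Finset.prod_empty]
      rw [Av_one hb hzt (Nat.le_succ i), hM]
      push_cast
      ring
    rw [e1, Finset.sum_empty, neg_zero, Real.exp_zero, mul_one, sub_self, abs_zero, Finset.sum_empty]
    unfold errB
    rw [Finset.sum_empty, mul_zero, mul_zero, add_zero]
  | insert q T hqT ih =>
    have hqT' : q ∉ T := fun hq => by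
      have := hqT q hq
      omega
    have ih' := ih (fun p hp => hT p (mem_insert_of_mem hp))
    obtain ⟨hqP, hqz, hqz2, hqt⟩ := hT q (mem_insert_self _ _)
    have hqP1 : P1 ≤ q := by omega
    have hqP2 : P2 ≤ q := by omega
    have hqP3 : P3 ≤ q := by omega
    have hq1 : 1 ≤ q := by omega
    have hq0 : (0 : ℝ) < q := by exact_mod_cast hq1
    have hst := hP1 q hqP1 z hqz2 i hi1 hi2 t hqt T (fun p hp => by
      obtain ⟨h1, h2, h3, h4⟩ := hT p (mem_insert_of_mem hp)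
      exact ⟨by omega, h2, hqT p hp⟩) w hw
    rw [errB_insert b κ0 hqT, Finset.sum_insert hqT', Finset.sum_insert hqT']
    set S := ∑ p ∈ T.filter (fun p : ℕ => κ0 * q < p), WB b p q with hS
    have hS0 : 0 ≤ S := Finset.sum_nonneg fun p _ => WB_nonneg b p q
    set A1 := Av b z i (i + 1) t (fun n => Phi c w T b t n) with hA1
    set A2 := Av b z i (i + 1) t (fun n => Phi c w (insert q T) b t n) with hA2
    set x := w q * (kap b * (Real.log q / q)) with hx
    set s := ∑ q ∈ T, w q * (kap b * (Real.log q / q)) with hs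
    set E1 := ∑ q ∈ T, EE c b κ0 z i q with hE1
    have hE10 : 0 ≤ E1 := Finset.sum_nonneg fun p _ => EE_nonneg c b κ0 z i p
    have hlq := lg_nonneg q
    have hκq : 0 ≤ kap b * (Real.log q / q) := mul_nonneg hκb hlq
    have hx0 : 0 ≤ x := mul_nonneg (hw q).1 hκq
    have hx1 : x ≤ kap b * (Real.log q / q) := mul_le_of_le_one_left hκq (hw q).2
    have hx2 : x ≤ 1 := hx1.trans (hP3 q hqP3)
    have hs0 : 0 ≤ s := Finset.sum_nonneg fun p _ =>
      mul_nonneg (hw p).1 (mul_nonneg hκb (lg_nonneg p))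
    have hes : Real.exp (-s) ≤ 1 := Real.exp_le_one_iff.2 (by linarith)
    have hes0 : 0 < Real.exp (-s) := Real.exp_pos _
    have e2 : Real.exp (-(x + s)) = Real.exp (-x) * Real.exp (-s) := by
      rw [← Real.exp_add]; congr 1; ring
    have h6 : x ^ 2 ≤ C2 * (1 / q) := by
      have h7 := hP2 q hqP2
      calc x ^ 2 ≤ (kap b * (Real.log q / q)) ^ 2 := by gcongr
        _ = kap b ^ 2 * ((Real.log q) ^ 2 / q * (1 / q)) := by field_simp
        _ ≤ C2 * (1 * (1 / q)) := by gcongr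
        _ = _ := by ring
    have h7 := exp_second hx0
    have e3 : A2 - M * Real.exp (-(x + s)) = (A2 - (1 - x) * A1) + (1 - x) * (A1 - M * Real.exp (-s)) +
        M * Real.exp (-s) * (1 - x - Real.exp (-x)) := by
      rw [e2]; ring
    rw [e3]
    refine (abs_add_three _ _ _).trans ?_
    have h8 : |(1 - x) * (A1 - M * Real.exp (-s))| ≤ E1 + M * ((C1 + C2) * errB b κ0 T) := by
      rw [abs_mul, abs_of_nonneg (by linarith : 0 ≤ 1 - x)]
      exact (mul_le_of_le_one_left (abs_nonneg _) (by linarith)).trans ih'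
    have h9 : |M * Real.exp (-s) * (1 - x - Real.exp (-x))| ≤ M * (C2 * (1 / q)) := by
      rw [abs_mul, abs_of_nonneg (by positivity : 0 ≤ M * Real.exp (-s))]
      calc M * Real.exp (-s) * |1 - x - Real.exp (-x)| ≤ M * 1 * (C2 * (1 / q)) := by
            gcongr
            exact h7.trans h6
        _ = _ := by ring
    have h10 : 0 ≤ M * (C2 * S) := by positivity
    have h11 : 0 ≤ M * (C1 * (1 / q)) := by positivity
    have e4 : M * ((C1 + C2) * (1 / (q : ℝ) + S + errB b κ0 T)) =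
      M * (C1 * (1 / q)) + M * (C2 * (1 / q)) + M * (C1 * S) + M * (C2 * S) +
        M * ((C1 + C2) * errB b κ0 T) := by ring
    rw [e4]
    linarith

/-- the mean of the differences -/
theorem EE_meanU (A : ℕ) (hA64 : 64 ≤ A) :
    ∃ κ0 : ℝ, 0 < κ0 ∧ κ0 < 1 / 2 ∧ ∀ (b : ℕ) (c : ℕ → ℤ), Ok b A c →
    ∀ m a1 a2 : ℕ, 1 ≤ a1 → a1 ≤ a2 → ∃ C : ℝ, 0 < C ∧
    ∃ P : ℕ, ∀ q ≥ P, ∀ z : ℕ, m ≤ z → (z : ℝ) ≤ κ0 * q →
    ∑ i ∈ Ico (a1 * b ^ (z - m)) (a2 * b ^ (z - m)), EE c b κ0 z i q ≤ C * (1 / q) := by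
  obtain ⟨κ0, hκ0, hκ1, hU⟩ := fm_shU A hA64
  refine ⟨κ0, hκ0, hκ1, fun b c hOk m a1 a2 h1 h12 => ?_⟩
  have hb := hOk.hb
  have hb0 : (0 : ℝ) < b := by positivity
  obtain ⟨K, hK, h⟩ := hU b c hOk
  obtain ⟨P, hP⟩ := h (m + a2)
  obtain ⟨P4, hP4⟩ := eventually_atTop.1 (Pool.Agent.N176.GP.grow (κ0 * Real.log 2) 2
    (mul_pos hκ0 (Real.log_pos (by norm_num))))
  obtain ⟨P5, hP5⟩ := exists_nat_ge ((m + a2 + 1) / κ0)
  refine ⟨K * (b : ℝ) ^ (m + a2), by positivity, max P (max P4 (max P5 1)),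
    fun q hq z hmz hzq => ?_⟩
  have hqP : P ≤ q := by omega
  have hqP4 : P4 ≤ q := by omega
  have hqP5 : P5 ≤ q := by omega
  have hq1 : 1 ≤ q := by omega
  have hq0 : (0 : ℝ) < q := by exact_mod_cast hq1
  have hqr : (1 : ℝ) ≤ q := by exact_mod_cast hq1
  set y := ⌊κ0 * q⌋₊ with hy
  have hy1 : (y : ℝ) ≤ κ0 * q := Nat.floor_le (by positivity)
  have hy2 : κ0 * q < y + 1 := Nat.lt_floor_add_one _
  have hzy : z ≤ y := Nat.le_floor hzq
  have hy3 : m + a2 ≤ y := by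
    have h2 : ((m : ℝ) + a2 + 1) ≤ κ0 * q := by
      rw [div_le_iff₀ hκ0] at hP5
      calc ((m : ℝ) + a2 + 1) ≤ P5 * κ0 := hP5
        _ ≤ q * κ0 := mul_le_mul_of_nonneg_right (by exact_mod_cast hqP5) hκ0.le
        _ = _ := mul_comm _ _
    have h3 : ((m + a2 : ℕ) : ℝ) < (y : ℝ) + 1 := by push_cast; linarith
    have h4 : m + a2 < y + 1 := by exact_mod_cast h3
    omega
  have hy4 : q ≤ b ^ y := by
    have h2 := hP4 q hqP4
    have h3 : (q : ℝ) ≤ (2 : ℝ) ^ y := by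
      have e : (2 : ℝ) ^ y = Real.exp (y * Real.log 2) := by
        rw [mul_comm, Real.exp_mul, Real.exp_log (by norm_num), Real.rpow_natCast]
      have h4 : Real.exp (κ0 * Real.log 2 * q) ≤ 2 * Real.exp (y * Real.log 2) := by
        have e2 : (2 : ℝ) * Real.exp (y * Real.log 2) = Real.exp ((y + 1) * Real.log 2) := by
          rw [add_mul, one_mul, Real.exp_add, Real.exp_log (by norm_num), mul_comm]
        rw [e2, Real.exp_le_exp]
        have := Real.log_pos (show (1 : ℝ) < 2 by norm_num)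
        nlinarith
      rw [e]
      nlinarith
    have h5 : (2 : ℝ) ^ y ≤ (b : ℝ) ^ y := by
      gcongr
      exact_mod_cast hb
    exact_mod_cast h3.trans h5
  have hsub : Ico (a1 * b ^ (y - m)) (a2 * b ^ (y - m)) ⊆
      Ico (b ^ (y - (m + a2))) (b ^ (y + (m + a2))) := by
    intro j hj
    rw [mem_Ico] at hj ⊢
    have h4 : a2 < b ^ a2 := Nat.lt_pow_self (by omega)
    have h5 : b ^ (y - (m + a2)) ≤ b ^ (y - m) := Nat.pow_le_pow_right (by omega) (by omega)
    have h6 : b ^ (y - m) ≤ a1 * b ^ (y - m) := Nat.le_mul_of_pos_left _ h1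
    have h7 : a2 * b ^ (y - m) ≤ b ^ a2 * b ^ (y - m) := Nat.mul_le_mul_right _ h4.le
    have h8 : b ^ a2 * b ^ (y - m) ≤ b ^ (y + (m + a2)) := by
      rw [← pow_add]
      exact Nat.pow_le_pow_right (by omega) (by omega)
    omega
  have hsum : ∑ j ∈ Ico (a1 * b ^ (y - m)) (a2 * b ^ (y - m)),
        |(cnt c b y j q : ℝ) / (b : ℝ) ^ (q - y) - kap b * (Real.log q / q)| ≤
      (b : ℝ) ^ (y + (m + a2)) * (K / q) :=
    (Finset.sum_le_sum_of_subset_of_nonneg hsub fun _ _ _ => abs_nonneg _).trans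
      (hP q hqP y hy3 hy1 hy4)
  have e1 : ∑ i ∈ Ico (a1 * b ^ (z - m)) (a2 * b ^ (z - m)), EE c b κ0 z i q =
      (∑ j ∈ Ico (a1 * b ^ (y - m)) (a2 * b ^ (y - m)),
        |(cnt c b y j q : ℝ) / (b : ℝ) ^ (q - y) - kap b * (Real.log q / q)|) / (b : ℝ) ^ y := by
    have h2 := Av_split (b := b) (m := m) (a1 := a1) (a2 := a2) (z := z) (t := y) hmz hzy h12
      (fun j => |(cnt c b y j q : ℝ) / (b : ℝ) ^ (q - y) - kap b * (Real.log q / q)|)
    unfold Av at h2
    rw [h2]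
    refine Finset.sum_congr rfl fun i _ => ?_
    unfold EE
    rw [← hy]
  rw [e1, div_le_iff₀ (by positivity)]
  refine hsum.trans (le_of_eq ?_)
  rw [pow_add]
  ring

end Run7.h854.LB
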