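import Mathlib
import Pool.Agent.Run7.h854.PQ.Ces

set_option autoImplicit false

/-!
# Means of bounded sequences, up to an error
-/

namespace Run7.h854.LB

open Finset Filter Topology

/-- the means of the sequence are eventually within `η` of `l`, up to every `ε` -/
def CesE (x : ℕ → ℝ) (l η : ℝ) : Prop :=
  ∀ ε : ℝ, 0 < ε → ∀ᶠ J : ℕ in atTop, |(∑ j ∈ range J, x j) / (J : ℝ) - l| ≤ η + ε

lemma CesE.congr {x y : ℕ → ℝ} {l η : ℝ} (hx : CesE x l η) (h : ∀ j, x j = y j) : CesE y l η := by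
  have : x = y := funext h
  rwa [← this]

lemma CesE.mono {x : ℕ → ℝ} {l η η' : ℝ} (hx : CesE x l η) (h : η ≤ η') : CesE x l η' := by
  intro ε hε
  filter_upwards [hx ε hε] with J hJ
  linarith

/-- comparison of two means -/
lemma avg_close {x : ℕ → ℝ} (hx : ∀ j, 0 ≤ x j ∧ x j ≤ 1) {J' J : ℕ} (h1 : 1 ≤ J') (h2 : J' ≤ J) :
    |(∑ j ∈ range J, x j) / (J : ℝ) - (∑ j ∈ range J', x j) / (J' : ℝ)| ≤ ((J : ℝ) - J') / J := by
  have hJ' : (0 : ℝ) < J' := by exact_mod_cast h1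
  have hJ : (0 : ℝ) < J := by exact_mod_cast (by omega : 0 < J)
  have hJJ : (J' : ℝ) ≤ J := by exact_mod_cast h2
  set S := ∑ j ∈ range J, x j with hS
  set S' := ∑ j ∈ range J', x j with hS'
  have h3 : S' ≤ S := Finset.sum_le_sum_of_subset_of_nonneg (Finset.range_mono h2) fun j _ _ => (hx j).1
  have h4 : S - S' ≤ (J : ℝ) - J' := by
    have e1 : S = S' + ∑ j ∈ range (J - J'), x (J' + j) := by
      rw [hS, hS', ← Finset.sum_range_add]
      congr 2
      omega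
    rw [e1, add_sub_cancel_left]
    calc ∑ j ∈ range (J - J'), x (J' + j) ≤ ∑ j ∈ range (J - J'), (1 : ℝ) :=
          Finset.sum_le_sum fun j _ => (hx _).2
      _ = ((J - J' : ℕ) : ℝ) := by simp
      _ = (J : ℝ) - J' := by rw [Nat.cast_sub h2]
  have h5 : 0 ≤ S' := Finset.sum_nonneg fun j _ => (hx j).1
  have h6 : S' ≤ J' := by
    calc S' ≤ ∑ j ∈ range J', (1 : ℝ) := Finset.sum_le_sum fun j _ => (hx _).2
      _ = J' := by simp
  have e2 : S / (J : ℝ) - S' / (J' : ℝ) = (S - S') / J - S' / J' * (((J : ℝ) - J') / J) := by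
    field_simp
    ring
  have h7 : 0 ≤ (S - S') / J := div_nonneg (by linarith) hJ.le
  have h8 : (S - S') / J ≤ ((J : ℝ) - J') / J := div_le_div_of_nonneg_right h4 hJ.le
  have h9 : 0 ≤ ((J : ℝ) - J') / J := div_nonneg (by linarith) hJ.le
  have h10 : 0 ≤ S' / J' := div_nonneg h5 hJ'.le
  have h11 : S' / J' ≤ 1 := by rw [div_le_one hJ']; exact h6
  have h12 : 0 ≤ S' / J' * (((J : ℝ) - J') / J) := mul_nonneg h10 h9
  have h13 : S' / J' * (((J : ℝ) - J') / J) ≤ ((J : ℝ) - J') / J := mul_le_of_le_one_left h9 h11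
  rw [e2, abs_le]
  constructor <;> linarith

lemma cesE_sub {x : ℕ → ℝ} (hx : ∀ j, 0 ≤ x j ∧ x j ≤ 1) {l η : ℝ} (u g : ℕ → ℕ)
    (hg : Tendsto g atTop atTop) (hu : ∀ᶠ J in atTop, 1 ≤ u (g J) ∧ u (g J) ≤ J)
    (hlim : Tendsto (fun J : ℕ => ((J : ℝ) - u (g J)) / J) atTop (𝓝 0))
    (h : ∀ ε : ℝ, 0 < ε → ∀ᶠ i : ℕ in atTop, |(∑ j ∈ range (u i), x j) / ((u i : ℕ) : ℝ) - l| ≤ η + ε) :
    CesE x l η := by
  intro ε hε
  filter_upwards [hu, hlim.eventually_lt_const (show 0 < ε / 2 by positivity),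
    hg.eventually (h (ε / 2) (by positivity))] with J h1 h2 h3
  have h4 := avg_close hx h1.1 h1.2
  have h5 := abs_sub_le ((∑ j ∈ range J, x j) / (J : ℝ))
    ((∑ j ∈ range (u (g J)), x j) / ((u (g J) : ℕ) : ℝ)) l
  linarith

/-- fourth powers -/
lemma cesE_quartic {x : ℕ → ℝ} (hx : ∀ j, 0 ≤ x j ∧ x j ≤ 1) {l η : ℝ}
    (h : ∀ ε : ℝ, 0 < ε → ∀ᶠ i : ℕ in atTop,
      |(∑ j ∈ range ((i + 1) ^ 4), x j) / (((i + 1) ^ 4 : ℕ) : ℝ) - l| ≤ η + ε) : CesE x l η := by
  set g : ℕ → ℕ := fun J => Nat.sqrt (Nat.sqrt J) - 1 with hg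
  have hss : Tendsto (fun J : ℕ => Nat.sqrt (Nat.sqrt J)) atTop atTop := by
    rw [tendsto_atTop]
    intro N
    filter_upwards [eventually_ge_atTop (N ^ 2 * N ^ 2)] with J hJ
    rw [Nat.le_sqrt', Nat.le_sqrt']
    calc (N ^ 2) ^ 2 = N ^ 2 * N ^ 2 := by ring
      _ ≤ J := hJ
  have hgt : Tendsto g atTop atTop := by
    rw [tendsto_atTop]
    intro N
    filter_upwards [hss.eventually_ge_atTop (N + 1)] with J hJ
    rw [hg]
    simp only
    omega
  have hb : ∀ J : ℕ, 1 ≤ J → (g J + 1) ^ 4 ≤ J ∧ J < (g J + 2) ^ 4 := by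
    intro J hJ
    have h1 : 1 ≤ Nat.sqrt (Nat.sqrt J) := by
      rw [Nat.le_sqrt, Nat.le_sqrt]
      simpa using hJ
    have h2 : g J + 1 = Nat.sqrt (Nat.sqrt J) := by rw [hg]; simp only; omega
    constructor
    · rw [h2]
      have h3 := Nat.sqrt_le' (Nat.sqrt J)
      have h4 := Nat.sqrt_le' J
      calc (Nat.sqrt (Nat.sqrt J)) ^ 4 = ((Nat.sqrt (Nat.sqrt J)) ^ 2) ^ 2 := by ring
        _ ≤ (Nat.sqrt J) ^ 2 := Nat.pow_le_pow_left h3 2
        _ ≤ J := h4
    · have h3 : Nat.sqrt J < (g J + 2) ^ 2 := by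
        have h4 := Nat.lt_succ_sqrt' (Nat.sqrt J)
        have h5 : Nat.succ (Nat.sqrt (Nat.sqrt J)) = g J + 2 := by omega
        rw [h5] at h4
        exact h4
      have h4 := Nat.lt_succ_sqrt' J
      calc J < (Nat.succ (Nat.sqrt J)) ^ 2 := h4
        _ ≤ ((g J + 2) ^ 2) ^ 2 := Nat.pow_le_pow_left h3 2
        _ = (g J + 2) ^ 4 := by ring
  refine cesE_sub hx (fun i => (i + 1) ^ 4) g hgt ?_ ?_ h
  · filter_upwards [eventually_ge_atTop 1] with J hJ
    exact ⟨Nat.one_le_pow _ _ (Nat.succ_pos _), (hb J hJ).1⟩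
  · have h1 : Tendsto (fun i : ℕ => 1 - (1 - 1 / ((i : ℝ) + 1 + 1)) ^ 4) atTop (𝓝 (1 - (1 - 0) ^ 4)) := by
      refine tendsto_const_nhds.sub ((tendsto_const_nhds.sub ?_).pow 4)
      have h2 := (tendsto_add_atTop_iff_nat (f := fun n : ℕ => 1 / ((n : ℝ) + 1)) 1).2
        tendsto_one_div_add_atTop_nhds_zero_nat
      refine h2.congr fun i => ?_
      push_cast
      rfl
    rw [sub_zero, one_pow, sub_self] at h1
    refine squeeze_zero' ?_ ?_ (h1.comp hgt)
    · filter_upwards [eventually_ge_atTop 1] with J hJ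
      have h2 : (((g J + 1) ^ 4 : ℕ) : ℝ) ≤ J := by exact_mod_cast (hb J hJ).1
      exact div_nonneg (by linarith) (Nat.cast_nonneg J)
    · filter_upwards [eventually_ge_atTop 1] with J hJ
      have hJ0 : (0 : ℝ) < J := by exact_mod_cast hJ
      have h3 : (J : ℝ) ≤ ((g J : ℝ) + 2) ^ 4 := by exact_mod_cast (hb J hJ).2.le
      simp only [Function.comp]
      rw [div_le_iff₀ hJ0]
      have hg0 : (0 : ℝ) < (g J : ℝ) + 1 + 1 := by positivity
      have e1 : (1 - 1 / ((g J : ℝ) + 1 + 1)) ^ 4 = ((g J : ℝ) + 1) ^ 4 / ((g J : ℝ) + 1 + 1) ^ 4 := by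
        rw [← div_pow]
        congr 1
        field_simp
        ring
      rw [e1, sub_mul, one_mul]
      have h4 : ((g J : ℝ) + 1) ^ 4 / ((g J : ℝ) + 1 + 1) ^ 4 * J ≤ ((g J : ℝ) + 1) ^ 4 := by
        rw [div_mul_eq_mul_div, div_le_iff₀ (by positivity)]
        refine mul_le_mul_of_nonneg_left ?_ (by positivity)
        have : (g J : ℝ) + 1 + 1 = (g J : ℝ) + 2 := by ring
        rw [this]
        exact h3
      push_cast
      linarith

/-- all residue classes -/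
lemma cesE_mod {x : ℕ → ℝ} (hx : ∀ j, 0 ≤ x j ∧ x j ≤ 1) {l η : ℝ} {M : ℕ} (hM : 1 ≤ M)
    (h : ∀ r < M, CesE (fun j => x (r + M * j)) l η) : CesE x l η := by
  have hM0 : (0 : ℝ) < M := by exact_mod_cast hM
  refine cesE_sub hx (fun i => M * i) (fun J => J / M) ?_ ?_ ?_ ?_
  · rw [tendsto_atTop]
    intro N
    filter_upwards [eventually_ge_atTop (N * M)] with J hJ
    exact (Nat.le_div_iff_mul_le hM).2 hJ
  · filter_upwards [eventually_ge_atTop M] with J hJ
    refine ⟨?_, Nat.mul_div_le J M⟩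
    have : 1 ≤ J / M := (Nat.one_le_div_iff hM).2 hJ
    exact Nat.mul_pos hM this
  · have h1 : Tendsto (fun J : ℕ => (M : ℝ) / (J : ℝ)) atTop (𝓝 0) :=
      tendsto_const_div_atTop_nhds_zero_nat _
    refine squeeze_zero (fun J => ?_) (fun J => ?_) h1
    · have h2 : ((M * (J / M) : ℕ) : ℝ) ≤ J := by exact_mod_cast Nat.mul_div_le J M
      exact div_nonneg (by linarith) (Nat.cast_nonneg J)
    · refine div_le_div_of_nonneg_right ?_ (Nat.cast_nonneg J)
      have h2 := Nat.lt_mul_div_succ J hM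
      have h3 : (J : ℝ) < ((M * (J / M + 1) : ℕ) : ℝ) := by exact_mod_cast h2
      push_cast at h3 ⊢
      linarith
  · intro ε hε
    have h1 : ∀ᶠ i : ℕ in atTop, ∀ r ∈ range M, |(∑ j ∈ range i, x (r + M * j)) / (i : ℝ) - l| ≤ η + ε :=
      (Finset.eventually_all _).2 fun r hr => h r (mem_range.1 hr) ε hε
    filter_upwards [h1, eventually_ge_atTop 1] with i hi hi1
    have hi0 : (0 : ℝ) < i := by exact_mod_cast hi1
    have h4 : ∀ J : ℕ, ∑ j ∈ range J, ∑ r ∈ range M, x (r + M * j) = ∑ j ∈ range (M * J), x j := by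
      intro J
      induction J with
      | zero => simp
      | succ J ih =>
        rw [Finset.sum_range_succ, ih, Nat.mul_succ, Finset.sum_range_add]
        congr 1
        exact Finset.sum_congr rfl fun r _ => by rw [add_comm]
    have e1 : (∑ j ∈ range (M * i), x j) / ((M * i : ℕ) : ℝ) - l =
        (∑ r ∈ range M, ((∑ j ∈ range i, x (r + M * j)) / (i : ℝ) - l)) / M := by
      rw [← h4, Finset.sum_comm, Finset.sum_sub_distrib, Finset.sum_const, card_range, nsmul_eq_mul,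
        ← Finset.sum_div]
      push_cast
      field_simp
    rw [e1, abs_div, abs_of_pos hM0, div_le_iff₀ hM0]
    calc |∑ r ∈ range M, ((∑ j ∈ range i, x (r + M * j)) / (i : ℝ) - l)|
        ≤ ∑ r ∈ range M, |(∑ j ∈ range i, x (r + M * j)) / (i : ℝ) - l| :=
          Finset.abs_sum_le_sum_abs _ _
      _ ≤ ∑ r ∈ range M, (η + ε) := Finset.sum_le_sum hi
      _ = (η + ε) * M := by rw [Finset.sum_const, card_range, nsmul_eq_mul, mul_comm]

/-- a shift, backwards -/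
lemma cesE_unshift {x : ℕ → ℝ} (hx : ∀ j, 0 ≤ x j ∧ x j ≤ 1) {l η : ℝ} (k : ℕ)
    (h : CesE (fun j => x (j + k)) l η) : CesE x l η := by
  intro ε hε
  have h0 : Tendsto (fun J : ℕ => J - k) atTop atTop := by
    rw [tendsto_atTop]
    intro N
    filter_upwards [eventually_ge_atTop (N + k)] with J hJ
    omega
  have h1 : Tendsto (fun J : ℕ => 2 * (k : ℝ) / (J : ℝ)) atTop (𝓝 0) :=
    tendsto_const_div_atTop_nhds_zero_nat _
  filter_upwards [h0.eventually (h (ε / 2) (by positivity)), eventually_ge_atTop (k + 1),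
    h1.eventually_le_const (show 0 < ε / 2 by positivity)] with J h2 h3 h4
  obtain ⟨m, hm⟩ : ∃ m, J = m + k := ⟨J - k, by omega⟩
  subst hm
  have hm1 : 1 ≤ m := by omega
  have hm0 : (0 : ℝ) < m := by exact_mod_cast hm1
  have hmk : (0 : ℝ) < ((m + k : ℕ) : ℝ) := by push_cast; positivity
  rw [Nat.add_sub_cancel] at h2
  have h6 : ∑ j ∈ range (m + k), x j = ∑ j ∈ range k, x j + ∑ j ∈ range m, x (j + k) := by
    rw [add_comm m k, Finset.sum_range_add]
    congr 1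
    exact Finset.sum_congr rfl fun j _ => by rw [add_comm]
  set S := ∑ j ∈ range m, x (j + k) with hS
  set S0 := ∑ j ∈ range k, x j with hS0
  have g1 : 0 ≤ S := Finset.sum_nonneg fun j _ => (hx _).1
  have g2 : S ≤ m := by
    calc S ≤ ∑ j ∈ range m, (1 : ℝ) := Finset.sum_le_sum fun j _ => (hx _).2
      _ = m := by simp
  have g3 : 0 ≤ S0 := Finset.sum_nonneg fun j _ => (hx _).1
  have g4 : S0 ≤ k := by
    calc S0 ≤ ∑ j ∈ range k, (1 : ℝ) := Finset.sum_le_sum fun j _ => (hx _).2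
      _ = k := by simp
  have h7 : |(S0 + S) / ((m + k : ℕ) : ℝ) - S / (m : ℝ)| ≤ 2 * (k : ℝ) / ((m + k : ℕ) : ℝ) := by
    have e1 : (S0 + S) / ((m + k : ℕ) : ℝ) - S / (m : ℝ) =
        (S0 - S / m * k) / ((m + k : ℕ) : ℝ) := by
      push_cast
      field_simp
      ring
    have h8 : S / m ≤ 1 := by rw [div_le_one hm0]; exact g2
    have h9 : 0 ≤ S / m := div_nonneg g1 hm0.le
    have hk0 : (0 : ℝ) ≤ k := Nat.cast_nonneg k
    have h10 : S / m * k ≤ k := mul_le_of_le_one_left hk0 h8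
    have h11 : 0 ≤ S / m * k := mul_nonneg h9 hk0
    rw [e1, abs_div, abs_of_pos hmk]
    refine div_le_div_of_nonneg_right ?_ hmk.le
    rw [abs_le]
    constructor <;> linarith
  rw [h6]
  have h8 := abs_sub_le ((S0 + S) / ((m + k : ℕ) : ℝ)) (S / (m : ℝ)) l
  linarith

end Run7.h854.LB
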