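import Mathlib
import Pool.Agent.Run7.h854.PQ.Win
import Pool.Agent.Run7.h854.PQ.ErrLe
import Pool.Agent.Run7.h854.LB.Cell

set_option autoImplicit false

/-!
# Weights of sets of primes
-/

namespace Run7.h854.LB

open Finset Filter Topology
open Pool.Agent.N176.OW (kap)
open Run7.h854.PO Run7.h854.PQ

lemma V_split (S : Set ℕ) {m n : ℕ} (h : m ≤ n) [DecidablePred fun p => p ∈ S] :
    V S n = V S m + ∑ p ∈ (Ioc m n).filter (fun p => p ∈ S), Real.log p / (p : ℝ) := by
  classical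
  unfold V
  rw [← Finset.sum_union]
  · refine Finset.sum_congr ?_ fun _ _ => rfl
    ext p
    simp only [mem_union, mem_filter, mem_range, mem_Ioc]
    constructor
    · rintro ⟨h1, h2⟩
      rcases Nat.lt_or_ge m p with h3 | h3
      · exact Or.inr ⟨⟨h3, by omega⟩, h2⟩
      · exact Or.inl ⟨by omega, h2⟩
    · rintro (⟨h1, h2⟩ | ⟨⟨h1, h3⟩, h2⟩)
      · exact ⟨by omega, h2⟩
      · exact ⟨by omega, h2⟩
  · rw [Finset.disjoint_left]
    intro p hp hp'
    simp only [mem_filter, mem_range, mem_Ioc] at hp hp'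
    omega

/-- the weight of a dyadic block -/
lemma V_double {S : Set ℕ} (hS : ∀ p ∈ S, p.Prime) {n : ℕ} (hn : 1 ≤ n) :
    V S (2 * n) - V S n ≤ 2 * Real.log 4 := by
  classical
  have hn0 : (0 : ℝ) < n := by exact_mod_cast hn
  rw [V_split S (show n ≤ 2 * n by omega), add_sub_cancel_left]
  have h1 : ∑ p ∈ (Ioc n (2 * n)).filter (fun p => p ∈ S), Real.log p / (p : ℝ) ≤
      (∑ p ∈ (range (2 * n + 1)).filter Nat.Prime, Real.log p) / n := by
    rw [Finset.sum_div]
    calc ∑ p ∈ (Ioc n (2 * n)).filter (fun p => p ∈ S), Real.log p / (p : ℝ)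
        ≤ ∑ p ∈ (Ioc n (2 * n)).filter (fun p => p ∈ S), Real.log p / (n : ℝ) := by
          refine Finset.sum_le_sum fun p hp => ?_
          rw [mem_filter, mem_Ioc] at hp
          refine div_le_div_of_nonneg_left (Real.log_natCast_nonneg p) hn0 ?_
          exact_mod_cast hp.1.1.le
      _ ≤ _ := by
          refine Finset.sum_le_sum_of_subset_of_nonneg ?_ fun p _ _ =>
            div_nonneg (Real.log_natCast_nonneg p) hn0.le
          intro p hp
          rw [mem_filter, mem_Ioc] at hp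
          rw [mem_filter, mem_range]
          exact ⟨by omega, hS p hp.2⟩
  refine h1.trans ?_
  rw [div_le_iff₀ hn0]
  have h2 : ∑ p ∈ (range (2 * n + 1)).filter Nat.Prime, Real.log p = Real.log (primorial (2 * n)) := by
    unfold primorial
    push_cast
    rw [Real.log_prod]
    intro p hp
    rw [mem_filter] at hp
    exact_mod_cast hp.2.ne_zero
  rw [h2]
  have h3 : Real.log (primorial (2 * n)) ≤ Real.log ((4 : ℝ) ^ (2 * n)) := by
    refine Real.log_le_log (by exact_mod_cast primorial_pos _) ?_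
    exact_mod_cast primorial_le_four_pow (2 * n)
  rw [Real.log_pow] at h3
  push_cast at h3
  linarith

lemma V_pow {S : Set ℕ} (hS : ∀ p ∈ S, p.Prime) {n : ℕ} (hn : 1 ≤ n) (k : ℕ) :
    V S (2 ^ k * n) - V S n ≤ k * (2 * Real.log 4) := by
  induction k with
  | zero => simp
  | succ k ih =>
    have h1 := V_double hS (n := 2 ^ k * n) (Nat.mul_pos (by positivity) hn)
    have e : 2 ^ (k + 1) * n = 2 * (2 ^ k * n) := by ring
    rw [e]
    push_cast
    linarith

/-- the weight of the elements between `n` and `K n` -/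
lemma V_mul {S : Set ℕ} (hS : ∀ p ∈ S, p.Prime) {n : ℕ} (hn : 1 ≤ n) (K : ℕ) :
    V S (K * n) - V S n ≤ K * (2 * Real.log 4) := by
  have h1 : K ≤ 2 ^ K := Nat.lt_two_pow_self.le
  have h2 := V_mono S (Nat.mul_le_mul_right n h1)
  have h3 := V_pow hS hn K
  linarith

/-- the weight of the elements a little smaller than `q` -/
lemma near_weightU {κ0 : ℝ} (hκ0 : 0 < κ0) : ∃ L : ℝ, 0 < L ∧ ∃ Q : ℕ, ∀ S : Set ℕ,
    (∀ p ∈ S, p.Prime) → ∀ q ≥ Q, ∀ T : Finset ℕ, (∀ p ∈ T, p ∈ S) →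
      ∑ p ∈ T.filter (fun p : ℕ => κ0 * q < p ∧ p < q), Real.log p / (p : ℝ) ≤ L := by
  obtain ⟨K, hK⟩ := exists_nat_ge (2 / κ0)
  have hK0 : (0 : ℝ) < K := (by positivity : (0 : ℝ) < 2 / κ0).trans_le hK
  have hK1 : 1 ≤ K := by exact_mod_cast hK0
  have h4 : 0 < Real.log 4 := Real.log_pos (by norm_num)
  refine ⟨K * (2 * Real.log 4), by positivity, K, fun S hS q hqK T hT => ?_⟩
  set y := ⌊κ0 * (q : ℝ)⌋₊ with hy
  have hy2 : κ0 * q < y + 1 := Nat.lt_floor_add_one _
  have hqKr : (K : ℝ) ≤ q := by exact_mod_cast hqK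
  have hq0 : (0 : ℝ) < q := hK0.trans_le hqKr
  have h3 : (2 : ℝ) ≤ κ0 * K := by
    rw [div_le_iff₀ hκ0] at hK
    linarith
  have h5 : (1 : ℝ) ≤ y := by
    have h6 : (2 : ℝ) ≤ κ0 * q := h3.trans (mul_le_mul_of_nonneg_left hqKr hκ0.le)
    have h7 : (0 : ℝ) < y := by linarith
    have h8 : 0 < y := by exact_mod_cast h7
    exact_mod_cast h8
  have h4 : q ≤ K * y := by
    have h6 : (q : ℝ) ≤ (K : ℝ) * y := by
      have h7 : κ0 * q ≤ 2 * y := by linarith
      have h8 : (q : ℝ) ≤ 2 / κ0 * y := by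
        rw [div_mul_eq_mul_div, le_div_iff₀ hκ0]
        linarith
      exact h8.trans (mul_le_mul_of_nonneg_right hK (by linarith))
    exact_mod_cast h6
  refine le_trans (V_Ico S (show y ≤ K * y from Nat.le_mul_of_pos_left y hK1) _ fun p hp => ?_)
    (V_mul hS (by exact_mod_cast h5) K)
  rw [mem_filter] at hp
  obtain ⟨h6, h7, h8⟩ := hp
  refine ⟨hT p h6, ?_, by omega⟩
  have h9 : (y : ℝ) < p := (Nat.floor_le (by positivity)).trans_lt h7
  exact_mod_cast h9

/-- the bound for the error term -/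
theorem errB_le {b : ℕ} (hb : 2 ≤ b) {κ0 : ℝ} (T : Finset ℕ) {L : ℝ}
    (hnear : ∀ q ∈ T, ∑ p ∈ T.filter (fun p : ℕ => κ0 * q < p ∧ p < q), Real.log p / (p : ℝ) ≤ L) :
    errB b κ0 T ≤ ∑ q ∈ T, 1 / (q : ℝ) +
      (L + 4) * (1 / Real.log b) ^ 2 * ∑ q ∈ T, Real.log q / (q : ℝ) := by
  classical
  have hb0 : (0 : ℝ) < b := by positivity
  have hb1 : (1 : ℝ) < b := by exact_mod_cast (by omega : 1 < b)
  have hL0 : 0 < Real.log b := Real.log_pos hb1
  have hLb : Real.log b ≤ b := (Real.log_le_sub_one_of_pos hb0).trans (by linarith)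
  set u := 1 / Real.log b with hu
  have hu0 : 0 < u := by positivity
  have hbu : 1 / (b : ℝ) ≤ u := one_div_le_one_div_of_le hL0 hLb
  have e0 : errB b κ0 T = ∑ q ∈ T, 1 / (q : ℝ) +
      ∑ q ∈ T, ∑ p ∈ T.filter (fun p : ℕ => κ0 * q < p ∧ p < q),
        u ^ 2 * (Real.log p / (p : ℝ) * (Real.log q / q)) +
      ∑ q ∈ T, ∑ p ∈ T.filter (fun p : ℕ => κ0 * q < p ∧ p < q),
        u * (Real.log p / (p : ℝ) / (b : ℝ) ^ (q - p)) := by
    unfold errB WB
    rw [← Finset.sum_add_distrib, ← Finset.sum_add_distrib]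
    refine Finset.sum_congr rfl fun q _ => ?_
    rw [add_assoc, ← Finset.sum_add_distrib, Finset.filter_filter]
    congr 1
    refine Finset.sum_congr ?_ fun _ _ => rfl
    ext p
    simp only [mem_filter]
    tauto
  rw [e0]
  have h1 : ∑ q ∈ T, ∑ p ∈ T.filter (fun p : ℕ => κ0 * q < p ∧ p < q),
        u ^ 2 * (Real.log p / (p : ℝ) * (Real.log q / q)) ≤
      L * u ^ 2 * ∑ q ∈ T, Real.log q / (q : ℝ) := by
    rw [Finset.mul_sum]
    refine Finset.sum_le_sum fun q hq => ?_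
    rw [← Finset.mul_sum, ← Finset.sum_mul]
    have := mul_le_mul_of_nonneg_right (hnear q hq) (lg_nonneg q)
    calc u ^ 2 * ((∑ p ∈ T.filter (fun p : ℕ => κ0 * q < p ∧ p < q), Real.log p / (p : ℝ)) *
          (Real.log q / q)) ≤ u ^ 2 * (L * (Real.log q / q)) :=
          mul_le_mul_of_nonneg_left this (by positivity)
      _ = _ := by ring
  have h2 : ∑ q ∈ T, ∑ p ∈ T.filter (fun p : ℕ => κ0 * q < p ∧ p < q),
        u * (Real.log p / (p : ℝ) / (b : ℝ) ^ (q - p)) ≤
      4 * u ^ 2 * ∑ q ∈ T, Real.log q / (q : ℝ) := by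
    have h4 : ∑ q ∈ T, ∑ p ∈ T.filter (fun p : ℕ => κ0 * q < p ∧ p < q),
        u * (Real.log p / (p : ℝ) / (b : ℝ) ^ (q - p)) ≤
        ∑ p ∈ T, ∑ q ∈ T.filter (fun q => p < q), u * (Real.log p / (p : ℝ) / (b : ℝ) ^ (q - p)) := by
      have e : ∑ p ∈ T, ∑ q ∈ T.filter (fun q => p < q), u * (Real.log p / (p : ℝ) / (b : ℝ) ^ (q - p)) =
          ∑ q ∈ T, ∑ p ∈ T.filter (fun p => p < q), u * (Real.log p / (p : ℝ) / (b : ℝ) ^ (q - p)) := by
        simp_rw [Finset.sum_filter]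
        rw [Finset.sum_comm]
      rw [e]
      refine Finset.sum_le_sum fun q _ => ?_
      refine Finset.sum_le_sum_of_subset_of_nonneg ?_ fun p _ _ =>
        mul_nonneg hu0.le (div_nonneg (lg_nonneg p) (by positivity))
      intro p hp
      rw [mem_filter] at hp ⊢
      exact ⟨hp.1, hp.2.2⟩
    refine h4.trans ?_
    rw [Finset.mul_sum]
    refine Finset.sum_le_sum fun p _ => ?_
    have hlp := lg_nonneg p
    have h6 := Pool.Agent.N176.GP.geo_dist hb (T.filter (fun q => p < q)) (p + 1)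
    calc ∑ q ∈ T.filter (fun q => p < q), u * (Real.log p / (p : ℝ) / (b : ℝ) ^ (q - p))
        = ∑ q ∈ T.filter (fun q => p < q), u * (Real.log p / (p : ℝ)) * (1 / (b : ℝ)) *
          ((b : ℝ) ^ ((p + 1 - q) + (q - (p + 1))))⁻¹ := by
          refine Finset.sum_congr rfl fun q hq => ?_
          rw [mem_filter] at hq
          have e : q - p = (p + 1 - q) + (q - (p + 1)) + 1 := by omega
          rw [e, pow_succ]
          field_simp
      _ = u * (Real.log p / (p : ℝ)) * (1 / (b : ℝ)) * ∑ q ∈ T.filter (fun q => p < q),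
          ((b : ℝ) ^ ((p + 1 - q) + (q - (p + 1))))⁻¹ := by rw [Finset.mul_sum]
      _ ≤ u * (Real.log p / (p : ℝ)) * (1 / (b : ℝ)) * 4 := mul_le_mul_of_nonneg_left h6 (by positivity)
      _ ≤ u * (Real.log p / (p : ℝ)) * u * 4 := by gcongr
      _ = _ := by ring
  have e1 : (L + 4) * u ^ 2 * ∑ q ∈ T, Real.log q / (q : ℝ) =
      L * u ^ 2 * ∑ q ∈ T, Real.log q / (q : ℝ) + 4 * u ^ 2 * ∑ q ∈ T, Real.log q / (q : ℝ) := by ring
  rw [e1, ← add_assoc]
  exact add_le_add (add_le_add le_rfl h1) h2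

section
variable {κ : ℝ} {S : Set ℕ}

/-- the levels grow -/
lemma lev_growU (hκ : 0 < κ) (hSp : ∀ p ∈ S, p.Prime) (hS : Tendsto (V S) atTop atTop) {K : ℕ}
    (hK : 1 ≤ K) {δ : ℝ} (hδ : κ * (K * (2 * Real.log 4)) < δ) :
    ∀ᶠ x : ℝ in atTop, K * lev κ S (x - δ) ≤ lev κ S x := by
  have h1 : Tendsto (fun x : ℝ => lev κ S (x - δ)) atTop atTop := by
    have h2 : Tendsto (fun x : ℝ => x + -δ) atTop atTop :=
      tendsto_atTop_add_const_right atTop (-δ) tendsto_id
    simp only [← sub_eq_add_neg] at h2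
    exact (lev_large hκ hS).comp h2
  have h2 := (log_div_tendsto.comp h1).const_mul κ
  rw [mul_zero] at h2
  filter_upwards [h2.eventually_lt_const (show 0 < δ - κ * (K * (2 * Real.log 4)) by linarith),
    h1.eventually_ge_atTop 1] with x hx h3
  simp only [Function.comp] at hx
  set n := lev κ S (x - δ) with hn
  by_contra h
  push Not at h
  have h4 : x < κ * V S (K * n) := (lev_le_iff hκ hS x _).1 h.le
  have h5 : κ * V S (n - 1) ≤ x - δ := by
    by_contra h6
    push Not at h6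
    have h7 := (lev_le_iff hκ hS (x - δ) _).2 h6
    omega
  have h6 := V_succ S (n - 1)
  have h7 : n - 1 + 1 = n := by omega
  rw [h7] at h6
  have h8 := mul_le_mul_of_nonneg_left (V_mul hSp h3 K) hκ.le
  have h9 := mul_le_mul_of_nonneg_left h6 hκ.le
  linarith

end

end Run7.h854.LB
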