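import Mathlib
import Pool.Agent.Run7.h854.PQ.Grid
import Pool.Agent.Run7.h854.LB.AE
import Pool.Agent.Run7.h854.LB.Weights

set_option autoImplicit false

/-!
# The generating functions of the numbers of exponents in the windows of a grid, up to an error
-/

namespace Run7.h854.LB

open Finset Filter Topology MeasureTheory
open Pool.Agent.H305R2 (roughPart)
open Pool.Agent.N176.OW (cell kap S_FM)
open Pool.Agent.N176.SH
open Pool.Agent.N176.GP (NB NB_spec NB_div)
open Run7.h854.PO Run7.h854.PQ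

theorem grid_pgfU (A : ℕ) (hA64 : 64 ≤ A) : ∃ (C : ℝ) (Kc : ℕ), 0 < C ∧
    ∀ (b : ℕ) (c : ℕ → ℤ), Ok b A c → ∀ (S : Set ℕ), (∀ p ∈ S, p.Prime) →
    Tendsto (V S) atTop atTop → ∀ (R : ℕ) (α α' : Fin R → ℝ) (l l' x0 : ℝ),
    (∀ s, 0 ≤ α s ∧ α s ≤ α' s ∧ α' s ≤ l) →
    (∀ s s', s ≠ s' → α' s ≤ α s' ∨ α' s' ≤ α s) → 0 ≤ l →
    l + kap b * (Kc * (2 * Real.log 4)) < l' → 0 ≤ x0 →
    ∀ (θ : Fin R → ℝ), (∀ s, 0 ≤ θ s ∧ θ s ≤ 1) →
    ∀ᵐ β : ℝ, 0 < β → CesE (fun j : ℕ => ∏ s, θ s ^
      (good c b β (win (kap b) S (x0 + j * l' + α s) (x0 + j * l' + α' s))).card)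
      (Real.exp (-(∑ s, (1 - θ s) * (α' s - α s)))) (C * ((l + 1) / Real.log b)) := by
  classical
  obtain ⟨κ0, C1, hκ0, hκ1, hC1, hmainU⟩ := at_mainU A hA64
  obtain ⟨L, hL, Q, hQ⟩ := near_weightU hκ0
  obtain ⟨Kc, hKc⟩ := exists_nat_ge (2 * A + 1 / κ0 + 2)
  have hKcA : 2 * A ≤ Kc := by
    have : ((2 * A : ℕ) : ℝ) ≤ Kc := by
      push_cast
      have : 0 < 1 / κ0 := by positivity
      linarith
    exact_mod_cast this
  have hKcκ : 1 ≤ κ0 * Kc := by
    have h1 : 1 / κ0 ≤ Kc := by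
      have : (0 : ℝ) ≤ A := Nat.cast_nonneg A
      linarith
    rw [div_le_iff₀ hκ0] at h1
    linarith
  have hKc2 : 2 ≤ Kc := by omega
  set G0 := Real.exp Real.eulerMascheroniConstant with hG0
  have hG00 : 0 < G0 := Real.exp_pos _
  refine ⟨C1 * ((L + 4) / G0), Kc, by positivity, fun b c hOk S hSp hSi R α α' l l' x0 h0 hd hl0 hl hx0
    θ hθ => ?_⟩
  have hb := hOk.hb
  have hb0 : (0 : ℝ) < b := by positivity
  have hLb0 : 0 < Real.log b := Real.log_pos (by exact_mod_cast hb)
  have hκ : 0 < kap b := div_pos (Real.exp_pos _) (Real.log_pos (by exact_mod_cast hb))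
  set κ := kap b with hκdef
  have h4pos : 0 < Real.log 4 := Real.log_pos (by norm_num)
  set x : ℕ → ℝ := fun j => x0 + j * l' with hx
  have hgap : 0 ≤ κ * (Kc * (2 * Real.log 4)) := by positivity
  have hl'0 : 0 < l' := by linarith
  have hxt : Tendsto x atTop atTop := by
    rw [hx]
    refine tendsto_atTop_add_const_left _ _ ?_
    exact tendsto_natCast_atTop_atTop.atTop_mul_const hl'0
  have hxmono : Monotone x := by
    intro i j hij
    rw [hx]
    simp only
    have : (i : ℝ) ≤ j := by exact_mod_cast hij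
    nlinarith
  have hxsucc : ∀ j, x (j + 1) = x j + l' := by
    intro j
    rw [hx]
    push_cast
    ring
  set δ := l' - l with hδ
  have hδ0 : 0 < δ := by rw [hδ]; linarith
  have hδ1 : κ * (Kc * (2 * Real.log 4)) < δ := by rw [hδ]; linarith
  set TT : ℕ → Fin R → Finset ℕ := fun j s => win κ S (x j + α s) (x j + α' s) with hTT
  set Z : ℕ → ℕ := fun j => lev κ S (x j - δ) with hZ
  have hZmono : Monotone Z := fun i j hij => lev_mono hκ hSi (by
    have := hxmono hij
    linarith)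
  have hmem : ∀ j s p, p ∈ TT j s → p ∈ S ∧ x j < κ * V S p ∧ κ * V S p ≤ x (j + 1) - δ := by
    intro j s p hp
    rw [hTT] at hp
    simp only at hp
    rw [mem_win hκ hSi] at hp
    obtain ⟨h1, h2, h3⟩ := hp
    obtain ⟨h4, h5, h6⟩ := h0 s
    refine ⟨h1, by linarith, ?_⟩
    rw [hxsucc, hδ]
    linarith
  have hmemU : ∀ j p, p ∈ UU (TT j) → p ∈ S ∧ lev κ S (x j) ≤ p ∧ p < Z (j + 1) := by
    intro j p hp
    unfold UU at hp
    rw [mem_biUnion] at hp
    obtain ⟨s, _, hp⟩ := hp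
    obtain ⟨h1, h2, h3⟩ := hmem j s p hp
    refine ⟨h1, (lev_le_iff hκ hSi _ _).2 h2, ?_⟩
    by_contra h4
    push Not at h4
    have h5 := (lev_le_iff hκ hSi _ _).1 h4
    linarith
  have hdisj : ∀ j, Pairwise fun s s' => Disjoint (TT j s) (TT j s') := by
    intro j s s' hss
    rw [Finset.disjoint_left]
    intro p hp hp'
    rw [hTT] at hp hp'
    simp only at hp hp'
    rw [mem_win hκ hSi] at hp hp'
    rcases hd s s' hss with h | h
    · linarith [hp.2.2, hp'.2.1]
    · linarith [hp.2.1, hp'.2.2]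
  have hmain := hmainU b c hOk
  -- one interval
  have hone : ∀ m a1 a2 : ℕ, 1 ≤ a1 → a1 ≤ a2 →
      ∀ᵐ β : ℝ, (a1 : ℝ) / (b : ℝ) ^ m < β → β ≤ (a2 : ℝ) / (b : ℝ) ^ m →
      CesE (fun j : ℕ => ∏ s, θ s ^ (good c b β (TT j s)).card)
      (Real.exp (-(∑ s, (1 - θ s) * (α' s - α s)))) (C1 * ((L + 4) / G0) * ((l + 1) / Real.log b)) := by
    intro m a1 a2 h1 h12
    obtain ⟨P, hP⟩ := hmain m a1 a2 h1 h12
    have hev1 := hxt.eventually (lev_growU hκ hSp hSi (show 1 ≤ Kc by omega) hδ1)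
    have hev2 := hxt.eventually ((lev_large hκ hSi).eventually_ge_atTop P)
    have hxδ : Tendsto (fun j => x j - δ) atTop atTop := by
      have h2 := tendsto_atTop_add_const_right atTop (-δ) hxt
      simp only [← sub_eq_add_neg] at h2
      exact h2
    have hZt : Tendsto Z atTop atTop := (lev_large hκ hSi).comp hxδ
    have hev3 := (win_tendsto hκ hSi hxt (α := 0) (α' := l) hl0).eventually_le_const
      (show l - 0 < l + 1 by linarith)
    obtain ⟨j0, hj0⟩ := eventually_atTop.1 (hev1.and (hev2.and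
      ((hZt.eventually_ge_atTop (m + a2 + 2 + Q)).and hev3)))
    set z : ℕ → ℕ := fun j => Z (j + j0) with hz
    set T : ℕ → Finset ℕ := fun j => UU (TT (j + j0)) with hT
    have hzmono : Monotone z := fun i j hij => hZmono (by omega)
    have hz0 : m + a2 ≤ z 0 := by
      have := (hj0 (0 + j0) (by omega)).2.2.1
      rw [hz]
      simp only
      omega
    have hz2 : ∀ j, 2 ≤ z j := fun j => by
      have := (hj0 (j + j0) (by omega)).2.2.1
      rw [hz]
      simp only
      omega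
    have hTm : ∀ j, ∀ p ∈ T j, p ∈ S ∧ P ≤ p ∧ 2 * A * z j ≤ p ∧ (z j : ℝ) ≤ κ0 * p ∧ z j < p ∧
        p < z (j + 1) ∧ lev κ S (x (j + j0)) ≤ p := by
      intro j p hp
      rw [hT] at hp
      obtain ⟨h2, h3, h4⟩ := hmemU (j + j0) p hp
      obtain ⟨h5, h6, h7, _⟩ := hj0 (j + j0) (by omega)
      have h8 : Kc * z j ≤ p := h5.trans h3
      have h9 := hz2 j
      refine ⟨h2, h6.trans h3, (Nat.mul_le_mul_right _ hKcA).trans h8, ?_, ?_, ?_, h3⟩
      · have h10 : (Kc : ℝ) * z j ≤ p := by exact_mod_cast h8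
        have h11 : (0 : ℝ) ≤ z j := Nat.cast_nonneg _
        calc (z j : ℝ) ≤ κ0 * Kc * z j := le_mul_of_one_le_left h11 hKcκ
          _ = κ0 * (Kc * z j) := by ring
          _ ≤ κ0 * p := mul_le_mul_of_nonneg_left h10 hκ0.le
      · nlinarith
      · have e : j + j0 + 1 = j + 1 + j0 := by omega
        rw [hz]
        simp only
        rw [← e]
        exact h4
    have hTdisj : ∀ J : ℕ, (↑(range J) : Set ℕ).PairwiseDisjoint T := by
      intro J i _ j _ hij
      rw [Function.onFun, Finset.disjoint_left]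
      intro p hp hp'
      obtain ⟨_, _, _, _, h2, h3, _⟩ := hTm i p hp
      obtain ⟨_, _, _, _, h4, h5, _⟩ := hTm j p hp'
      rcases lt_or_gt_of_ne hij with h | h
      · have := hzmono (show i + 1 ≤ j by omega)
        omega
      · have := hzmono (show j + 1 ≤ i by omega)
        omega
    have hTle : ∀ J : ℕ, ∀ p ∈ (range J).biUnion T, p ∈ S ∧ 1 ≤ p ∧ p ≤ z J - 1 := by
      intro J p hp
      rw [mem_biUnion] at hp
      obtain ⟨j, hj, hp⟩ := hp
      rw [mem_range] at hj
      obtain ⟨h1, _, _, _, h2, h3, _⟩ := hTm j p hp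
      have := hzmono (show j + 1 ≤ J by omega)
      exact ⟨h1, by omega, by omega⟩
    have hVz : ∀ j, κ * V S (z j - 1) ≤ x (j + j0) - δ := by
      intro j
      by_contra h
      push Not at h
      have h2 := (lev_le_iff hκ hSi _ _).2 h
      have h3 := hz2 j
      have h4 : z j ≤ z j - 1 := h2
      omega
    set C3 := (x0 + (1 + j0) * l') / κ with hC3
    have hC30 : 0 ≤ C3 := by positivity
    have hVz2 : ∀ J : ℕ, 1 ≤ J → V S (z J - 1) ≤ C3 * J := by
      intro J hJ
      have hJr : (1 : ℝ) ≤ J := by exact_mod_cast hJ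
      have h2 := hVz J
      rw [hC3, div_mul_eq_mul_div, le_div_iff₀ hκ]
      have h3 : x (J + j0) ≤ (x0 + (1 + j0) * l') * J := by
        rw [hx]
        push_cast
        have h4 : 0 ≤ x0 * (J - 1) := mul_nonneg hx0 (by linarith)
        have h5 : 0 ≤ (j0 : ℝ) * l' * (J - 1) := by
          have : (0 : ℝ) ≤ j0 := Nat.cast_nonneg _
          exact mul_nonneg (mul_nonneg this hl'0.le) (by linarith)
        nlinarith
      linarith
    -- the sum of the inverses
    have hK : ∀ J : ℕ, ∑ j ∈ range J, ∑ q ∈ T j, 1 / (q : ℝ) ≤ (2 + C3) * √J := by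
      intro J
      rcases Nat.eq_zero_or_pos J with hJ | hJ
      · subst hJ
        simp
      · have hJr : (1 : ℝ) ≤ J := by exact_mod_cast hJ
        have hsq : 1 ≤ √(J : ℝ) := by
          rw [Real.one_le_sqrt]
          exact hJr
        rw [← Finset.sum_biUnion (hTdisj J)]
        refine (inv_sum (S := S) _ (z J - 1) (hTle J) (show 0 < √(J : ℝ) by linarith)).trans ?_
        have h2 := hVz2 J hJ
        have h3 : V S (z J - 1) / √(J : ℝ) ≤ C3 * √(J : ℝ) := by
          rw [div_le_iff₀ (by linarith), mul_assoc, Real.mul_self_sqrt (by linarith)]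
          exact h2
        linarith
    have hr : Ces (fun j => ∑ q ∈ T j, 1 / (q : ℝ)) 0 := by
      unfold Ces
      have h2 : Tendsto (fun J : ℕ => (2 + C3) * (1 / √(J : ℝ))) atTop (𝓝 ((2 + C3) * 0)) := by
        refine Filter.Tendsto.const_mul _ ?_
        have h3 : Tendsto (fun J : ℕ => √(J : ℝ)) atTop atTop :=
          Real.tendsto_sqrt_atTop.comp tendsto_natCast_atTop_atTop
        exact h3.const_div_atTop 1
      rw [mul_zero] at h2
      refine squeeze_zero' ?_ ?_ h2
      · exact Eventually.of_forall fun J => div_nonneg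
          (Finset.sum_nonneg fun j _ => Finset.sum_nonneg fun q _ => by positivity) (Nat.cast_nonneg J)
      · filter_upwards [eventually_ge_atTop 1] with J hJ
        have hJr : (0 : ℝ) < J := by exact_mod_cast hJ
        rw [div_le_iff₀ hJr]
        refine (hK J).trans (le_of_eq ?_)
        have h3 : √(J : ℝ) ≠ 0 := (Real.sqrt_pos.2 hJr).ne'
        have h4 : (J : ℝ) = √(J : ℝ) * √(J : ℝ) := (Real.mul_self_sqrt hJr.le).symm
        calc (2 + C3) * √(J : ℝ) = (2 + C3) * (1 / √(J : ℝ)) * (√(J : ℝ) * √(J : ℝ)) := by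
              field_simp
          _ = _ := by rw [← h4]
    have hzt : Tendsto z atTop atTop := hZt.comp (tendsto_add_atTop_nat j0)
    have hzt1 : Tendsto (fun J => z J - 1) atTop atTop := by
      rw [tendsto_atTop]
      intro N
      filter_upwards [hzt.eventually_ge_atTop (N + 1)] with J hJ
      omega
    -- the weights
    have hW : ∀ j, κ * ∑ p ∈ T j, Real.log p / (p : ℝ) ≤ l + 1 := by
      intro j
      have h2 := (hj0 (j + j0) (by omega)).2.2.2
      refine le_trans (mul_le_mul_of_nonneg_left ?_ hκ.le) h2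
      refine Finset.sum_le_sum_of_subset_of_nonneg ?_ fun p _ _ => lgn p
      intro p hp
      rw [hT] at hp
      simp only at hp
      unfold UU at hp
      rw [mem_biUnion] at hp
      obtain ⟨s, _, hp⟩ := hp
      rw [hTT] at hp
      simp only at hp
      rw [mem_win hκ hSi] at hp ⊢
      obtain ⟨h3, h4, h5⟩ := h0 s
      refine ⟨hp.1, ?_, ?_⟩
      · linarith [hp.2.1]
      · linarith [hp.2.2]
    have herr : ∀ ε : ℝ, 0 < ε → ∀ᶠ J : ℕ in atTop, (∑ j ∈ range J, errB b κ0 (T j)) / (J : ℝ) ≤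
        (L + 4) / G0 * ((l + 1) / Real.log b) + ε := by
      intro ε hε
      have h2 : ∀ j, errB b κ0 (T j) ≤ ∑ q ∈ T j, 1 / (q : ℝ) +
          (L + 4) / G0 * ((l + 1) / Real.log b) := by
        intro j
        refine (errB_le hb (T j) (L := L) (fun q hq => ?_)).trans (add_le_add le_rfl ?_)
        · have h3 := (hTm j q hq).2.2.2.2.1
          have h4 := (hj0 (j + j0) (by omega)).2.2.1
          have h5 : Q ≤ z j := by
            rw [hz]
            simp only
            omega
          exact hQ S hSp q (by omega) (T j) fun p hp => (hTm j p hp).1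
        · have h3 := hW j
          have e1 : (L + 4) * (1 / Real.log b) ^ 2 * ∑ q ∈ T j, Real.log q / (q : ℝ) =
              (L + 4) / G0 * (1 / Real.log b) * (κ * ∑ q ∈ T j, Real.log q / (q : ℝ)) := by
            rw [hκdef]
            unfold kap
            rw [← hG0]
            field_simp
          rw [e1]
          calc (L + 4) / G0 * (1 / Real.log b) * (κ * ∑ q ∈ T j, Real.log q / (q : ℝ)) ≤
              (L + 4) / G0 * (1 / Real.log b) * (l + 1) :=
                mul_le_mul_of_nonneg_left h3 (by positivity)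
            _ = _ := by ring
      have hr' := hr
      unfold Ces at hr'
      filter_upwards [hr'.eventually_le_const hε, eventually_ge_atTop 1] with J hJ hJ1
      have hJ0 : (0 : ℝ) < J := by exact_mod_cast hJ1
      have h3 : ∑ j ∈ range J, errB b κ0 (T j) ≤ ∑ j ∈ range J, (∑ q ∈ T j, 1 / (q : ℝ)) +
          J * ((L + 4) / G0 * ((l + 1) / Real.log b)) := by
        calc _ ≤ ∑ j ∈ range J, (∑ q ∈ T j, 1 / (q : ℝ) +
            (L + 4) / G0 * ((l + 1) / Real.log b)) := Finset.sum_le_sum fun j _ => h2 j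
          _ = _ := by rw [Finset.sum_add_distrib, Finset.sum_const, card_range, nsmul_eq_mul]
      calc (∑ j ∈ range J, errB b κ0 (T j)) / (J : ℝ) ≤
          (∑ j ∈ range J, (∑ q ∈ T j, 1 / (q : ℝ)) +
          J * ((L + 4) / G0 * ((l + 1) / Real.log b))) / J := div_le_div_of_nonneg_right h3 hJ0.le
        _ = (∑ j ∈ range J, (∑ q ∈ T j, 1 / (q : ℝ))) / J +
            (L + 4) / G0 * ((l + 1) / Real.log b) := by
            rw [add_div, mul_div_cancel_left₀ _ hJ0.ne']
        _ ≤ _ := by linarith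
    have hs : Tendsto (fun j => ∑ q ∈ T j, wt (TT (j + j0)) θ q * (kap b * (Real.log q / q))) atTop
        (𝓝 (∑ s, (1 - θ s) * (α' s - α s))) := by
      have h2 : Tendsto (fun j => ∑ s, (1 - θ s) * (κ * ∑ p ∈ TT j s, Real.log p / (p : ℝ))) atTop
          (𝓝 (∑ s, (1 - θ s) * (α' s - α s))) :=
        tendsto_finsetSum _ fun s _ => (win_tendsto hκ hSi hxt (h0 s).2.1).const_mul _
      refine (h2.comp (tendsto_add_atTop_nat j0)).congr fun j => ?_
      simp only [Function.comp]
      rw [hT]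
      simp only
      rw [wt_sum (hdisj (j + j0)), hκdef]
    have hfin := hP z hzmono hz0 T (fun j p hp => by
      obtain ⟨_, h2, h3, h4, _, h5, _⟩ := hTm j p hp
      exact ⟨h2, h3, h4, h5⟩) (2 + C3) hK _ herr (fun j => wt (TT (j + j0)) θ)
      (fun j p => wt_mem (hdisj (j + j0)) hθ p) _ hs
    filter_upwards [hfin] with β hβ hβl hβr
    have hβ0 : 0 < β := lt_of_le_of_lt (by positivity) hβl
    have e0 : C1 * ((L + 4) / G0 * ((l + 1) / Real.log b)) =
      C1 * ((L + 4) / G0) * ((l + 1) / Real.log b) := by ring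
    rw [e0] at hβ
    refine cesE_unshift (fun j => ⟨Finset.prod_nonneg fun s _ => pow_nonneg (hθ s).1 _,
      Finset.prod_le_one (fun s _ => pow_nonneg (hθ s).1 _) fun s _ =>
        pow_le_one₀ (hθ s).1 (hθ s).2⟩) j0 ((hβ hβl hβr).congr fun j => ?_)
    rw [hT]
    simp only
    rw [Phi_theta (hdisj (j + j0))]
    refine Finset.prod_congr rfl fun s _ => ?_
    rw [good_eq hb c hβ0 (t := z (j + 1)) fun p hp => ?_]
    have h2 : p ∈ T j := by
      rw [hT]
      unfold UU
      exact mem_biUnion.2 ⟨s, mem_univ s, hp⟩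
    exact (hTm j p h2).2.2.2.2.2.1.le
  -- all amplitudes
  have hall : ∀ᵐ β : ℝ, ∀ M0 : ℕ, ((1 : ℕ) : ℝ) / (b : ℝ) ^ M0 < β →
      β ≤ ((b ^ (2 * M0) : ℕ) : ℝ) / (b : ℝ) ^ M0 →
      CesE (fun j : ℕ => ∏ s, θ s ^ (good c b β (TT j s)).card)
      (Real.exp (-(∑ s, (1 - θ s) * (α' s - α s)))) (C1 * ((L + 4) / G0) * ((l + 1) / Real.log b)) :=
    ae_all_iff.2 fun M0 => hone M0 1 (b ^ (2 * M0)) le_rfl (Nat.one_le_pow _ _ (by omega))
  filter_upwards [hall] with β hβ hβ0
  have hb1 : (1 : ℝ) < b := by exact_mod_cast (by omega : 1 < b)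
  have ht : Tendsto (fun M0 : ℕ => (b : ℝ) ^ M0) atTop atTop := tendsto_pow_atTop_atTop_of_one_lt hb1
  obtain ⟨M0, h1, h2⟩ := ((ht.eventually_gt_atTop (1 / β)).and (ht.eventually_ge_atTop β)).exists
  refine hβ M0 ?_ ?_
  · rw [div_lt_iff₀ hβ0] at h1
    rw [div_lt_iff₀ (by positivity)]
    push_cast
    linarith
  · have e : ((b ^ (2 * M0) : ℕ) : ℝ) / (b : ℝ) ^ M0 = (b : ℝ) ^ M0 := by
      push_cast
      rw [div_eq_iff (by positivity), ← pow_add]
      congr 1
      omega
    rw [e]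
    exact h2

end Run7.h854.LB
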