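import Mathlib
import Pool.Agent.Run7.h854.PQ.Slide2
import Pool.Agent.Run7.h854.LB.Grid
import Pool.Agent.Run7.h854.LB.Inv

set_option autoImplicit false

/-!
# All sliding windows, in the limit of large bases
-/

namespace Run7.h854.LB

open Finset Filter Topology MeasureTheory
open Pool.Agent.H305R2 (roughPart)
open Pool.Agent.N176.OW (cell kap S_FM)
open Pool.Agent.N176.SH
open Pool.Agent.N176.GP (NB NB_spec NB_div)
open Run7.h854.PO Run7.h854.PQ

variable {I : Type}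

/-- the law of the windows with end points in the mesh, in the limit of large bases -/
def MeshLawU (Lf : Filter I) (bs : I → ℕ) (cs : I → ℕ → ℤ) (S : Set ℕ) (β : ℝ) : Prop :=
  ∀ D : ℕ, 1 ≤ D → ∀ (R : ℕ) (a a' : Fin R → ℕ), (∀ s, a s ≤ a' s) →
    (∀ s s', s ≠ s' → a' s ≤ a s' ∨ a' s' ≤ a s) → ∀ k : Fin R → ℕ,
    TM (Lf.curry (atTop : Filter ℕ)) (fun x => x.2) (fun x i =>
      if ∀ s, NN (cs x.1) (bs x.1) S β (((i : ℝ) + a s) / D) (((i : ℝ) + a' s) / D) = k s then 1 else 0)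
      (∏ s, (Real.exp (-(((a' s : ℝ) - a s) / D)) * (((a' s : ℝ) - a s) / D) ^ k s / (k s).factorial))

/-- the generating functions for one set of data -/
lemma one_data {A : ℕ} {C : ℝ} {Kc : ℕ}
    (hgrid : ∀ (b : ℕ) (c : ℕ → ℤ), Ok b A c → ∀ (S : Set ℕ), (∀ p ∈ S, p.Prime) →
    Tendsto (V S) atTop atTop → ∀ (R : ℕ) (α α' : Fin R → ℝ) (l l' x0 : ℝ),
    (∀ s, 0 ≤ α s ∧ α s ≤ α' s ∧ α' s ≤ l) →
    (∀ s s', s ≠ s' → α' s ≤ α s' ∨ α' s' ≤ α s) → 0 ≤ l →
    l + kap b * (Kc * (2 * Real.log 4)) < l' → 0 ≤ x0 →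
    ∀ (θ : Fin R → ℝ), (∀ s, 0 ≤ θ s ∧ θ s ≤ 1) →
    ∀ᵐ β : ℝ, 0 < β → CesE (fun j : ℕ => ∏ s, θ s ^
      (good c b β (win (kap b) S (x0 + j * l' + α s) (x0 + j * l' + α' s))).card)
      (Real.exp (-(∑ s, (1 - θ s) * (α' s - α s)))) (C * ((l + 1) / Real.log b)))
    {b : ℕ} {c : ℕ → ℤ} (hOk : Ok b A c) {S : Set ℕ} (hSp : ∀ p ∈ S, p.Prime)
    (hS : Tendsto (V S) atTop atTop) (D M R : ℕ) (a a' : Fin R → ℕ) (r M' : ℕ) (e : Fin R → ℕ)
    (hD : 1 ≤ D) (hM : 1 ≤ M) (ha : ∀ s, a s ≤ a' s) (haM : ∀ s, a' s ≤ M)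
    (hd : ∀ s s', s ≠ s' → a' s ≤ a s' ∨ a' s' ≤ a s)
    (hMM : (M : ℝ) + D * (kap b * (Kc * (2 * Real.log 4))) < M') :
    ∀ᵐ β : ℝ, 0 < β →
      CesE (fun j : ℕ => ∏ s, th (e s) ^ NN c b S β
        (((r + M' * j : ℕ) + (a s : ℝ)) / D) (((r + M' * j : ℕ) + (a' s : ℝ)) / D))
        (Real.exp (-(∑ s, (1 - th (e s)) * (((a' s : ℝ) - a s) / D))))
        (C * (((M : ℝ) / D + 1) / Real.log b)) := by
  have hD0 : (0 : ℝ) < D := by exact_mod_cast hD
  have hM0 : (0 : ℝ) < M := by exact_mod_cast hM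
  have h2 := hgrid b c hOk S hSp hS R (fun s => (a s : ℝ) / D)
    (fun s => (a' s : ℝ) / D) ((M : ℝ) / D) (M' / D) ((r : ℝ) / D) (fun s => ⟨by positivity,
      div_le_div_of_nonneg_right (by exact_mod_cast ha s) hD0.le,
      div_le_div_of_nonneg_right (by exact_mod_cast haM s) hD0.le⟩)
    (fun s s' hss => by
      rcases hd s s' hss with h | h
      · exact Or.inl (div_le_div_of_nonneg_right (by exact_mod_cast h) hD0.le)
      · exact Or.inr (div_le_div_of_nonneg_right (by exact_mod_cast h) hD0.le))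
    (by positivity) (by
      rw [lt_div_iff₀ hD0, add_mul, div_mul_cancel₀ _ hD0.ne']
      linarith) (by positivity) (fun s => th (e s))
    (fun s => ⟨(th_pos _).le, th_le _⟩)
  filter_upwards [h2] with β hβ hβ0
  have h3 := hβ hβ0
  have e1 : ∑ s, (1 - th (e s)) * ((a' s : ℝ) / D - (a s : ℝ) / D) =
      ∑ s, (1 - th (e s)) * (((a' s : ℝ) - a s) / D) :=
    Finset.sum_congr rfl fun s _ => by rw [sub_div]
  rw [e1] at h3
  refine h3.congr fun j => Finset.prod_congr rfl fun s _ => ?_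
  unfold NN
  have e2 : (r : ℝ) / D + j * (M' / D) + (a s : ℝ) / D =
      (((r + M' * j : ℕ) : ℝ) + (a s : ℝ)) / D := by
    push_cast
    field_simp
  have e3 : (r : ℝ) / D + j * (M' / D) + (a' s : ℝ) / D =
      (((r + M' * j : ℕ) : ℝ) + (a' s : ℝ)) / D := by
    push_cast
    field_simp
  rw [e2, e3]

/-- the conditions on the data -/
def Dt (D M R : ℕ) (a a' : Fin R → ℕ) : Prop :=
  1 ≤ D ∧ 1 ≤ M ∧ (∀ s, a s ≤ a' s) ∧ (∀ s, a' s ≤ M) ∧
      (∀ s s', s ≠ s' → a' s ≤ a s' ∨ a' s' ≤ a s)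

theorem mesh_of (Lf : Filter I) (bs : I → ℕ) (cs : I → ℕ → ℤ)
    (hbs : Tendsto (fun i => Real.log (bs i)) Lf atTop) {S : Set ℕ} {β C : ℝ} {Kc : ℕ} (hβ0 : 0 < β)
    (hβ : ∀ (i : I) (D M R : ℕ) (a a' : Fin R → ℕ) (r M' : ℕ) (e : Fin R → ℕ),
      Dt D M R a a' → (M : ℝ) + D * (kap (bs i) * (Kc * (2 * Real.log 4))) < M' → 0 < β →
      CesE (fun j : ℕ => ∏ s, th (e s) ^ NN (cs i) (bs i) S β
        (((r + M' * j : ℕ) + (a s : ℝ)) / D) (((r + M' * j : ℕ) + (a' s : ℝ)) / D))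
        (Real.exp (-(∑ s, (1 - th (e s)) * (((a' s : ℝ) - a s) / D))))
        (C * (((M : ℝ) / D + 1) / Real.log (bs i)))) :
    MeshLawU Lf bs cs S β := by
  intro D hD R a a' ha hd k
  have hD0 : (0 : ℝ) < D := by exact_mod_cast hD
  obtain ⟨M, hM⟩ : ∃ M, M = 1 + ∑ s, a' s := ⟨_, rfl⟩
  have haM : ∀ s, a' s ≤ M := fun s => by
    have := Finset.single_le_sum (f := a') (fun _ _ => Nat.zero_le _) (mem_univ s)
    omega
  have hdt : Dt D M R a a' := ⟨hD, by omega, ha, haM, hd⟩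
  have hl : ∀ s, 0 ≤ ((a' s : ℝ) - a s) / D := fun s => by
    have : (a s : ℝ) ≤ a' s := by exact_mod_cast ha s
    exact div_nonneg (by linarith) hD0.le
  have hg : ∀ e : Fin R → ℕ, TM (Lf.curry (atTop : Filter ℕ)) (fun x => x.2) (fun x j =>
      ∏ s, th (e s) ^ NN (cs x.1) (bs x.1) S β (((j : ℝ) + a s) / D) (((j : ℝ) + a' s) / D))
      (Real.exp (-(∑ s, (1 - th (e s)) * (((a' s : ℝ) - a s) / D)))) := by
    intro e
    -- one generating function
    have h3 : ∀ i : I, CesE (fun j : ℕ => ∏ s, th (e s) ^ NN (cs i) (bs i) S β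
          (((j : ℕ) + (a s : ℝ)) / D) (((j : ℕ) + (a' s : ℝ)) / D))
          (Real.exp (-(∑ s, (1 - th (e s)) * (((a' s : ℝ) - a s) / D))))
          (C * (((M : ℝ) / D + 1) / Real.log (bs i))) := by
      intro i
      obtain ⟨M', hM'⟩ : ∃ M', M' = M + ⌊(D : ℝ) * (kap (bs i) * (Kc * (2 * Real.log 4)))⌋₊ + 1 := ⟨_, rfl⟩
      have hMM : (M : ℝ) + D * (kap (bs i) * (Kc * (2 * Real.log 4))) < M' := by
        have := Nat.lt_floor_add_one ((D : ℝ) * (kap (bs i) * (Kc * (2 * Real.log 4))))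
        rw [hM']
        push_cast
        linarith
      refine cesE_mod (M := M') (fun j => ⟨Finset.prod_nonneg fun s _ => pow_nonneg (th_pos _).le _,
        Finset.prod_le_one (fun s _ => pow_nonneg (th_pos _).le _) fun s _ =>
          pow_le_one₀ (th_pos _).le (th_le _)⟩) (by omega) fun r _ => ?_
      exact hβ i D M R a a' r M' e hdt hMM hβ0
    unfold TM
    rw [Metric.tendsto_nhds]
    intro ε hε
    rw [Filter.eventually_curry_iff]
    have h4 : Tendsto (fun i => C * (((M : ℝ) / D + 1) / Real.log (bs i))) Lf (𝓝 0) := by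
      have h5 := (hbs.const_div_atTop ((M : ℝ) / D + 1)).const_mul C
      rw [mul_zero] at h5
      exact h5
    filter_upwards [h4.eventually_lt_const (show 0 < ε / 2 by positivity)] with i hi
    filter_upwards [h3 i (ε / 4) (by positivity)] with J hJ
    rw [Real.dist_eq]
    linarith
  have key := freqF (ι := I × ℕ) (F := Lf.curry (atTop : Filter ℕ)) (J := fun x => x.2) (R := R)
    (N := fun x j s => NN (cs x.1) (bs x.1) S β (((j : ℝ) + a s) / D) (((j : ℝ) + a' s) / D))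
    (lam := fun s => ((a' s : ℝ) - a s) / D) hl hg k
  exact key

theorem mesh_lawU [Countable I] {A : ℕ} (hA64 : 64 ≤ A) (Lf : Filter I) (bs : I → ℕ)
    (cs : I → ℕ → ℤ) (hOk : ∀ i, Ok (bs i) A (cs i))
    (hbs : Tendsto (fun i => Real.log (bs i)) Lf atTop)
    {S : Set ℕ} (hSp : ∀ p ∈ S, p.Prime) (hS : Tendsto (V S) atTop atTop) :
    ∀ᵐ β : ℝ, 0 < β → MeshLawU Lf bs cs S β := by
  obtain ⟨C, Kc, hC, hgrid⟩ := grid_pgfU A hA64
  have h1 : ∀ (i : I) (D M R : ℕ) (a a' : Fin R → ℕ) (r M' : ℕ) (e : Fin R → ℕ), ∀ᵐ β : ℝ,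
      Dt D M R a a' → (M : ℝ) + D * (kap (bs i) * (Kc * (2 * Real.log 4))) < M' → 0 < β →
      CesE (fun j : ℕ => ∏ s, th (e s) ^ NN (cs i) (bs i) S β
        (((r + M' * j : ℕ) + (a s : ℝ)) / D) (((r + M' * j : ℕ) + (a' s : ℝ)) / D))
        (Real.exp (-(∑ s, (1 - th (e s)) * (((a' s : ℝ) - a s) / D))))
        (C * (((M : ℝ) / D + 1) / Real.log (bs i))) := by
    intro i D M R a a' r M' e
    by_cases hdt : Dt D M R a a'
    · by_cases hMM : (M : ℝ) + D * (kap (bs i) * (Kc * (2 * Real.log 4))) < M'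
      · obtain ⟨h1, h2, h3, h4, h5⟩ := hdt
        filter_upwards [one_data hgrid (hOk i) hSp hS D M R a a' r M' e h1 h2 h3 h4 h5 hMM] with β hβ _ _
        exact hβ
      · exact Eventually.of_forall fun β _ h => absurd h hMM
    · exact Eventually.of_forall fun β h => absurd h hdt
  have h2 : ∀ᵐ β : ℝ, ∀ (i : I) (D M R : ℕ) (a a' : Fin R → ℕ) (r M' : ℕ) (e : Fin R → ℕ),
      Dt D M R a a' → (M : ℝ) + D * (kap (bs i) * (Kc * (2 * Real.log 4))) < M' → 0 < β →
      CesE (fun j : ℕ => ∏ s, th (e s) ^ NN (cs i) (bs i) S β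
        (((r + M' * j : ℕ) + (a s : ℝ)) / D) (((r + M' * j : ℕ) + (a' s : ℝ)) / D))
        (Real.exp (-(∑ s, (1 - th (e s)) * (((a' s : ℝ) - a s) / D))))
        (C * (((M : ℝ) / D + 1) / Real.log (bs i))) := by
    rw [ae_all_iff]; intro i
    rw [ae_all_iff]; intro D
    rw [ae_all_iff]; intro M
    rw [ae_all_iff]; intro R
    rw [ae_all_iff]; intro a
    rw [ae_all_iff]; intro a'
    rw [ae_all_iff]; intro r
    rw [ae_all_iff]; intro M'
    rw [ae_all_iff]; intro e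
    exact h1 i D M R a a' r M' e
  filter_upwards [h2] with β hβ hβ0
  exact mesh_of Lf bs cs hbs hβ0 hβ

lemma ces_realU {h : ℕ → ℝ} {l ε : ℝ} (hε : 0 < ε)
    (hc : ∀ᶠ J : ℕ in atTop, |(∑ j ∈ range J, h j) / (J : ℝ) - l| < ε / 2) {D : ℕ} (hD : 1 ≤ D) (t : ℕ) :
    ∀ᶠ X : ℝ in atTop, |(∑ i ∈ range (⌊(D : ℝ) * X⌋₊ + t), h i) / D / X - l| < ε := by
  have hD0 : (0 : ℝ) < D := by exact_mod_cast hD
  have h1 : Tendsto (fun X : ℝ => ⌊(D : ℝ) * X⌋₊ + t) atTop atTop :=
    (tendsto_add_atTop_nat t).comp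
      (tendsto_nat_floor_atTop.comp (tendsto_id.const_mul_atTop hD0))
  have h3 : Tendsto (fun X : ℝ => ((⌊(D : ℝ) * X⌋₊ + t : ℕ) : ℝ) / X) atTop (𝓝 ((D : ℝ) + 0)) := by
    have h4 := (tendsto_nat_floor_mul_div_atTop (R := ℝ) hD0.le).add
      ((tendsto_const_nhds (x := (t : ℝ))).div_atTop tendsto_id)
    refine h4.congr fun X => ?_
    push_cast
    rw [add_div]
    rfl
  rw [add_zero] at h3
  have h4 := h3.div_const (D : ℝ)
  rw [div_self hD0.ne'] at h4
  have h5 : Tendsto (fun X : ℝ => |l| * |((⌊(D : ℝ) * X⌋₊ + t : ℕ) : ℝ) / X / D - 1|) atTop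
      (𝓝 (|l| * |(1 : ℝ) - 1|)) := ((h4.sub_const 1).abs).const_mul _
  rw [sub_self, abs_zero, mul_zero] at h5
  filter_upwards [h1.eventually hc, h1.eventually_ge_atTop 1, eventually_gt_atTop 0,
    h5.eventually_lt_const (show 0 < ε / 4 by positivity),
    h4.eventually_lt_const (show (1 : ℝ) < 3 / 2 by norm_num)] with X hX1 hX2 hX0 hX3 hX4
  set J := ⌊(D : ℝ) * X⌋₊ + t with hJ
  have hJ0 : (0 : ℝ) < (J : ℝ) := by exact_mod_cast hX2
  set v := (J : ℝ) / X / D with hv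
  have hv0 : 0 < v := by positivity
  have e1 : (∑ i ∈ range J, h i) / D / X - l =
      ((∑ i ∈ range J, h i) / (J : ℝ) - l) * v + l * (v - 1) := by
    rw [hv]
    field_simp
    ring
  rw [e1]
  calc |((∑ i ∈ range J, h i) / (J : ℝ) - l) * v + l * (v - 1)|
      ≤ |((∑ i ∈ range J, h i) / (J : ℝ) - l) * v| + |l * (v - 1)| := abs_add_le _ _
    _ = |(∑ i ∈ range J, h i) / (J : ℝ) - l| * v + |l| * |v - 1| := by
        rw [abs_mul, abs_mul, abs_of_pos hv0]
    _ ≤ ε / 2 * (3 / 2) + |l| * |v - 1| := by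
        refine add_le_add (mul_le_mul hX1.le hX4.le hv0.le (by positivity)) le_rfl
    _ < _ := by linarith

theorem slidingU {Lf : Filter I} {bs : I → ℕ} {cs : I → ℕ → ℤ} {S : Set ℕ}
    (hκs : ∀ i, 0 < kap (bs i)) (hS : Tendsto (V S) atTop atTop)
    {β : ℝ} (hM : MeshLawU Lf bs cs S β) {R : ℕ} (α α' : Fin R → ℝ)
    (h0 : ∀ s, 0 ≤ α s ∧ α s ≤ α' s) (hd : ∀ s s', s ≠ s' → α' s ≤ α s' ∨ α' s' ≤ α s)
    (k : Fin R → ℕ) {ε : ℝ} (hε : 0 < ε) :
    ∀ᶠ i in Lf, ∀ᶠ X : ℝ in atTop, |(volume {y : ℝ | 0 < y ∧ y ≤ X ∧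
      ∀ s, NN (cs i) (bs i) S β (y + α s) (y + α' s) = k s}).toReal / X -
      (∏ s, (Real.exp (-(α' s - α s)) * (α' s - α s) ^ k s / (k s).factorial))| < ε := by
  classical
  set pp := ∏ s, (Real.exp (-(α' s - α s)) * (α' s - α s) ^ k s / ((k s).factorial : ℝ)) with hpp
  -- the mesh
  have hpD : Tendsto (fun D : ℕ => ∏ s, (Real.exp (-(((⌊α' s * (D : ℝ)⌋₊ : ℝ) - ⌊α s * (D : ℝ)⌋₊) / D)) *
      (((⌊α' s * (D : ℝ)⌋₊ : ℝ) - ⌊α s * (D : ℝ)⌋₊) / D) ^ k s / ((k s).factorial : ℝ))) atTop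
      (𝓝 pp) := by
    rw [hpp]
    refine tendsto_finsetProd _ fun s _ => ?_
    have h1 : Tendsto (fun D : ℕ => (((⌊α' s * (D : ℝ)⌋₊ : ℝ) - ⌊α s * (D : ℝ)⌋₊) / D)) atTop
        (𝓝 (α' s - α s)) := by
      have h2 := (tendsto_nat_floor_mul_div_atTop (R := ℝ) ((h0 s).1.trans (h0 s).2)).comp
        tendsto_natCast_atTop_atTop
      have h3 := (tendsto_nat_floor_mul_div_atTop (R := ℝ) (h0 s).1).comp
        tendsto_natCast_atTop_atTop
      refine (h2.sub h3).congr fun D => ?_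
      simp only [Function.comp]
      rw [sub_div]
    exact (((Real.continuous_exp.tendsto _).comp h1.neg).mul (h1.pow (k s))).div_const _
  have hGD : Tendsto (fun D : ℕ => ∑ _s : Fin R, ((1 - Real.exp (-(2 / (D : ℝ)))) +
      (1 - Real.exp (-(2 / (D : ℝ)))))) atTop (𝓝 0) := by
    have h1 : Tendsto (fun D : ℕ => -(2 / (D : ℝ))) atTop (𝓝 (-0)) :=
      (tendsto_const_div_atTop_nhds_zero_nat 2).neg
    rw [neg_zero] at h1
    have h2 := (tendsto_const_nhds (x := (1 : ℝ))).sub ((Real.continuous_exp.tendsto _).comp h1)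
    rw [Real.exp_zero, sub_self] at h2
    have h3 := tendsto_finsetSum (univ : Finset (Fin R)) fun s _ => h2.add h2
    rw [add_zero, Finset.sum_const_zero] at h3
    exact h3
  obtain ⟨D, ⟨hD1, hD2⟩, hD⟩ := (((Metric.tendsto_nhds.1 hpD) (ε / 3) (by positivity)).and
    (hGD.eventually_lt_const (show 0 < ε / 3 by positivity))).and (eventually_ge_atTop 1) |>.exists
  have hD0 : (0 : ℝ) < D := by exact_mod_cast hD
  set a : Fin R → ℕ := fun s => ⌊α s * (D : ℝ)⌋₊ with ha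
  set a' : Fin R → ℕ := fun s => ⌊α' s * (D : ℝ)⌋₊ with ha'
  have haa : ∀ s, a s ≤ a' s := fun s =>
    Nat.floor_mono (mul_le_mul_of_nonneg_right (h0 s).2 hD0.le)
  have hdd : ∀ s s', s ≠ s' → a' s ≤ a s' ∨ a' s' ≤ a s := by
    intro s s' hss
    rcases hd s s' hss with h | h
    · exact Or.inl (Nat.floor_mono (mul_le_mul_of_nonneg_right h hD0.le))
    · exact Or.inr (Nat.floor_mono (mul_le_mul_of_nonneg_right h hD0.le))
  set ff : I × ℕ → ℕ → ℝ := fun x i =>
    if ∀ s, NN (cs x.1) (bs x.1) S β (((i : ℝ) + a s) / D) (((i : ℝ) + a' s) / D) = k s then 1 else 0 with hff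
  set uu : ℕ → I × ℕ → ℕ → ℝ := fun e x i =>
    1 - (if NN (cs x.1) (bs x.1) S β (((i : ℝ) + e) / D) (((i : ℝ) + ((e + 2 : ℕ) : ℝ)) / D) = 0 then 1 else 0) with huu
  set gg : I × ℕ → ℕ → ℝ := fun x i => ∑ s, (uu (a s) x i + uu (a' s) x i) with hgg
  set pD := ∏ s, (Real.exp (-(((a' s : ℝ) - a s) / D)) * (((a' s : ℝ) - a s) / D) ^ k s /
    ((k s).factorial : ℝ)) with hpDdef
  have hcf : TM (Lf.curry (atTop : Filter ℕ)) (fun x => x.2) ff pD := hM D hD R a a' haa hdd k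
  have hcu : ∀ e, TM (Lf.curry (atTop : Filter ℕ)) (fun x => x.2) (uu e) (1 - Real.exp (-(2 / (D : ℝ)))) := by
    intro e
    have h1 := hM D hD 1 (fun _ => e) (fun _ => e + 2) (fun _ => by omega)
      (fun s s' hss => absurd (Subsingleton.elim s s') hss) (fun _ => 0)
    have h2 : TM (Lf.curry (atTop : Filter ℕ)) (fun x => x.2) (fun _ _ => (1 : ℝ)) 1 := by
      unfold TM
      refine tendsto_const_nhds.congr' ?_
      rw [Filter.EventuallyEq, Filter.eventually_curry_iff]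
      refine Eventually.of_forall fun i => ?_
      filter_upwards [eventually_ge_atTop 1] with J hJ
      have hJ0 : (0 : ℝ) < (J : ℝ) := by exact_mod_cast hJ
      simp only [Finset.sum_const, card_range, nsmul_eq_mul, mul_one]
      rw [div_self hJ0.ne']
    have h3 := h2.sub h1
    have e1 : (∏ _s : Fin 1, (Real.exp (-((((e + 2 : ℕ) : ℝ) - (e : ℝ)) / D)) *
        ((((e + 2 : ℕ) : ℝ) - (e : ℝ)) / D) ^ 0 / ((0 : ℕ).factorial : ℝ))) =
        Real.exp (-(2 / (D : ℝ))) := by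
      rw [Fin.prod_univ_one]
      push_cast
      rw [pow_zero, mul_one, Nat.factorial_zero, Nat.cast_one, div_one]
      congr 3
      ring
    rw [e1] at h3
    refine h3.congr fun x i => ?_
    rw [huu]
    simp only
    congr 1
    by_cases hc : NN (cs x.1) (bs x.1) S β (((i : ℝ) + e) / D) (((i : ℝ) + ((e + 2 : ℕ) : ℝ)) / D) = 0
    · rw [if_pos hc, if_pos fun _ => hc]
    · rw [if_neg hc, if_neg fun h => hc (h 0)]
  set GD := ∑ _s : Fin R, ((1 - Real.exp (-(2 / (D : ℝ)))) + (1 - Real.exp (-(2 / (D : ℝ))))) with hGDdef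
  have hcg : TM (Lf.curry (atTop : Filter ℕ)) (fun x => x.2) gg GD :=
    TM.sum _ fun s _ => (hcu (a s)).add (hcu (a' s))
  have hL1 := (Metric.tendsto_nhds.1 (hcf.add hcg)) (ε / 6) (by positivity)
  have hL2 := (Metric.tendsto_nhds.1 (hcf.sub hcg)) (ε / 6) (by positivity)
  rw [Filter.eventually_curry_iff] at hL1 hL2
  filter_upwards [hL1, hL2] with ix hLi1 hLi2
  set b := bs ix with hbdef
  set c := cs ix with hcdef
  have hκ : 0 < kap b := hκs ix
  set f : ℕ → ℝ := fun i =>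
    if ∀ s, NN c b S β (((i : ℝ) + a s) / D) (((i : ℝ) + a' s) / D) = k s then 1 else 0 with hf
  set u : ℕ → ℕ → ℝ := fun e i =>
    1 - (if NN c b S β (((i : ℝ) + e) / D) (((i : ℝ) + ((e + 2 : ℕ) : ℝ)) / D) = 0 then 1 else 0) with hu
  set g : ℕ → ℝ := fun i => ∑ s, (u (a s) i + u (a' s) i) with hg
  have hu0 : ∀ e i, 0 ≤ u e i := fun e i => by
    rw [hu]
    simp only
    split_ifs <;> norm_num
  have hf01 : ∀ i, 0 ≤ f i ∧ f i ≤ 1 := fun i => by
    rw [hf]
    simp only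
    split_ifs <;> norm_num
  have hg0 : ∀ i, 0 ≤ g i := fun i => Finset.sum_nonneg fun s _ => add_nonneg (hu0 _ _) (hu0 _ _)
  -- small `g` means no exponents near the end points
  have hsmall : ∀ i, g i < 1 → ∀ s,
      NN c b S β (((i : ℝ) + a s) / D) (((i : ℝ) + ((a s + 2 : ℕ) : ℝ)) / D) = 0 ∧
      NN c b S β (((i : ℝ) + a' s) / D) (((i : ℝ) + ((a' s + 2 : ℕ) : ℝ)) / D) = 0 := by
    intro i hi s
    have h1 : u (a s) i + u (a' s) i ≤ g i :=
      Finset.single_le_sum (f := fun s => u (a s) i + u (a' s) i)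
        (fun s _ => add_nonneg (hu0 _ _) (hu0 _ _)) (mem_univ s)
    have h2 := hu0 (a s) i
    have h3 := hu0 (a' s) i
    constructor
    · by_contra h
      have h4 : u (a s) i = 1 := by
        rw [hu]
        simp only
        rw [if_neg h, sub_zero]
      linarith
    · by_contra h
      have h4 : u (a' s) i = 1 := by
        rw [hu]
        simp only
        rw [if_neg h, sub_zero]
      linarith
  have hcomp : ∀ i, g i < 1 → ∀ y : ℝ, (i : ℝ) / D < y → y ≤ ((i : ℝ) + 1) / D → ∀ s,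
      NN c b S β (y + α s) (y + α' s) = NN c b S β (((i : ℝ) + a s) / D) (((i : ℝ) + a' s) / D) := by
    intro i hi y hy1 hy2 s
    obtain ⟨h1, h2⟩ := hsmall i hi s
    rw [div_lt_iff₀ hD0] at hy1
    rw [le_div_iff₀ hD0] at hy2
    have h3 : (a s : ℝ) ≤ α s * D := Nat.floor_le (mul_nonneg (h0 s).1 hD0.le)
    have h4 : α s * D < a s + 1 := Nat.lt_floor_add_one _
    have h5 : (a' s : ℝ) ≤ α' s * D := Nat.floor_le (mul_nonneg ((h0 s).1.trans (h0 s).2) hD0.le)
    have h6 : α' s * D < a' s + 1 := Nat.lt_floor_add_one _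
    refine NN_eq hκ hS ?_ ?_ ?_ ?_ h1 h2
    · rw [div_le_iff₀ hD0]; linarith
    · rw [le_div_iff₀ hD0]; push_cast; linarith
    · rw [div_le_iff₀ hD0]; linarith
    · rw [le_div_iff₀ hD0]; push_cast; linarith
  set E : ℝ → Set ℝ := fun X => {y : ℝ | 0 < y ∧ y ≤ X ∧
      ∀ s, NN c b S β (y + α s) (y + α' s) = k s} with hE
  have hEfin : ∀ X, volume (E X) ≠ ⊤ := fun X => by
    refine ne_top_of_le_ne_top ?_ (measure_mono (show E X ⊆ Set.Ioc 0 X from fun y h => ⟨h.1, h.2.1⟩))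
    rw [Real.volume_Ioc]
    exact ENNReal.ofReal_ne_top
  have hIoc : ∀ i : ℕ, volume (Set.Ioc ((i : ℝ) / D) (((i : ℝ) + 1) / D)) = ENNReal.ofReal (1 / D) := by
    intro i
    rw [Real.volume_Ioc]
    congr 1
    field_simp
    ring
  -- the upper bound
  have hupper : ∀ X : ℝ, 0 < X → (volume (E X)).toReal ≤
      (∑ i ∈ range (⌊(D : ℝ) * X⌋₊ + 1), (f i + g i)) / D := by
    intro X hX
    set F := (range (⌊(D : ℝ) * X⌋₊ + 1)).filter (fun i => 1 ≤ f i + g i) with hF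
    have hsub : E X ⊆ ⋃ i ∈ F, Set.Ioc ((i : ℝ) / D) (((i : ℝ) + 1) / D) := by
      rintro y ⟨hy0, hyX, hy⟩
      have hyD : 0 < y * D := mul_pos hy0 hD0
      have hc1 : 0 < ⌈y * D⌉₊ := Nat.ceil_pos.2 hyD
      obtain ⟨i, hi⟩ : ∃ i, ⌈y * D⌉₊ = i + 1 := ⟨⌈y * D⌉₊ - 1, by omega⟩
      have h1 : y * D ≤ (i : ℝ) + 1 := by
        have := Nat.le_ceil (y * D)
        rw [hi] at this
        push_cast at this
        exact this
      have h2 : (i : ℝ) < y * D := by
        have := Nat.lt_ceil.1 (show i < ⌈y * D⌉₊ by omega)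
        exact this
      rw [Set.mem_iUnion₂]
      have h3 : (i : ℝ) / D < y := by rw [div_lt_iff₀ hD0]; exact h2
      have h4 : y ≤ ((i : ℝ) + 1) / D := by rw [le_div_iff₀ hD0]; exact h1
      refine ⟨i, ?_, h3, h4⟩
      rw [hF, mem_filter, mem_range]
      constructor
      · have h5 : (i : ℝ) ≤ (D : ℝ) * X := by nlinarith
        have h6 := Nat.le_floor h5
        omega
      · by_cases hgi : g i < 1
        · have h5 : f i = 1 := by
            rw [hf]
            simp only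
            rw [if_pos]
            intro s
            rw [← hcomp i hgi y h3 h4 s]
            exact hy s
          have := hg0 i
          linarith
        · push Not at hgi
          have := (hf01 i).1
          linarith
    have h1 : volume (E X) ≤ ∑ i ∈ F, ENNReal.ofReal (1 / D) := by
      refine (measure_mono hsub).trans ((measure_biUnion_finset_le _ _).trans ?_)
      exact Finset.sum_le_sum fun i _ => (hIoc i).le
    rw [Finset.sum_const, nsmul_eq_mul] at h1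
    have h2 : (volume (E X)).toReal ≤ (F.card : ℝ) * (1 / D) := by
      have h3 := ENNReal.toReal_mono (by
        exact ENNReal.mul_ne_top (ENNReal.natCast_ne_top _) ENNReal.ofReal_ne_top) h1
      rw [ENNReal.toReal_mul, ENNReal.toReal_natCast, ENNReal.toReal_ofReal (by positivity)] at h3
      exact h3
    refine h2.trans ?_
    rw [mul_one_div]
    refine div_le_div_of_nonneg_right ?_ hD0.le
    calc (F.card : ℝ) = ∑ i ∈ F, (1 : ℝ) := by simp
      _ ≤ ∑ i ∈ F, (f i + g i) := Finset.sum_le_sum fun i hi => (mem_filter.1 hi).2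
      _ ≤ _ := Finset.sum_le_sum_of_subset_of_nonneg (filter_subset _ _) fun i _ _ =>
          add_nonneg (hf01 i).1 (hg0 i)
  -- the lower bound
  have hlower : ∀ X : ℝ, 0 < X →
      (∑ i ∈ range (⌊(D : ℝ) * X⌋₊ + 0), (f i - g i)) / D ≤ (volume (E X)).toReal := by
    intro X hX
    set F := (range (⌊(D : ℝ) * X⌋₊ + 0)).filter (fun i => 0 < f i - g i) with hF
    have hsub : (⋃ i ∈ F, Set.Ioc ((i : ℝ) / D) (((i : ℝ) + 1) / D)) ⊆ E X := by
      intro y hy
      rw [Set.mem_iUnion₂] at hy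
      obtain ⟨i, hi, h1, h2⟩ := hy
      rw [hF, mem_filter, mem_range] at hi
      obtain ⟨h3, h4⟩ := hi
      have hgi : g i < 1 := by
        have := (hf01 i).2
        linarith
      refine ⟨lt_of_le_of_lt (by positivity) h1, h2.trans ?_, fun s => ?_⟩
      · rw [div_le_iff₀ hD0]
        have h5 : ((i + 1 : ℕ) : ℝ) ≤ ((⌊(D : ℝ) * X⌋₊ : ℕ) : ℝ) := by exact_mod_cast (by omega)
        have h6 : ((⌊(D : ℝ) * X⌋₊ : ℕ) : ℝ) ≤ (D : ℝ) * X := Nat.floor_le (by positivity)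
        push_cast at h5
        linarith
      · rw [hcomp i hgi y h1 h2 s]
        by_contra hne
        have h5 : f i = 0 := by
          rw [hf]
          simp only
          rw [if_neg fun h => hne (h s)]
        have := hg0 i
        linarith
    have h1 : ∑ i ∈ F, ENNReal.ofReal (1 / D) ≤ volume (E X) := by
      have h2 : volume (⋃ i ∈ F, Set.Ioc ((i : ℝ) / D) (((i : ℝ) + 1) / D)) =
          ∑ i ∈ F, volume (Set.Ioc ((i : ℝ) / D) (((i : ℝ) + 1) / D)) := by
        refine measure_biUnion_finset ?_ fun i _ => measurableSet_Ioc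
        intro i _ j _ hij
        rw [Function.onFun, Set.disjoint_left]
        rintro y ⟨h3, h4⟩ ⟨h5, h6⟩
        rcases lt_or_gt_of_ne hij with h | h
        · have h7 : ((i : ℝ) + 1) / D ≤ (j : ℝ) / D := by
            refine div_le_div_of_nonneg_right ?_ hD0.le
            exact_mod_cast h
          linarith
        · have h7 : ((j : ℝ) + 1) / D ≤ (i : ℝ) / D := by
            refine div_le_div_of_nonneg_right ?_ hD0.le
            exact_mod_cast h
          linarith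
      rw [Finset.sum_congr rfl fun i _ => hIoc i] at h2
      rw [← h2]
      exact measure_mono hsub
    rw [Finset.sum_const, nsmul_eq_mul] at h1
    have h2 : (F.card : ℝ) * (1 / D) ≤ (volume (E X)).toReal := by
      have h3 := ENNReal.toReal_mono (hEfin X) h1
      rw [ENNReal.toReal_mul, ENNReal.toReal_natCast, ENNReal.toReal_ofReal (by positivity)] at h3
      exact h3
    refine le_trans ?_ h2
    rw [mul_one_div]
    refine div_le_div_of_nonneg_right ?_ hD0.le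
    calc ∑ i ∈ range (⌊(D : ℝ) * X⌋₊ + 0), (f i - g i) ≤ ∑ i ∈ F, (f i - g i) := by
          rw [hF, Finset.sum_filter]
          refine Finset.sum_le_sum fun i _ => ?_
          split_ifs with h
          · exact le_rfl
          · exact not_lt.1 h
      _ ≤ ∑ i ∈ F, (1 : ℝ) := Finset.sum_le_sum fun i _ => by
          have := (hf01 i).2
          have := hg0 i
          linarith
      _ = F.card := by simp
  have hM1 := ces_realU (h := fun j => f j + g j) (l := pD + GD) (ε := ε / 3) (by positivity) (by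
    filter_upwards [hLi1] with J hJ
    rw [Real.dist_eq] at hJ
    have e6 : ε / 3 / 2 = ε / 6 := by ring
    rw [e6]
    exact hJ) hD 1
  have hM2 := ces_realU (h := fun j => f j - g j) (l := pD - GD) (ε := ε / 3) (by positivity) (by
    filter_upwards [hLi2] with J hJ
    rw [Real.dist_eq] at hJ
    have e6 : ε / 3 / 2 = ε / 6 := by ring
    rw [e6]
    exact hJ) hD 0
  filter_upwards [hM1, hM2, eventually_gt_atTop 0] with X hX1 hX2 hX0
  have h1 := hupper X hX0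
  have h2 := hlower X hX0
  rw [Real.dist_eq, abs_lt] at hD1
  rw [abs_lt] at hX1 hX2
  rw [abs_lt]
  have h3 : (volume (E X)).toReal / X ≤ (∑ i ∈ range (⌊(D : ℝ) * X⌋₊ + 1), (f i + g i)) / D / X :=
    div_le_div_of_nonneg_right h1 hX0.le
  have h4 : (∑ i ∈ range (⌊(D : ℝ) * X⌋₊ + 0), (f i - g i)) / D / X ≤ (volume (E X)).toReal / X :=
    div_le_div_of_nonneg_right h2 hX0.le
  constructor
  · linarith [hX2.1, hD1.1, hD1.2]
  · linarith [hX1.2, hD1.1, hD1.2]

end Run7.h854.LB
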