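import Mathlib
import Pool.Agent.Run7.h854.PQ.All
import Pool.Agent.Run7.h854.LB.Slide
import Pool.Agent.N372.SH.OKP

set_option autoImplicit false

/-!
# The statistics of the exponents among all primes, in the limit of large bases
-/

namespace Run7.h854.LB

open Finset Filter Topology MeasureTheory
open Pool.Agent.H305R2 (roughPart)
open Pool.Agent.N176.OW (kap S_FM)
open Pool.Agent.N176.SH
open Pool.Agent.N176.GP (NB)
open Run7.h854.PO Run7.h854.PQ

/-- admissible shifts for the pairs `(a, b)` with `b ^ 2 ≤ a`, with the ratio `64` -/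
theorem okU {a : ℕ} {b : ℤ} (ha : 2 ≤ a) (hb1 : 1 ≤ |b|) (hba : b ^ 2 ≤ a) :
    ∃ c : ℕ → ℤ, Ok a 64 c ∧ ∃ P0 : ℕ, ∀ p ≥ P0, c p = cc a b p := by
  have hlt : |b| < a := by
    have h1 : |b| * |b| ≤ a := by
      have : |b| * |b| = b ^ 2 := by rw [← sq, sq_abs]
      rw [this]
      exact hba
    have h2 : (2 : ℤ) ≤ a := by exact_mod_cast ha
    by_contra h
    push Not at h
    nlinarith
  obtain ⟨A, hA⟩ := Pool.Agent.N372.SH.okp a b hb1 hlt
  rcases hA.deg with h | h | h
  · refine ⟨fun _ => 0, ok_zero ha, 0, fun p _ => (h p).symm⟩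
  · refine ⟨fun _ => 1, ok_one ha, 0, fun p _ => (h p).symm⟩
  · have haZ : (2 : ℤ) ≤ a := by exact_mod_cast ha
    have haR : (2 : ℝ) ≤ a := by exact_mod_cast ha
    have hbR : (1 : ℝ) ≤ |(b : ℝ)| := by
      have : ((1 : ℤ) : ℝ) ≤ ((|b| : ℤ) : ℝ) := by exact_mod_cast hb1
      rw [Int.cast_abs] at this
      simpa using this
    have hltR : |(b : ℝ)| + 1 ≤ a := by
      have : ((|b| + 1 : ℤ) : ℝ) ≤ ((a : ℤ) : ℝ) := by exact_mod_cast hlt
      push_cast at this
      exact this
    set K : ℤ := if 0 < b then 2 else -1 with hK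
    have hcpos : 0 < b → ∀ p, cc a b p ≤ 0 := by
      intro h0 p
      unfold cc
      rw [if_pos h0]
      have hb0 : (0 : ℝ) < b := by exact_mod_cast h0
      have h1 : 0 < ⌈(b : ℝ) ^ p / ((a : ℝ) - b)⌉ := by
        rw [Int.ceil_pos]
        rw [abs_of_pos hb0] at hltR
        have : 0 < (a : ℝ) - b := by linarith
        positivity
      omega
    have hcneg : ¬ 0 < b → ∀ p, 1 ≤ cc a b p := by
      intro h0 p
      unfold cc
      rw [if_neg h0]
      have hb0 : (b : ℝ) ≤ 0 := by exact_mod_cast not_lt.1 h0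
      have h1 : 0 ≤ ⌊(|b| : ℝ) ^ p / ((a : ℝ) - b)⌋ := by
        apply Int.floor_nonneg.2
        have : 0 < (a : ℝ) - b := by linarith
        positivity
      omega
    have hcabs : ∀ p, |cc a b p| ≤ 2 * |b| ^ p := by
      intro p
      have hbp : (1 : ℤ) ≤ |b| ^ p := one_le_pow₀ hb1
      by_cases h0 : 0 < b
      · have h1 := hcpos h0 p
        rw [abs_of_nonpos h1]
        unfold cc
        rw [if_pos h0]
        have hb0 : (0 : ℝ) < b := by exact_mod_cast h0
        rw [abs_of_pos hb0] at hltR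
        have h2 : ⌈(b : ℝ) ^ p / ((a : ℝ) - b)⌉ ≤ |b| ^ p := by
          rw [Int.ceil_le, abs_of_pos h0]
          push_cast
          exact div_le_self (by positivity) (by linarith)
        linarith
      · have h1 := hcneg h0 p
        rw [abs_of_pos (by omega)]
        unfold cc
        rw [if_neg h0]
        have hb0 : (b : ℝ) ≤ 0 := by exact_mod_cast not_lt.1 h0
        have h2 : ⌊(|b| : ℝ) ^ p / ((a : ℝ) - b)⌋ ≤ |b| ^ p := by
          have h3 : (⌊(|b| : ℝ) ^ p / ((a : ℝ) - b)⌋ : ℝ) ≤ (|b| : ℝ) ^ p :=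
            (Int.floor_le _).trans (div_le_self (by positivity) (by linarith))
          exact_mod_cast h3
        linarith
    refine ⟨fun p => if p < A then K else cc a b p, ?_, A, fun p hp => if_neg (by omega)⟩
    refine { hb := ha, hA := le_rfl, size := ?_, deg := Or.inr (Or.inr ?_) }
    · intro p hp
      by_cases hpA : p < A
      · rw [if_pos hpA]
        have h1 : |K| ≤ a := by
          rw [hK]
          split_ifs
          · rw [abs_of_pos (by norm_num)]; exact haZ
          · rw [abs_neg, abs_one]; omega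
        calc |K| * (a : ℤ) ^ (2 * (p / 64) + 1) ≤ a * (a : ℤ) ^ (2 * (p / 64) + 1) :=
              mul_le_mul_of_nonneg_right h1 (by positivity)
          _ = (a : ℤ) ^ (2 * (p / 64) + 2) := by ring
          _ ≤ (a : ℤ) ^ p := pow_le_pow_right₀ (by omega) (by omega)
      · rw [if_neg hpA]
        have h1 := hcabs p
        have h2 : 2 * |b| ^ p * (a : ℤ) ^ (2 * (p / 64) + 1) ≤ (a : ℤ) ^ p := by
          refine le_of_sq_le_sq ?_ (by positivity)
          have h3 : (|b| ^ p) ^ 2 ≤ (a : ℤ) ^ p := by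
            rw [← pow_mul, mul_comm, pow_mul, sq_abs]
            exact pow_le_pow_left₀ (sq_nonneg b) hba p
          have h4 : (4 : ℤ) ≤ (a : ℤ) ^ 2 := by nlinarith
          calc (2 * |b| ^ p * (a : ℤ) ^ (2 * (p / 64) + 1)) ^ 2
              = 4 * (|b| ^ p) ^ 2 * (a : ℤ) ^ (4 * (p / 64) + 2) := by ring
            _ ≤ (a : ℤ) ^ 2 * (a : ℤ) ^ p * (a : ℤ) ^ (4 * (p / 64) + 2) := by gcongr
            _ = (a : ℤ) ^ (p + 4 * (p / 64) + 4) := by ring
            _ ≤ (a : ℤ) ^ (p * 2) := pow_le_pow_right₀ (by omega) (by omega)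
            _ = ((a : ℤ) ^ p) ^ 2 := by rw [pow_mul]
        exact (mul_le_mul_of_nonneg_right h1 (by positivity)).trans h2
    · intro p hp q hq r hr0 hr1
      have hpow : (2 : ℤ) ≤ (a : ℤ) ^ (q - p) := by
        calc (2 : ℤ) ≤ a := haZ
          _ = (a : ℤ) ^ 1 := (pow_one _).symm
          _ ≤ (a : ℤ) ^ (q - p) := pow_le_pow_right₀ (by omega) (by omega)
      by_cases hpA : p < A
      · simp only [if_pos hpA]
        by_cases h0 : 0 < b
        · have hK2 : K = 2 := by rw [hK, if_pos h0]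
          have hcq : (if q < A then K else cc a b q) ≤ 2 := by
            split_ifs
            · rw [hK2]
            · exact (hcpos h0 q).trans (by norm_num)
          intro he
          have h9 : r + (if q < A then K else cc a b q) = (a : ℤ) ^ (q - p) * 2 := by rw [← hK2]; exact he
          linarith
        · have hK2 : K = -1 := by rw [hK, if_neg h0]
          have hcq : -1 ≤ (if q < A then K else cc a b q) := by
            split_ifs
            · rw [hK2]
            · exact le_trans (by norm_num) (hcneg h0 q)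
          intro he
          have h9 : r + (if q < A then K else cc a b q) = (a : ℤ) ^ (q - p) * (-1) := by rw [← hK2]; exact he
          linarith
      · simp only [if_neg hpA, if_neg (show ¬ q < A by omega)]
        exact h p (by omega) q hq r hr0 hr1

/-- the set of all primes has infinite weight -/
theorem V_primes : Tendsto (V {p | p.Prime}) atTop atTop := by
  refine tendsto_atTop_atTop_of_monotone (V_mono _) fun B => ?_
  by_contra hcon
  push Not at hcon
  have h1 : Summable (Set.indicator {p : ℕ | p.Prime} (fun n : ℕ => (1 : ℝ) / n)) := by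
    refine summable_of_sum_range_le (c := 1 + B) (fun n => ?_) fun n => ?_
    · exact Set.indicator_nonneg (fun p _ => by positivity) n
    · have h2 : ∀ p ∈ range n, Set.indicator {p : ℕ | p.Prime} (fun n : ℕ => (1 : ℝ) / n) p ≤
          (if p = 2 then 1 else 0) + Set.indicator {p : ℕ | p.Prime} (fun p : ℕ => Real.log p / (p : ℝ)) p := by
        intro p _
        by_cases hp : p.Prime
        · rw [Set.indicator_of_mem (show p ∈ {p : ℕ | p.Prime} from hp),
            Set.indicator_of_mem (show p ∈ {p : ℕ | p.Prime} from hp)]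
          have hp0 : (0 : ℝ) < p := by exact_mod_cast hp.pos
          by_cases h2 : p = 2
          · rw [if_pos h2]
            have h3 := lgn p
            have h4 : (1 : ℝ) / p ≤ 1 := by
              rw [div_le_one hp0]
              exact_mod_cast hp.one_lt.le
            linarith
          · rw [if_neg h2, zero_add]
            refine div_le_div_of_nonneg_right ?_ hp0.le
            have h3 : 3 ≤ p := by
              have := hp.two_le
              omega
            have h4 : (3 : ℝ) ≤ p := by exact_mod_cast h3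
            rw [Real.le_log_iff_exp_le hp0]
            have := Real.exp_one_lt_d9
            linarith
        · rw [Set.indicator_of_notMem (show p ∉ {p : ℕ | p.Prime} from hp),
            Set.indicator_of_notMem (show p ∉ {p : ℕ | p.Prime} from hp)]
          split_ifs <;> norm_num
      refine (Finset.sum_le_sum h2).trans ?_
      rw [Finset.sum_add_distrib]
      refine add_le_add ?_ ?_
      · rw [Finset.sum_ite_eq']
        split_ifs <;> norm_num
      · have h3 := V_eq {p : ℕ | p.Prime} n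
        have h4 := hcon n
        rw [h3, Finset.sum_range_succ] at h4
        have h5 : 0 ≤ Set.indicator {p : ℕ | p.Prime} (fun p : ℕ => Real.log p / (p : ℝ)) n :=
          Set.indicator_nonneg (fun p _ => lgn p) n
        linarith
  exact Nat.Primes.not_summable_one_div (by
    have := (summable_subtype_iff_indicator (s := {p : ℕ | p.Prime}) (f := fun n : ℕ => (1 : ℝ) / n)).2 h1
    exact this)

/-- the index set: the pairs -/
def Idx : Type := {x : ℕ × ℤ // 2 ≤ x.1 ∧ 1 ≤ |x.2| ∧ x.2 ^ 2 ≤ x.1}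

instance : Countable Idx := by unfold Idx; infer_instance

/-- large bases -/
def Lb : Filter Idx := Filter.comap (fun x => x.1.1) atTop

noncomputable def csx (x : Idx) : ℕ → ℤ := (okU x.2.1 x.2.2.1 x.2.2.2).choose

lemma csx_ok (x : Idx) : Ok x.1.1 64 (csx x) := (okU x.2.1 x.2.2.1 x.2.2.2).choose_spec.1

lemma csx_eq (x : Idx) : ∃ P0 : ℕ, ∀ p ≥ P0, csx x p = cc x.1.1 x.1.2 p :=
  (okU x.2.1 x.2.2.1 x.2.2.2).choose_spec.2

/-- finitely many exponents do not matter -/
lemma compare {κ : ℝ} (hκ : 0 < κ) {S : Set ℕ} (hS : Tendsto (V S) atTop atTop) {R : ℕ}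
    {α α' : Fin R → ℝ} (h0 : ∀ s, 0 ≤ α s ∧ α s ≤ α' s) (k : Fin R → ℕ) {G : ℕ → Prop} {N : ℝ → ℝ → ℕ}
    {P0 : ℕ} (hN : ∀ x y : ℝ, κ * V S P0 ≤ x →
      {p : ℕ | p ∈ S ∧ x < κ * V S p ∧ κ * V S p ≤ y ∧ G p}.ncard = N x y)
    {l ε : ℝ} (hε : 0 < ε)
    (h : ∀ᶠ X : ℝ in atTop, |(volume {y : ℝ | 0 < y ∧ y ≤ X ∧
      ∀ s, N (y + α s) (y + α' s) = k s}).toReal / X - l| < ε / 2) :
    ∀ᶠ X : ℝ in atTop, |(volume {y : ℝ | 0 < y ∧ y ≤ X ∧ ∀ s,
      {p : ℕ | p ∈ S ∧ y + α s < κ * V S p ∧ κ * V S p ≤ y + α' s ∧ G p}.ncard = k s}).toReal / X - l| < ε := by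
  set y0 := κ * V S P0 with hy0
  have hy00 : 0 ≤ y0 := mul_nonneg hκ.le (V_nonneg S P0)
  have h1 : Tendsto (fun X : ℝ => y0 / X) atTop (𝓝 0) := tendsto_const_nhds.div_atTop tendsto_id
  filter_upwards [h, h1.eventually_lt_const (show 0 < ε / 2 by positivity), eventually_gt_atTop 0]
    with X hX hX1 hX0
  set E := {y : ℝ | 0 < y ∧ y ≤ X ∧ ∀ s, N (y + α s) (y + α' s) = k s} with hE
  set E' := {y : ℝ | 0 < y ∧ y ≤ X ∧ ∀ s,
      {p : ℕ | p ∈ S ∧ y + α s < κ * V S p ∧ κ * V S p ≤ y + α' s ∧ G p}.ncard = k s} with hE'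
  have hag : ∀ y : ℝ, y0 < y → (y ∈ E ↔ y ∈ E') := by
    intro y hy
    have h2 : ∀ s, {p : ℕ | p ∈ S ∧ y + α s < κ * V S p ∧ κ * V S p ≤ y + α' s ∧ G p}.ncard =
        N (y + α s) (y + α' s) := fun s => hN _ _ (by linarith [(h0 s).1])
    rw [hE, hE', Set.mem_ofPred_eq, Set.mem_ofPred_eq]
    simp only [h2]
  have hsub1 : E ⊆ E' ∪ Set.Ioc 0 y0 := by
    intro y hy
    rcases lt_or_ge y0 y with h2 | h2
    · exact Or.inl ((hag y h2).1 hy)
    · exact Or.inr ⟨hy.1, h2⟩
  have hsub2 : E' ⊆ E ∪ Set.Ioc 0 y0 := by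
    intro y hy
    rcases lt_or_ge y0 y with h2 | h2
    · exact Or.inl ((hag y h2).2 hy)
    · exact Or.inr ⟨hy.1, h2⟩
  have hvol : volume (Set.Ioc 0 y0) = ENNReal.ofReal y0 := by rw [Real.volume_Ioc, sub_zero]
  have hfin : ∀ Q : Set ℝ, Q ⊆ Set.Ioc 0 X → volume Q ≠ ⊤ := fun Q hQ => by
    refine ne_top_of_le_ne_top ?_ (measure_mono hQ)
    rw [Real.volume_Ioc]
    exact ENNReal.ofReal_ne_top
  have hEf := hfin E fun y h => ⟨h.1, h.2.1⟩
  have hEf' := hfin E' fun y h => ⟨h.1, h.2.1⟩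
  have hle : ∀ Q Q' : Set ℝ, volume Q' ≠ ⊤ → Q ⊆ Q' ∪ Set.Ioc 0 y0 →
      (volume Q).toReal ≤ (volume Q').toReal + y0 := by
    intro Q Q' hQ' hsub
    have h2 : volume Q ≤ volume Q' + ENNReal.ofReal y0 := by
      rw [← hvol]
      exact (measure_mono hsub).trans (measure_union_le _ _)
    have h3 := ENNReal.toReal_mono (ENNReal.add_ne_top.2 ⟨hQ', ENNReal.ofReal_ne_top⟩) h2
    rw [ENNReal.toReal_add hQ' ENNReal.ofReal_ne_top, ENNReal.toReal_ofReal hy00] at h3
    exact h3
  have g1 := hle E E' hEf' hsub1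
  have g2 := hle E' E hEf hsub2
  have g3 : |(volume E').toReal / X - (volume E).toReal / X| ≤ y0 / X := by
    rw [← sub_div, abs_div, abs_of_pos hX0]
    refine div_le_div_of_nonneg_right ?_ hX0.le
    rw [abs_le]
    constructor <;> linarith
  have g4 := abs_sub_le ((volume E').toReal / X) ((volume E).toReal / X) l
  linarith

/-- the statistics of the exponents of the pairs, in the limit of large bases -/
theorem large_pairs {S : Set ℕ} (hSp : ∀ p ∈ S, p.Prime) (hS : Tendsto (V S) atTop atTop) :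
    ∀ᵐ β : ℝ, 0 < β → ∀ (r : ℕ) (α α' : Fin r → ℝ) (k : Fin r → ℕ),
      (∀ s, 0 ≤ α s ∧ α s ≤ α' s) → (∀ s s', s ≠ s' → α' s ≤ α s' ∨ α' s' ≤ α s) →
      ∀ ε : ℝ, 0 < ε → ∃ a₀ : ℕ, ∀ a ≥ a₀, ∀ b : ℤ, 1 ≤ |b| → b ^ 2 ≤ a →
      ∀ᶠ X : ℝ in atTop, |(volume {y : ℝ | 0 < y ∧ y ≤ X ∧ ∀ s,
        {p : ℕ | p ∈ S ∧ y + α s < kap a * V S p ∧ kap a * V S p ≤ y + α' s ∧
          (WW a b β p).Prime}.ncard = k s}).toReal / X -
        ∏ s, (Real.exp (-(α' s - α s)) * (α' s - α s) ^ k s / (k s).factorial)| < ε := by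
  have hκs : ∀ i : Idx, 0 < kap i.1.1 := fun i =>
    div_pos (Real.exp_pos _) (Real.log_pos (by
      have := i.2.1
      exact_mod_cast (by omega : 1 < i.1.1)))
  have hlog : Tendsto (fun i : Idx => Real.log (i.1.1)) Lb atTop :=
    (Real.tendsto_log_atTop.comp tendsto_natCast_atTop_atTop).comp tendsto_comap
  filter_upwards [mesh_lawU (le_refl 64) Lb (fun i : Idx => i.1.1) csx csx_ok hlog hSp hS] with β hβ
    hβ0 r α α' k h0 hd ε hε
  have h1 := slidingU (bs := fun i : Idx => i.1.1) (cs := csx) hκs hS (hβ hβ0) α α' h0 hd k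
    (show 0 < ε / 2 by positivity)
  unfold Lb at h1
  rw [Filter.eventually_comap] at h1
  obtain ⟨a0, ha0⟩ := eventually_atTop.1 h1
  refine ⟨max a0 2, fun a ha b hb1 hba => ?_⟩
  have ha2 : 2 ≤ a := (le_max_right _ _).trans ha
  obtain ⟨P0, hP0⟩ := csx_eq ⟨(a, b), ha2, hb1, hba⟩
  have h2 := ha0 a ((le_max_left _ _).trans ha) ⟨(a, b), ha2, hb1, hba⟩ rfl
  refine compare (hκs ⟨(a, b), ha2, hb1, hba⟩) hS h0 k (P0 := max P0 3) (fun x y hx => ?_) hε h2
  unfold NN
  rw [← Set.ncard_coe_finset]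
  congr 1
  ext p
  rw [Set.mem_ofPred_eq, mem_coe, mem_good, mem_win (hκs ⟨(a, b), ha2, hb1, hba⟩) hS]
  have hkey : p ∈ S → x < kap a * V S p →
      roughPart p (sh (csx ⟨(a, b), ha2, hb1, hba⟩) p (NB a β p)) = WW a b β p := by
    intro hpS hxp
    have h3 : kap a * V S (max P0 3) < kap a * V S p := lt_of_le_of_lt hx hxp
    have h4 : max P0 3 < p := by
      by_contra h
      push Not at h
      have h5 := mul_le_mul_of_nonneg_left (V_mono S h) (hκs ⟨(a, b), ha2, hb1, hba⟩).le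
      exact absurd h3 (not_lt.2 h5)
    have h5 : P0 ≤ p := (le_max_left P0 3).trans h4.le
    have h6 : 3 ≤ p := (le_max_right P0 3).trans h4.le
    have h7 : sh (csx ⟨(a, b), ha2, hb1, hba⟩) p (NB a β p) = sh (cc a b) p (NB a β p) := by
      unfold sh
      rw [hP0 p h5]
    rw [h7]
    exact WW_eq ha2 hb1 hβ0 (Or.inl ((hSp p hpS).odd_of_ne_two (by omega)))
  constructor
  · rintro ⟨h3, h4, h5, h6⟩
    refine ⟨⟨h3, h4, h5⟩, ?_⟩
    rw [hkey h3 h4]
    exact h6
  · rintro ⟨⟨h3, h4, h5⟩, h6⟩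
    refine ⟨h3, h4, h5, ?_⟩
    rw [hkey h3 h4] at h6
    exact h6

end Run7.h854.LB
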